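import Pool.Agent.Lib_MP_1209e6_ag.Defs
import Pool.Agent.Lib_MP_1209e6_ag.Place

/-! The form `∑ ± g_0 dg_1 ∧ … ∧ dg_k`. -/

set_option autoImplicit false

namespace Pool.Agent.Campana

/-- the differentials of a family -/
noncomputable def dMap {K : Type} [Field K] [Algebra ℂ K] {p : ℕ} (g : Fin p → K) :
    Derivation ℂ K K →ₗ[K] (Fin p → K) where
  toFun D := fun j => D (g j)
  map_add' D₁ D₂ := by ext j; simp
  map_smul' c D := by ext j; simp

/-- the form `∑ ± g_0 dg_1 ∧ … ∧ dg_k` -/
noncomputable def wr {K : Type} [Field K] [Algebra ℂ K] {k : ℕ} (g : Fin (k + 1) → K) :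
    Form K k :=
  ((Matrix.detRowAlternating (n := Fin (k + 1)) (R := K)).curryLeft g).compLinearMap (dMap g)

/-- its matrix -/
def wrM {K : Type} [Field K] [Algebra ℂ K] {k : ℕ} (g : Fin (k + 1) → K)
    (D : Fin k → Derivation ℂ K K) : Matrix (Fin (k + 1)) (Fin (k + 1)) K :=
  Matrix.of (Matrix.vecCons g fun i j => D i (g j))

lemma wr_apply {K : Type} [Field K] [Algebra ℂ K] {k : ℕ} (g : Fin (k + 1) → K)
    (D : Fin k → Derivation ℂ K K) : wr g D = (wrM g D).det := rfl

lemma wrM_zero {K : Type} [Field K] [Algebra ℂ K] {k : ℕ} (g : Fin (k + 1) → K)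
    (D : Fin k → Derivation ℂ K K) (j : Fin (k + 1)) : wrM g D 0 j = g j := rfl

lemma wrM_succ {K : Type} [Field K] [Algebra ℂ K] {k : ℕ} (g : Fin (k + 1) → K)
    (D : Fin k → Derivation ℂ K K) (i : Fin k) (j : Fin (k + 1)) :
    wrM g D i.succ j = D i (g j) := rfl

/-- change of basis -/
lemma wr_basis {K : Type} [Field K] [Algebra ℂ K] {k : ℕ} (g : Fin (k + 1) → K)
    (c : Matrix (Fin (k + 1)) (Fin (k + 1)) ℂ) (D : Fin k → Derivation ℂ K K) :
    wr (fun j => ∑ l, c j l • g l) D = algebraMap ℂ K c.det * wr g D := by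
  rw [wr_apply, wr_apply]
  have h1 : wrM (fun j => ∑ l, c j l • g l) D = wrM g D * (c.map (algebraMap ℂ K)).transpose := by
    ext r j
    rw [Matrix.mul_apply]
    refine Fin.cases ?_ (fun i => ?_) r
    · simp only [wrM_zero, Matrix.transpose_apply, Matrix.map_apply, Algebra.smul_def]
      exact Finset.sum_congr rfl fun l _ => mul_comm _ _
    · simp only [wrM_succ, Matrix.transpose_apply, Matrix.map_apply, map_sum,
        Derivation.map_smul]
      exact Finset.sum_congr rfl fun l _ => by rw [Algebra.smul_def, mul_comm]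
  rw [h1, Matrix.det_mul, Matrix.det_transpose, mul_comm]
  congr 1
  rw [RingHom.map_det]
  rfl

/-- scaling -/
lemma wr_scale {K : Type} [Field K] [Algebra ℂ K] {k : ℕ} (h : K) (g : Fin (k + 1) → K)
    (D : Fin k → Derivation ℂ K K) :
    wr (fun j => h * g j) D = h ^ (k + 1) * wr g D := by
  rw [wr_apply, wr_apply]
  set T : Matrix (Fin (k + 1)) (Fin (k + 1)) K := fun r s =>
    if r = s then h else if s = 0 then
      (Fin.cases 0 (fun i => D i h) r : K) else 0 with hT
  have h1 : wrM (fun j => h * g j) D = T * wrM g D := by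
    ext r j
    rw [Matrix.mul_apply]
    refine Fin.cases ?_ (fun i => ?_) r
    · rw [Finset.sum_eq_single 0]
      · simp [hT, wrM_zero]
      · intro s _ hs
        simp [hT, hs, Ne.symm hs]
      · simp
    · rw [Fin.sum_univ_succ, Finset.sum_eq_single i]
      · simp only [hT, wrM_zero, wrM_succ, Fin.succ_ne_zero, if_false, if_true, Fin.cases_succ,
          Derivation.leibniz, smul_eq_mul]
        ring
      · intro s _ hs
        have h2 : (i.succ = s.succ) = False := by
          simp [Ne.symm hs]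
        simp [hT, h2, Fin.succ_ne_zero]
      · simp
  rw [h1, Matrix.det_mul]
  congr 1
  rw [Matrix.det_of_isLowerTriangular (M := T)]
  · simp [hT]
  · intro r s hrs
    have h2 : r < s := hrs
    have h3 : s ≠ 0 := by
      rintro rfl
      exact absurd h2 (Fin.not_lt_zero _)
    simp [hT, h2.ne, h3]

/-- the form does not vanish -/
theorem wr_ne_zero {K : Type} [Field K] [Algebra ℂ K] {k : ℕ} (z : Fin (k + 1) → K)
    (hz0 : z 0 ≠ 0) (D : Fin k → Derivation ℂ K K)
    (hD : ∀ i j, D i (z j.succ / z 0) = if j = i then 1 else 0) : wr z D = z 0 ^ (k + 1) := by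
  have h1 : z = fun j => z 0 * (z j / z 0) := by
    ext j
    field_simp
  have h2 := wr_scale (z 0) (fun j => z j / z 0) D
  rw [← h1] at h2
  rw [h2, wr_apply]
  have h3 : (wrM (fun j => z j / z 0) D).det = 1 := by
    rw [Matrix.det_of_isUpperTriangular]
    · rw [Fin.prod_univ_succ]
      simp [wrM_zero, wrM_succ, hD, div_self hz0]
    · intro r s hrs
      have h4 : s < r := hrs
      revert h4
      refine Fin.cases ?_ (fun i => ?_) r
      · intro h4
        exact absurd h4 (Fin.not_lt_zero _)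
      · refine Fin.cases ?_ (fun j => ?_) s
        · intro _
          rw [wrM_succ, div_self hz0]
          exact (D i).map_one_eq_zero
        · intro h4
          rw [wrM_succ, hD, if_neg]
          exact (Fin.succ_lt_succ_iff.1 h4).ne
  rw [h3, mul_one]

/-- integrality of the form at a place -/
theorem wr_mem {K : Type} [Field K] [Algebra ℂ K] {O : ValuationSubring K} {k : ℕ}
    (g : Fin (k + 1) → K) (hg : ∀ j, g j ∈ O) (D : Fin k → Derivation ℂ K K)
    (hD : ∀ i, ∀ x ∈ O, D i x ∈ O) : wr g D ∈ O := by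
  rw [wr_apply]
  apply F_det_mem
  intro r j
  refine Fin.cases ?_ (fun i => ?_) r
  · exact hg j
  · exact hD i _ (hg j)

/-- vanishing of the form at a place -/
theorem wr_mem_pow {K : Type} [Field K] [Algebra ℂ K] {O : ValuationSubring K} {k : ℕ}
    (g : Fin (k + 1) → K) (hg : ∀ j, g j ∈ O) (t : K) (ht0 : t ≠ 0) (ht : t ∈ O) (s : ℕ)
    (j₀ : Fin (k + 1)) (x : K) (hx : x ∈ O) (hj₀ : g j₀ = t ^ (s + 1) * x)
    (D : Fin k → Derivation ℂ K K) (hD : ∀ i, ∀ x ∈ O, D i x ∈ O) :
    (t ^ s)⁻¹ * wr g D ∈ O := by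
  have hcol : ∀ r, ∃ y ∈ O, wrM g D r j₀ = t ^ s * y := by
    intro r
    refine Fin.cases ?_ (fun i => ?_) r
    · refine ⟨t * x, O.mul_mem _ _ ht hx, ?_⟩
      rw [wrM_zero, hj₀]
      ring
    · refine ⟨((s + 1 : ℕ) : K) * D i t * x + t * D i x, ?_, ?_⟩
      · refine O.add_mem _ _ (O.mul_mem _ _ (O.mul_mem _ _ ?_ (hD i t ht)) hx)
          (O.mul_mem _ _ ht (hD i x hx))
        exact natCast_mem O (s + 1)
      · rw [wrM_succ, hj₀, Derivation.leibniz, Derivation.leibniz_pow]
        simp only [smul_eq_mul, nsmul_eq_mul, Nat.add_sub_cancel]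
        ring
  choose y hy hyM using hcol
  have h1 : wrM g D = ((wrM g D).updateCol j₀ ((t ^ s) • y)) := by
    ext r j
    by_cases hj : j = j₀
    · subst hj
      simp [hyM]
    · rw [Matrix.updateCol_ne hj]
  rw [wr_apply, h1, Matrix.det_updateCol_smul, ← mul_assoc, inv_mul_cancel₀ (pow_ne_zero _ ht0),
    one_mul]
  apply F_det_mem
  intro r j
  by_cases hj : j = j₀
  · subst hj
    rw [Matrix.updateCol_self]
    exact hy r
  · rw [Matrix.updateCol_ne hj]
    refine Fin.cases ?_ (fun i => ?_) r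
    · exact hg j
    · exact hD i _ (hg j)

end Pool.Agent.Campana
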