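import Pool.Agent.Lib_MP_1209e6_mh.Indep
import Pool.Agent.Lib_MP_1209e6_mh.Wr

/-! Fields with many multiple hyperplanes are not special: the core. -/

set_option autoImplicit false

namespace Pool.Agent.Campana

lemma ord_prod {K : Type} [Field K] {O : ValuationSubring K} {v : K → ℤ} (hv : IsOrd O v)
    {ι : Type} (A : Finset ι) (g : ι → K) (hg : ∀ a ∈ A, g a ≠ 0) :
    v (∏ a ∈ A, g a) = ∑ a ∈ A, v (g a) := by
  classical
  induction A using Finset.induction_on with
  | empty => simpa using F_ord_one hv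
  | insert a A ha ih =>
    rw [Finset.prod_insert ha, Finset.sum_insert ha, hv.1 _ _ (hg a (Finset.mem_insert_self _ _)),
      ih fun b hb => hg b (Finset.mem_insert_of_mem hb)]
    exact Finset.prod_ne_zero_iff.2 fun b hb => hg b (Finset.mem_insert_of_mem hb)

lemma ord_div {K : Type} [Field K] {O : ValuationSubring K} {v : K → ℤ} (hv : IsOrd O v)
    (x y : K) (hx : x ≠ 0) (hy : y ≠ 0) : v (x / y) = v x - v y := by
  rw [div_eq_mul_inv, hv.1 _ _ hx (inv_ne_zero hy), F_ord_inv hv y hy]
  ring

/-- The core: at most `M` of the multiple hyperplanes of `A` have a common point. -/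
theorem not_special_core {K : Type} [Field K] [Algebra ℂ K] {k M : ℕ} (hk : 1 ≤ k)
    (z : Fin (k + 1) → K) (hz0 : z 0 ≠ 0)
    (hz : AlgebraicIndependent ℂ (fun i : Fin k => z i.succ / z 0))
    (A : Finset (Fin (k + 1) → ℂ)) (hA0 : ∀ a ∈ A, a ≠ 0) (hA : 2 * (k + 1) * M < A.card)
    (hW : ∀ W : Submodule ℂ (Fin (k + 1) → ℂ), W ≠ ⊤ → ∀ B ⊆ A, (∀ b ∈ B, b ∈ W) → B.card ≤ M)
    (hT : ∀ a ∈ A, ∀ O : ValuationSubring K, IsPlace O → ∀ v : K → ℤ, IsOrd O v →
      ∀ i₀, (∀ i, v (z i₀) ≤ v (z i)) →
        v (Fintype.linearCombination ℂ z a) ≠ v (z i₀) + 1) : ¬ SpecialField K := by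
  classical
  intro hS
  -- the number M is positive
  have hAne : A.Nonempty := Finset.card_pos.1 (by omega)
  have hM : 1 ≤ M := by
    obtain ⟨a, ha⟩ := hAne
    have h1 := hW (Submodule.span ℂ {a}) (by
      intro htop
      have h2 := finrank_span_le_card (R := ℂ) ({a} : Set (Fin (k + 1) → ℂ))
      rw [htop, finrank_top, Module.finrank_fintype_fun_eq_card, Fintype.card_fin] at h2
      simp at h2
      omega) {a} (by simpa using ha) (by
        intro b hb
        rw [Finset.mem_singleton.1 hb]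
        exact Submodule.mem_span_singleton_self a)
    simpa using h1
  set L := Fintype.linearCombination ℂ z with hL
  have hLne : ∀ a, a ≠ 0 → L a ≠ 0 := lin_ne_zero z hz0 hz
  have hLs : ∀ l, L (Pi.single l 1) = z l := by
    intro l
    rw [hL, Fintype.linearCombination_apply, Finset.sum_eq_single l]
    · simp
    · intro j _ hj
      simp [hj]
    · simp
  have hzne : ∀ l, z l ≠ 0 := by
    intro l
    rw [← hLs l]
    apply hLne
    intro h0
    have := congrFun h0 l
    simp at this
  -- derivations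
  have hex : ∀ i : Fin k, ∃ D : Derivation ℂ K K, ∀ j : Fin k,
      D (z j.succ / z 0) = if j = i then 1 else 0 :=
    fun i => exists_derivation (fun i : Fin k => z i.succ / z 0) hz (fun j => if j = i then 1 else 0)
  choose D hD using hex
  have hω : wr z ≠ 0 := by
    intro h0
    have h1 := wr_ne_zero z hz0 D hD
    rw [h0] at h1
    exact pow_ne_zero (k + 1) hz0 h1.symm
  set m := 2 * M with hm
  obtain ⟨r, hr⟩ : ∃ r, 1 + r + m * (k + 1) = A.card := by
    refine ⟨A.card - 1 - m * (k + 1), ?_⟩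
    have : 2 * (k + 1) * M = m * (k + 1) := by rw [hm]; ring
    omega
  set P := ∏ a ∈ A, L a with hP
  have hPne : P ≠ 0 := Finset.prod_ne_zero_iff.2 fun a ha => hLne a (hA0 a ha)
  set f : Fin (k + 1) → K := fun i => z i * z 0 ^ r / P with hf
  have hfne : ∀ i, f i ≠ 0 := fun i => div_ne_zero (mul_ne_zero (hzne i) (pow_ne_zero _ hz0)) hPne
  refine hS k hk (wr z) hω m (by omega) (f 0) (hfne 0) (fun i => f i.succ) ?_ ?_
  swap
  · have h1 : (fun i : Fin k => f i.succ / f 0) = fun i : Fin k => z i.succ / z 0 := by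
      ext i
      simp only [hf]
      have h2 : z 0 ^ r ≠ 0 := pow_ne_zero _ hz0
      field_simp
    rw [h1]
    exact hz
  intro O hO
  suffices hreg : ∀ i, RegularAt O (wr z) m (f i) from ⟨hreg 0, fun i => hreg i.succ⟩
  obtain ⟨v, hv⟩ := place_order O hO
  obtain ⟨t, ht0, hvt⟩ := hv.2.2
  have htO : t ∈ O := by
    rw [hv.2.1 t ht0, hvt]
    norm_num
  obtain ⟨i₀, hi₀⟩ := Finite.exists_min (fun i => v (z i))
  set h := z i₀ with hh
  have hh0 : h ≠ 0 := hzne i₀
  have hzO : ∀ i, z i / h ∈ O := by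
    intro i
    rw [hv.2.1 _ (div_ne_zero (hzne i) hh0), ord_div hv _ _ (hzne i) hh0]
    have h1 : v h ≤ v (z i) := hi₀ i
    omega
  -- the values of the linear forms
  have hLO : ∀ a, L a / h ∈ O := by
    intro a
    rw [hL, Fintype.linearCombination_apply, Finset.sum_div]
    refine sum_mem fun i _ => ?_
    rw [Algebra.smul_def, mul_div_assoc]
    exact O.mul_mem _ _ (hO.1 _) (hzO i)
  have hvL : ∀ a, a ≠ 0 → v h ≤ v (L a) := by
    intro a ha
    have h1 := (hv.2.1 _ (div_ne_zero (hLne a ha) hh0)).1 (hLO a)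
    rw [ord_div hv _ _ (hLne a ha) hh0] at h1
    omega
  -- the hyperplanes with positive relative order
  set W : Submodule ℂ (Fin (k + 1) → ℂ) :=
    { carrier := {a | L a / h * t⁻¹ ∈ O}
      add_mem' := by
        intro a b ha hb
        have h1 : L (a + b) / h * t⁻¹ = L a / h * t⁻¹ + L b / h * t⁻¹ := by
          rw [map_add]
          ring
        show L (a + b) / h * t⁻¹ ∈ O
        rw [h1]
        exact O.add_mem _ _ ha hb
      zero_mem' := by
        show L 0 / h * t⁻¹ ∈ O
        rw [map_zero, zero_div, zero_mul]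
        exact O.zero_mem
      smul_mem' := by
        intro c a ha
        have h1 : L (c • a) / h * t⁻¹ = algebraMap ℂ K c * (L a / h * t⁻¹) := by
          rw [map_smul, Algebra.smul_def]
          ring
        show L (c • a) / h * t⁻¹ ∈ O
        rw [h1]
        exact O.mul_mem _ _ (hO.1 c) ha } with hWdef
  have hWmem : ∀ a, a ≠ 0 → (a ∈ W ↔ v h + 1 ≤ v (L a)) := by
    intro a ha
    have h1 : a ∈ W ↔ L a / h * t⁻¹ ∈ O := Iff.rfl
    rw [h1, hv.2.1 _ (mul_ne_zero (div_ne_zero (hLne a ha) hh0) (inv_ne_zero ht0)),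
      hv.1 _ _ (div_ne_zero (hLne a ha) hh0) (inv_ne_zero ht0), ord_div hv _ _ (hLne a ha) hh0,
      F_ord_inv hv t ht0, hvt]
    omega
  have hWtop : W ≠ ⊤ := by
    intro htop
    have h1 : (Pi.single i₀ 1 : Fin (k + 1) → ℂ) ∈ W := by
      rw [htop]
      trivial
    rw [hWmem _ (by
      intro h0
      have := congrFun h0 i₀
      simp at this), hLs, ← hh] at h1
    omega
  set B := A.filter (fun a => a ∈ W) with hB
  have hBM : B.card ≤ M := hW W hWtop B (Finset.filter_subset _ _) fun b hb =>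
    (Finset.mem_filter.1 hb).2
  -- the two cases
  have hcases : ∃ s N : ℕ, (M * N ≤ m * s) ∧ (∀ a ∈ A, v (L a) ≤ v h + N) ∧
      ∀ E : Fin k → Derivation ℂ K K, (∀ i, ∀ x ∈ O, E i x ∈ O) →
        (h ^ (k + 1) * t ^ s)⁻¹ * wr z E ∈ O := by
    by_cases hBe : B = ∅
    · refine ⟨0, 0, by simp, ?_, ?_⟩
      · intro a ha
        by_contra hcon
        push Not at hcon
        have h1 : a ∈ B := by
          rw [hB, Finset.mem_filter, hWmem a (hA0 a ha)]
          refine ⟨ha, ?_⟩
          push_cast at hcon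
          omega
        rw [hBe] at h1
        exact absurd h1 (Finset.notMem_empty _)
      · intro E hE
        have h1 : z = fun j => h * (z j / h) := by
          ext j
          field_simp
        have h2 := wr_scale h (fun j => z j / h) E
        rw [← h1] at h2
        rw [h2, pow_zero, mul_one, ← mul_assoc, inv_mul_cancel₀ (pow_ne_zero _ hh0), one_mul]
        exact wr_mem _ hzO E hE
    · obtain ⟨a₁, ha₁B, ha₁⟩ := Finset.exists_max_image B (fun a => v (L a))
        (Finset.nonempty_iff_ne_empty.2 hBe)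
      obtain ⟨ha₁A, ha₁W⟩ := Finset.mem_filter.1 ha₁B
      have ha₁0 := hA0 a₁ ha₁A
      have h1 := (hWmem a₁ ha₁0).1 ha₁W
      have h2 := hT a₁ ha₁A O hO v hv i₀ hi₀
      obtain ⟨s, hs⟩ : ∃ s : ℕ, v (L a₁) = v h + (s + 1 : ℕ) := by
        refine ⟨(v (L a₁) - v h - 1).toNat, ?_⟩
        push_cast
        omega
      have hs1 : 1 ≤ s := by
        by_contra hcon
        have h3 : s = 0 := by omega
        rw [h3] at hs
        exact h2 (by simpa using hs)
      refine ⟨s, s + 1, ?_, ?_, ?_⟩
      · rw [hm]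
        nlinarith
      · intro a ha
        by_cases haW : a ∈ W
        · have h3 := ha₁ a (Finset.mem_filter.2 ⟨ha, haW⟩)
          rw [hs] at h3
          exact h3
        · rw [hWmem a (hA0 a ha)] at haW
          push_cast
          omega
      · intro E hE
        obtain ⟨l₁, hl₁⟩ := Function.ne_iff.1 ha₁0
        set c : Matrix (Fin (k + 1)) (Fin (k + 1)) ℂ :=
          ((1 : Matrix (Fin (k + 1)) (Fin (k + 1)) ℂ).updateCol l₁ a₁).transpose with hc
        have hcdet : c.det ≠ 0 := by
          rw [hc, Matrix.det_transpose, ← Matrix.cramer_apply, Matrix.cramer_one]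
          exact hl₁
        have hcdet' : algebraMap ℂ K c.det ≠ 0 := by
          rw [Ne, map_eq_zero]
          exact hcdet
        -- the new coordinates
        set z' : Fin (k + 1) → K := fun j => ∑ l, c j l • z l with hz'
        have hz'1 : z' l₁ = L a₁ := by
          rw [hz', hL, Fintype.linearCombination_apply]
          refine Finset.sum_congr rfl fun l _ => ?_
          rw [hc, Matrix.transpose_apply, Matrix.updateCol_self]
        have hz'L : ∀ j, z' j = L (c j) := by
          intro j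
          rw [hL, Fintype.linearCombination_apply]
        have h3 := wr_basis z c E
        have h4 : z' = fun j => h * (z' j / h) := by
          ext j
          field_simp
        have h5 := wr_scale h (fun j => z' j / h) E
        rw [← h4] at h5
        rw [← hz', h5] at h3
        -- the large column
        have h6 : z' l₁ / h = t ^ (s + 1) * (L a₁ / h / t ^ (s + 1)) := by
          rw [hz'1]
          field_simp
        have h7 : L a₁ / h / t ^ (s + 1) ∈ O := by
          rw [hv.2.1 _ (div_ne_zero (div_ne_zero (hLne _ ha₁0) hh0) (pow_ne_zero _ ht0)),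
            ord_div hv _ _ (div_ne_zero (hLne _ ha₁0) hh0) (pow_ne_zero _ ht0),
            ord_div hv _ _ (hLne _ ha₁0) hh0, F_ord_pow hv t ht0, hvt, hs]
          push_cast
          omega
        have h8 := wr_mem_pow (fun j => z' j / h) (fun j => by
          rw [hz'L]
          exact hLO _) t ht0 htO s l₁ _ h7 h6 E hE
        have h9 : (h ^ (k + 1) * t ^ s)⁻¹ * wr z E =
            algebraMap ℂ K (c.det)⁻¹ * ((t ^ s)⁻¹ * wr (fun j => z' j / h) E) := by
          rw [map_inv₀, mul_inv]
          have h10 : wr z E = (algebraMap ℂ K c.det)⁻¹ *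
              (h ^ (k + 1) * wr (fun j => z' j / h) E) := by
            rw [h3, ← mul_assoc, inv_mul_cancel₀ hcdet', one_mul]
          rw [h10]
          have h11 : h ^ (k + 1) ≠ 0 := pow_ne_zero _ hh0
          field_simp
        rw [h9]
        exact O.mul_mem _ _ (hO.1 _) h8
  obtain ⟨s, N, hsN, hN, hEO⟩ := hcases
  intro i
  have hu0 : h ^ (k + 1) * t ^ s ≠ 0 := mul_ne_zero (pow_ne_zero _ hh0) (pow_ne_zero _ ht0)
  refine ⟨h ^ (k + 1) * t ^ s, hu0, hEO, ?_⟩
  rw [hv.2.1 _ (mul_ne_zero (hfne i) (pow_ne_zero _ hu0)),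
    hv.1 _ _ (hfne i) (pow_ne_zero _ hu0), F_ord_pow hv _ hu0,
    hv.1 _ _ (pow_ne_zero _ hh0) (pow_ne_zero _ ht0), F_ord_pow hv _ hh0, F_ord_pow hv _ ht0, hvt]
  have h1 : v (f i) = v (z i) + r * v (z 0) - ∑ a ∈ A, v (L a) := by
    simp only [hf]
    rw [ord_div hv _ _ (mul_ne_zero (hzne i) (pow_ne_zero _ hz0)) hPne,
      hv.1 _ _ (hzne i) (pow_ne_zero _ hz0), F_ord_pow hv _ hz0, hP,
      ord_prod hv A _ fun a ha => hLne a (hA0 a ha)]
  have h2 : ∑ a ∈ A, v (L a) ≤ A.card * v h + M * N := by
    have h3 : ∀ a ∈ A, v (L a) ≤ v h + if a ∈ W then (N : ℤ) else 0 := by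
      intro a ha
      by_cases haW : a ∈ W
      · rw [if_pos haW]
        exact hN a ha
      · rw [if_neg haW]
        rw [hWmem a (hA0 a ha)] at haW
        omega
    refine (Finset.sum_le_sum h3).trans ?_
    rw [Finset.sum_add_distrib, Finset.sum_const, nsmul_eq_mul, ← Finset.sum_filter,
      Finset.sum_const, nsmul_eq_mul, ← hB]
    have h4 : (B.card : ℤ) * N ≤ M * N := by
      exact mul_le_mul_of_nonneg_right (by exact_mod_cast hBM) (by positivity)
    linarith
  have h3 : v h ≤ v (z i) := hi₀ i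
  have h4 : (r : ℤ) * v h ≤ r * v (z 0) := mul_le_mul_of_nonneg_left (hi₀ 0) (by positivity)
  have h5 : ((1 : ℤ) + r + m * (k + 1)) = A.card := by exact_mod_cast hr
  have h6 : (M : ℤ) * N ≤ m * s := by exact_mod_cast hsN
  rw [h1]
  push_cast
  rw [← h5] at h2
  nlinarith

end Pool.Agent.Campana
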