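import Pool.Agent.Lib_MP_1209e6_ag.Defs
import Pool.Agent.Lib_MP_1209e6_ag.Place

/-! The place given by an integer valued valuation. -/

set_option autoImplicit false

namespace Pool.Agent.Campana

theorem place_of_val {K : Type} [Field K] [Algebra ℂ K] (w : K → ℤ)
    (hmul : ∀ x y, x ≠ 0 → y ≠ 0 → w (x * y) = w x + w y)
    (hadd : ∀ x y, x ≠ 0 → y ≠ 0 → x + y ≠ 0 → min (w x) (w y) ≤ w (x + y))
    (hc : ∀ c : ℂ, c ≠ 0 → w (algebraMap ℂ K c) = 0) (hne : ∃ x, x ≠ 0 ∧ w x ≠ 0) :
    ∃ O : ValuationSubring K, IsPlace O ∧ ∃ (e : ℤ) (v : K → ℤ), 1 ≤ e ∧ IsOrd O v ∧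
      ∀ x, x ≠ 0 → w x = e * v x := by
  classical
  have h1 : w 1 = 0 := by
    have := hc 1 one_ne_zero
    rwa [map_one] at this
  have hinv : ∀ x, x ≠ 0 → w x⁻¹ = - w x := by
    intro x hx
    have h2 := hmul x x⁻¹ hx (inv_ne_zero hx)
    rw [mul_inv_cancel₀ hx, h1] at h2
    omega
  have hneg : ∀ x, x ≠ 0 → w (-x) = w x := by
    intro x hx
    have h2 := hc (-1) (by norm_num)
    have h3 := hmul (algebraMap ℂ K (-1)) x ((map_ne_zero _).2 (by norm_num)) hx
    rw [h2, map_neg, map_one, neg_one_mul, zero_add] at h3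
    exact h3
  have hpow : ∀ x, x ≠ 0 → ∀ n : ℕ, w (x ^ n) = n * w x := by
    intro x hx n
    induction n with
    | zero => simp [h1]
    | succ n ih =>
      rw [pow_succ, hmul _ _ (pow_ne_zero n hx) hx, ih]
      push_cast
      ring
  have hzpow : ∀ x, x ≠ 0 → ∀ n : ℤ, w (x ^ n) = n * w x := by
    intro x hx n
    rcases n with n | n
    · rw [Int.ofNat_eq_natCast, zpow_natCast, hpow x hx]
    · rw [zpow_negSucc, hinv _ (pow_ne_zero _ hx), hpow x hx]
      rw [Int.negSucc_eq]
      push_cast
      ring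
  -- the smallest positive value
  have hex : ∃ k : ℕ, 0 < k ∧ ∃ x, x ≠ 0 ∧ w x = k := by
    obtain ⟨x, hx, hwx⟩ := hne
    rcases lt_or_gt_of_ne hwx with h | h
    · refine ⟨(w x⁻¹).toNat, ?_, x⁻¹, inv_ne_zero hx, ?_⟩
      · rw [hinv x hx]
        omega
      · rw [hinv x hx]
        omega
    · refine ⟨(w x).toNat, by omega, x, hx, by omega⟩
  set e := Nat.find hex with he
  obtain ⟨hepos, t, ht0, hwt⟩ := Nat.find_spec hex
  rw [← he] at hepos hwt
  have hdvd : ∀ x, x ≠ 0 → (e : ℤ) ∣ w x := by
    intro x hx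
    by_contra hcon
    have h2 : 0 < w x % e := by
      have h3 := Int.emod_nonneg (w x) (show (e : ℤ) ≠ 0 by omega)
      rcases h3.lt_or_eq with h4 | h4
      · exact h4
      · exact absurd (Int.dvd_of_emod_eq_zero h4.symm) hcon
    have h3 : w x % e < e := Int.emod_lt_of_pos _ (by omega)
    refine Nat.find_min hex (m := (w x % e).toNat) (by rw [← he]; omega) ⟨by omega, 
      x * t ^ (-(w x / e)), mul_ne_zero hx (zpow_ne_zero _ ht0), ?_⟩
    rw [hmul _ _ hx (zpow_ne_zero _ ht0), hzpow t ht0, hwt]
    have h4 := Int.emod_add_mul_ediv (w x) e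
    rw [Int.toNat_of_nonneg h2.le]
    linarith [h4]
  let O : ValuationSubring K :=
    { carrier := {x | x ≠ 0 → 0 ≤ w x}
      mul_mem' := by
        intro x y hx hy hxy
        have hx0 : x ≠ 0 := left_ne_zero_of_mul hxy
        have hy0 : y ≠ 0 := right_ne_zero_of_mul hxy
        rw [hmul x y hx0 hy0]
        have := hx hx0
        have := hy hy0
        omega
      one_mem' := fun _ => h1.ge
      add_mem' := by
        intro x y hx hy hxy
        by_cases hx0 : x = 0
        · subst hx0
          rw [zero_add] at hxy ⊢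
          exact hy hxy
        by_cases hy0 : y = 0
        · subst hy0
          rw [add_zero] at hxy ⊢
          exact hx hxy
        have h2 := hadd x y hx0 hy0 hxy
        have h3 := hx hx0
        have h4 := hy hy0
        omega
      zero_mem' := fun h => absurd rfl h
      neg_mem' := by
        intro x hx hnx
        have hx0 : x ≠ 0 := fun h => hnx (by rw [h, neg_zero])
        rw [hneg x hx0]
        exact hx hx0
      mem_or_inv_mem' := by
        intro x
        by_cases hx0 : x = 0
        · left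
          intro h
          exact absurd hx0 h
        rcases le_total 0 (w x) with h | h
        · exact Or.inl fun _ => h
        · right
          intro _
          rw [hinv x hx0]
          omega }
  have hOmem : ∀ x, x ≠ 0 → (x ∈ O ↔ 0 ≤ w x) := by
    intro x hx
    constructor
    · intro h
      exact h hx
    · intro h _
      exact h
  have htO : t ∈ O := (hOmem t ht0).2 (by rw [hwt]; omega)
  have hdvr : IsDiscreteValuationRing O := by
    apply IsDiscreteValuationRing.ofHasUnitMulPowIrreducibleFactorization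
    have hunit : ∀ u : O, IsUnit u ↔ (u : K) ≠ 0 ∧ w u = 0 := by
      intro u
      constructor
      · intro hu
        obtain ⟨u', hu'⟩ := isUnit_iff_exists_inv.1 hu
        have h2 : (u : K) * u' = 1 := congrArg Subtype.val hu'
        have hu0 : (u : K) ≠ 0 := left_ne_zero_of_mul_eq_one h2
        have hu'0 : (u' : K) ≠ 0 := right_ne_zero_of_mul_eq_one h2
        refine ⟨hu0, ?_⟩
        have h3 := hmul _ _ hu0 hu'0
        rw [h2, h1] at h3
        have h4 := (hOmem _ hu0).1 u.2
        have h5 := (hOmem _ hu'0).1 u'.2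
        omega
      · rintro ⟨hu0, hwu⟩
        have h2 : (u : K)⁻¹ ∈ O := (hOmem _ (inv_ne_zero hu0)).2 (by rw [hinv _ hu0]; omega)
        exact isUnit_iff_exists_inv.2 ⟨⟨_, h2⟩, Subtype.ext (mul_inv_cancel₀ hu0)⟩
    refine ⟨⟨t, htO⟩, ?_, ?_⟩
    · refine ⟨?_, ?_⟩
      · intro hu
        have h2 := ((hunit _).1 hu).2
        change w t = 0 at h2
        omega
      · intro a b hab
        have h2 : t = (a : K) * b := congrArg Subtype.val hab
        have ha0 : (a : K) ≠ 0 := by
          intro h
          rw [h, zero_mul] at h2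
          exact ht0 h2
        have hb0 : (b : K) ≠ 0 := by
          intro h
          rw [h, mul_zero] at h2
          exact ht0 h2
        have h3 := hmul _ _ ha0 hb0
        rw [← h2, hwt] at h3
        have h4 := (hOmem _ ha0).1 a.2
        have h5 := (hOmem _ hb0).1 b.2
        obtain ⟨p, hp⟩ := hdvd _ ha0
        obtain ⟨q, hq⟩ := hdvd _ hb0
        rw [hunit, hunit]
        rw [hp, hq] at h3
        have he' : (0 : ℤ) < e := by omega
        have h6 : p + q = 1 := by nlinarith
        have h7 : 0 ≤ p := by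
          by_contra hcon
          push Not at hcon
          nlinarith
        have h8 : 0 ≤ q := by
          by_contra hcon
          push Not at hcon
          nlinarith
        have h9 : p = 0 ∨ q = 0 := by omega
        rcases h9 with h9 | h9
        · left
          exact ⟨ha0, by rw [hp, h9, mul_zero]⟩
        · right
          exact ⟨hb0, by rw [hq, h9, mul_zero]⟩
    · intro x hx
      have hx0 : (x : K) ≠ 0 := fun h => hx (Subtype.ext h)
      obtain ⟨p, hp⟩ := hdvd _ hx0
      have h2 := (hOmem _ hx0).1 x.2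
      have he' : (0 : ℤ) < e := by omega
      have h3 : 0 ≤ p := by
        by_contra hcon
        push Not at hcon
        nlinarith
      obtain ⟨n, rfl⟩ := Int.eq_ofNat_of_zero_le h3
      refine ⟨n, ?_⟩
      have htn : t ^ n ≠ 0 := pow_ne_zero n ht0
      have hy0 : (x : K) / t ^ n ≠ 0 := div_ne_zero hx0 htn
      have hwy : w ((x : K) / t ^ n) = 0 := by
        rw [div_eq_mul_inv, hmul _ _ hx0 (inv_ne_zero htn), hinv _ htn, hpow t ht0, hp, hwt]
        ring
      have hyO : (x : K) / t ^ n ∈ O := (hOmem _ hy0).2 hwy.ge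
      have hu : IsUnit (⟨_, hyO⟩ : O) := (hunit _).2 ⟨hy0, hwy⟩
      refine ⟨hu.unit, Subtype.ext ?_⟩
      change t ^ n * ((x : K) / t ^ n) = x
      field_simp
  refine ⟨O, ⟨?_, hdvr⟩, e, fun x => w x / e, by omega, ⟨?_, ?_, t, ht0, ?_⟩, ?_⟩
  · intro c
    by_cases hc0 : c = 0
    · rw [hc0, map_zero]
      exact O.zero_mem
    · rw [hOmem _ ((map_ne_zero _).2 hc0), hc c hc0]
  · intro x y hx hy
    show w (x * y) / (e : ℤ) = w x / e + w y / e
    rw [hmul x y hx hy, Int.add_ediv_of_dvd_left (hdvd x hx)]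
  · intro x hx
    rw [hOmem x hx]
    obtain ⟨p, hp⟩ := hdvd x hx
    show 0 ≤ w x ↔ 0 ≤ w x / (e : ℤ)
    rw [hp, Int.mul_ediv_cancel_left _ (show (e : ℤ) ≠ 0 by omega)]
    have he' : (0 : ℤ) < e := by omega
    constructor
    · intro h
      by_contra hcon
      push Not at hcon
      nlinarith
    · intro h
      positivity
  · show w t / (e : ℤ) = 1
    rw [hwt]
    exact Int.ediv_self (by omega)
  · intro x hx
    show w x = e * (w x / (e : ℤ))
    exact (Int.mul_ediv_cancel' (hdvd x hx)).symm

end Pool.Agent.Campana
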