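import Pool.Agent.Lib_MP_b9fedf_sq.EntDom

/-! Orders of meromorphic functions, as quotients of entire functions. -/

set_option autoImplicit false

namespace Pool.Agent.Campana

open Pool.Agent.SQ

/-- order of vanishing of an entire function at `z` -/
noncomputable def eord (z : ℂ) (f : Ent) : ℕ := analyticOrderNatAt f.1 z

lemma ent_analyticAt (f : Ent) (z : ℂ) : AnalyticAt ℂ f.1 z :=
  (Ent.diff f).analyticAt z

lemma ent_order_ne_top (f : Ent) (hf : f ≠ 0) (z : ℂ) : analyticOrderAt f.1 z ≠ ⊤ := by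
  intro h
  rw [analyticOrderAt_eq_top] at h
  apply hf
  have h5 : AnalyticOnNhd ℂ f.1 Set.univ :=
    (Ent.diff f).differentiableOn.analyticOnNhd isOpen_univ
  have h6 : AnalyticOnNhd ℂ (0 : ℂ → ℂ) Set.univ := analyticOnNhd_const
  exact Subtype.ext (h5.eq_of_eventuallyEq h6 h)

lemma eord_cast (z : ℂ) (f : Ent) (hf : f ≠ 0) : (eord z f : ℕ∞) = analyticOrderAt f.1 z :=
  Nat.cast_analyticOrderNatAt (ent_order_ne_top f hf z)

lemma eord_mul (z : ℂ) (f g : Ent) (hf : f ≠ 0) (hg : g ≠ 0) :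
    eord z (f * g) = eord z f + eord z g := by
  have h1 : analyticOrderAt (f * g : Ent).1 z = analyticOrderAt f.1 z + analyticOrderAt g.1 z := by
    have h2 := analyticOrderAt_smul (ent_analyticAt f z) (ent_analyticAt g z)
    exact h2
  rw [← eord_cast z _ (mul_ne_zero hf hg), ← eord_cast z f hf, ← eord_cast z g hg] at h1
  exact_mod_cast h1

lemma eord_add (z : ℂ) (f g : Ent) (hf : f ≠ 0) (hg : g ≠ 0) (hfg : f + g ≠ 0) :
    min (eord z f) (eord z g) ≤ eord z (f + g) := by
  have h1 : min (analyticOrderAt f.1 z) (analyticOrderAt g.1 z) ≤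
      analyticOrderAt (f + g : Ent).1 z := le_analyticOrderAt_add
  rw [← eord_cast z _ hfg, ← eord_cast z f hf, ← eord_cast z g hg] at h1
  rcases le_total (eord z f) (eord z g) with h | h
  · rw [min_eq_left (by exact_mod_cast h)] at h1
    rw [min_eq_left h]
    exact_mod_cast h1
  · rw [min_eq_right (by exact_mod_cast h)] at h1
    rw [min_eq_right h]
    exact_mod_cast h1

lemma eord_const (z : ℂ) (c : ℂ) (hc : c ≠ 0) : eord z (algebraMap ℂ Ent c) = 0 := by
  have h1 : analyticOrderAt (algebraMap ℂ Ent c).1 z = 0 := by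
    rw [analyticOrderAt_eq_zero]
    right
    exact hc
  unfold eord analyticOrderNatAt
  rw [h1]
  rfl

/-- meromorphic functions (quotients of entire functions) -/
abbrev Mer : Type := FractionRing Ent

/-- order of a meromorphic function at `z` -/
noncomputable def mord (z : ℂ) (x : Mer) : ℤ :=
  (eord z (IsLocalization.sec (nonZeroDivisors Ent) x).1 : ℤ) -
    eord z (IsLocalization.sec (nonZeroDivisors Ent) x).2.1

lemma mord_div (z : ℂ) (g h : Ent) (hg : g ≠ 0) (hh : h ≠ 0) :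
    mord z (algebraMap Ent Mer g / algebraMap Ent Mer h) = (eord z g : ℤ) - eord z h := by
  set x := algebraMap Ent Mer g / algebraMap Ent Mer h with hx
  have hh' : algebraMap Ent Mer h ≠ 0 := by
    rwa [Ne, FaithfulSMul.algebraMap_eq_zero_iff]
  have h1 := IsLocalization.sec_spec (nonZeroDivisors Ent) x
  set s := IsLocalization.sec (nonZeroDivisors Ent) x with hs
  have hs2 : (s.2 : Ent) ≠ 0 := nonZeroDivisors.ne_zero s.2.2
  have h2 : algebraMap Ent Mer (g * s.2) = algebraMap Ent Mer (s.1 * h) := by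
    rw [map_mul, map_mul, ← h1, hx]
    field_simp
  have h3 : g * s.2 = s.1 * h := IsFractionRing.injective Ent Mer h2
  have hs1 : s.1 ≠ 0 := by
    intro h0
    rw [h0, zero_mul] at h3
    exact (mul_ne_zero hg hs2) h3
  have h4 := congrArg (eord z) h3
  rw [eord_mul z _ _ hg hs2, eord_mul z _ _ hs1 hh] at h4
  show (eord z s.1 : ℤ) - eord z s.2.1 = _
  have h5 : (eord z g : ℤ) + eord z (s.2 : Ent) = eord z s.1 + eord z h := by exact_mod_cast h4
  linarith

lemma mer_exists (x : Mer) (hx : x ≠ 0) : ∃ g h : Ent, g ≠ 0 ∧ h ≠ 0 ∧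
    x = algebraMap Ent Mer g / algebraMap Ent Mer h := by
  obtain ⟨g, h, hh, rfl⟩ := IsFractionRing.div_surjective (A := Ent) x
  refine ⟨g, h, ?_, nonZeroDivisors.ne_zero hh, rfl⟩
  rintro rfl
  simp at hx

lemma mord_mul (z : ℂ) (x y : Mer) (hx : x ≠ 0) (hy : y ≠ 0) :
    mord z (x * y) = mord z x + mord z y := by
  obtain ⟨g, h, hg, hh, rfl⟩ := mer_exists x hx
  obtain ⟨g', h', hg', hh', rfl⟩ := mer_exists y hy
  rw [div_mul_div_comm, ← map_mul, ← map_mul, mord_div z _ _ (mul_ne_zero hg hg')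
    (mul_ne_zero hh hh'), mord_div z _ _ hg hh, mord_div z _ _ hg' hh', eord_mul z _ _ hg hg',
    eord_mul z _ _ hh hh']
  push_cast
  ring

lemma mord_add (z : ℂ) (x y : Mer) (hx : x ≠ 0) (hy : y ≠ 0) (hxy : x + y ≠ 0) :
    min (mord z x) (mord z y) ≤ mord z (x + y) := by
  obtain ⟨g, h, hg, hh, rfl⟩ := mer_exists x hx
  obtain ⟨g', h', hg', hh', rfl⟩ := mer_exists y hy
  have h1 : algebraMap Ent Mer h ≠ 0 := by rwa [Ne, FaithfulSMul.algebraMap_eq_zero_iff]
  have h1' : algebraMap Ent Mer h' ≠ 0 := by rwa [Ne, FaithfulSMul.algebraMap_eq_zero_iff]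
  have h2 : algebraMap Ent Mer g / algebraMap Ent Mer h + algebraMap Ent Mer g' /
      algebraMap Ent Mer h' = algebraMap Ent Mer (g * h' + g' * h) /
      algebraMap Ent Mer (h * h') := by
    rw [map_add, map_mul, map_mul, map_mul]
    field_simp
  rw [h2] at hxy ⊢
  have h3 : g * h' + g' * h ≠ 0 := by
    intro h0
    rw [h0, map_zero, zero_div] at hxy
    exact hxy rfl
  rw [mord_div z _ _ h3 (mul_ne_zero hh hh'), mord_div z _ _ hg hh, mord_div z _ _ hg' hh']
  have h4 := eord_add z _ _ (mul_ne_zero hg hh') (mul_ne_zero hg' hh) h3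
  rw [eord_mul z _ _ hg hh', eord_mul z _ _ hg' hh] at h4
  rw [eord_mul z _ _ hh hh']
  push_cast
  omega

lemma mord_const (z : ℂ) (c : ℂ) (hc : c ≠ 0) : mord z (algebraMap ℂ Mer c) = 0 := by
  have h1 : algebraMap ℂ Mer c = algebraMap Ent Mer (algebraMap ℂ Ent c) /
      algebraMap Ent Mer 1 := by
    rw [map_one, div_one]
    rfl
  have h2 : algebraMap ℂ Ent c ≠ 0 := by
    rw [Ent.ne_zero_iff]
    exact ⟨0, hc⟩
  rw [h1, mord_div z _ _ h2 one_ne_zero, eord_const z c hc]
  have h3 : eord z (1 : Ent) = 0 := by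
    have := eord_const z 1 one_ne_zero
    rwa [map_one] at this
  rw [h3]
  norm_num

/-- a nonconstant meromorphic function minus a suitable constant has nonzero order -/
lemma exists_mord_ne (z : ℂ) (x : Mer) (hx : ∀ c : ℂ, x ≠ algebraMap ℂ Mer c) :
    ∃ c : ℂ, x - algebraMap ℂ Mer c ≠ 0 ∧ mord z (x - algebraMap ℂ Mer c) ≠ 0 := by
  by_cases h0 : mord z x = 0
  swap
  · refine ⟨0, sub_ne_zero.2 (hx 0), ?_⟩
    rwa [map_zero, sub_zero]
  have hx0 : x ≠ 0 := by
    have := hx 0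
    rwa [map_zero] at this
  obtain ⟨g, h, hg, hh, rfl⟩ := mer_exists x hx0
  rw [mord_div z _ _ hg hh] at h0
  obtain ⟨g₁, hg₁, hg₁z, hgg⟩ := (ent_analyticAt g z).analyticOrderAt_ne_top.1
    (ent_order_ne_top g hg z)
  obtain ⟨h₁, hh₁, hh₁z, hhh⟩ := (ent_analyticAt h z).analyticOrderAt_ne_top.1
    (ent_order_ne_top h hh z)
  have hk : analyticOrderNatAt g.1 z = analyticOrderNatAt h.1 z := by
    have : eord z g = eord z h := by omega
    exact this
  set k := analyticOrderNatAt h.1 z with hkdef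
  rw [hk] at hgg
  set c := g₁ z / h₁ z with hc
  have hne := hx c
  have h1 : algebraMap Ent Mer h ≠ 0 := by rwa [Ne, FaithfulSMul.algebraMap_eq_zero_iff]
  have h2 : algebraMap Ent Mer g / algebraMap Ent Mer h - algebraMap ℂ Mer c =
      algebraMap Ent Mer (g - algebraMap ℂ Ent c * h) / algebraMap Ent Mer h := by
    rw [map_sub, map_mul]
    have h3 : algebraMap ℂ Mer c = algebraMap Ent Mer (algebraMap ℂ Ent c) := rfl
    rw [h3]
    field_simp
  have h3 : g - algebraMap ℂ Ent c * h ≠ 0 := by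
    intro h4
    rw [h4, map_zero, zero_div, sub_eq_zero] at h2
    exact hne h2
  refine ⟨c, sub_ne_zero.2 hne, ?_⟩
  rw [h2, mord_div z _ _ h3 hh]
  have h4 : ((k + 1 : ℕ) : ℕ∞) ≤ analyticOrderAt (g - algebraMap ℂ Ent c * h).1 z := by
    have h5 : analyticOrderAt (fun ζ => g₁ ζ - c * h₁ ζ) z ≠ 0 := by
      rw [analyticOrderAt_ne_zero]
      refine ⟨hg₁.sub (analyticAt_const.mul hh₁), ?_⟩
      rw [hc]
      field_simp
      ring
    have h6 : analyticOrderAt (g - algebraMap ℂ Ent c * h).1 z =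
        analyticOrderAt (fun ζ => (ζ - z) ^ k • (g₁ ζ - c * h₁ ζ)) z := by
      apply analyticOrderAt_congr
      filter_upwards [hgg, hhh] with ζ hζ hζ'
      show g.1 ζ - c * h.1 ζ = (ζ - z) ^ k • (g₁ ζ - c * h₁ ζ)
      rw [hζ, hζ', smul_eq_mul, smul_eq_mul, smul_eq_mul]
      ring
    rw [h6]
    have h7 : AnalyticAt ℂ (fun ζ : ℂ => (ζ - z) ^ k) z := by fun_prop
    have h8 := analyticOrderAt_smul h7 (hg₁.sub (analyticAt_const.mul hh₁ : AnalyticAt ℂ (fun ζ => c * h₁ ζ) z))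
    have h9 : analyticOrderAt (fun ζ : ℂ => (ζ - z) ^ k) z = k := by
      rw [h7.analyticOrderAt_eq_natCast]
      exact ⟨fun _ => 1, analyticAt_const, one_ne_zero, Filter.Eventually.of_forall fun ζ => by simp⟩
    have h10 : analyticOrderAt (fun ζ => (ζ - z) ^ k • (g₁ ζ - c * h₁ ζ)) z =
        k + analyticOrderAt (fun ζ => g₁ ζ - c * h₁ ζ) z := by
      rw [← h9]
      exact h8
    rw [h10]
    push_cast
    gcongr
    exact ENat.one_le_iff_ne_zero.2 h5
  rw [← eord_cast z _ h3] at h4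
  have h5 : k + 1 ≤ eord z (g - algebraMap ℂ Ent c * h) := by exact_mod_cast h4
  have h6 : eord z h = k := rfl
  rw [h6]
  omega

end Pool.Agent.Campana
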