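import Pool.Agent.Lib_MP_1209e6_ag.Embed
import Pool.Agent.Lib_MP_1209e6_mh.Mer

/-! Pull back of rational functions to a Zariski dense entire curve. -/

set_option autoImplicit false

namespace Pool.Agent.Campana

open MvPolynomial Pool.Agent.SQ

theorem exists_lift_field {A K M : Type} [CommRing A] [Algebra ℂ A] [Field K] [Algebra ℂ K]
    [Field M] [Algebra ℂ M] (e : A →ₐ[ℂ] K) (g : A →ₐ[ℂ] M) (hker : ∀ a, e a = 0 ↔ g a = 0)
    (hsurj : ∀ x : K, ∃ a b, x = e a / e b) : ∃ ψ : K →ₐ[ℂ] M, ∀ a, ψ (e a) = g a := by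
  have hfr : IsFractionRing e.range K := by
    apply IsFractionRing.of_field
    intro z
    obtain ⟨a, b, hab⟩ := hsurj z
    exact ⟨⟨e a, ⟨a, rfl⟩⟩, ⟨e b, ⟨b, rfl⟩⟩, hab⟩
  have hs : Function.Surjective e.rangeRestrict := e.rangeRestrict_surjective
  have hle : RingHom.ker e.rangeRestrict.toRingHom ≤ RingHom.ker g.toRingHom := by
    intro a ha
    rw [RingHom.mem_ker] at ha ⊢
    have h1 : e a = 0 := congrArg Subtype.val ha
    exact (hker a).1 h1
  let g' : e.range →ₐ[ℂ] M := AlgHom.liftOfSurjective e.rangeRestrict hs g hle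
  have hg' : ∀ a, g' (e.rangeRestrict a) = g a := fun a =>
    AlgHom.liftOfSurjective_apply e.rangeRestrict hs g hle a
  have hinj : Function.Injective g' := by
    rw [injective_iff_map_eq_zero]
    intro x hx
    obtain ⟨a, rfl⟩ := hs x
    rw [hg'] at hx
    exact Subtype.ext ((hker a).2 hx)
  refine ⟨IsFractionRing.liftAlgHom hinj, fun a => ?_⟩
  have h1 : IsFractionRing.liftAlgHom hinj (algebraMap e.range K (e.rangeRestrict a)) =
      g' (e.rangeRestrict a) := IsFractionRing.lift_algebraMap hinj _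
  rw [hg'] at h1
  exact h1

/-- homogenization -/
theorem exists_homog {n : ℕ} (j₀ : Fin (n + 1)) (q : MvPolynomial (Fin (n + 1)) ℂ) :
    ∃ (D : ℕ) (q' : MvPolynomial (Fin (n + 1)) ℂ), q'.IsHomogeneous D ∧
      ∀ (L : Type) [Field L] [Algebra ℂ L] (r : Fin (n + 1) → L), r j₀ = 1 →
        aeval r q' = aeval r q := by
  refine ⟨q.totalDegree, ∑ d ∈ Finset.range (q.totalDegree + 1),
    homogeneousComponent d q * X j₀ ^ (q.totalDegree - d), ?_, ?_⟩
  · apply IsHomogeneous.sum
    intro d hd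
    have h1 : d + (q.totalDegree - d) = q.totalDegree := by
      have := Finset.mem_range.1 hd
      omega
    have h2 := (homogeneousComponent_isHomogeneous d q).mul
      ((isHomogeneous_X ℂ j₀).pow (q.totalDegree - d))
    rwa [one_mul, h1] at h2
  · intro L _ _ r hr
    rw [map_sum]
    conv_rhs => rw [← sum_homogeneousComponent q, map_sum]
    refine Finset.sum_congr rfl fun d _ => ?_
    rw [map_mul, map_pow, aeval_X, hr, one_pow, mul_one]

/-- the coordinates of an entire curve as entire functions -/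
def cf {n : ℕ} (f : ℂ → (Fin (n + 1) → ℂ)) (hf : Differentiable ℂ f) (i : Fin (n + 1)) : Ent :=
  ⟨fun z => f z i, differentiable_pi.1 hf i⟩

lemma aeval_cf {n : ℕ} (f : ℂ → (Fin (n + 1) → ℂ)) (hf : Differentiable ℂ f)
    (q : MvPolynomial (Fin (n + 1)) ℂ) (z : ℂ) :
    (aeval (cf f hf) q).1 z = eval (f z) q := by
  let ev : Ent →ₐ[ℂ] ℂ := (Pi.evalAlgHom ℂ (fun _ : ℂ => ℂ) z).comp Ent.val
  have h1 := comp_aeval_apply (R := ℂ) (f := cf f hf) ev q
  have h2 : ev (aeval (cf f hf) q) = (aeval (cf f hf) q).1 z := rfl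
  rw [h2] at h1
  rw [h1, ← aeval_eq_eval]
  rfl

theorem exists_pullback {n : ℕ} (P : Ideal (MvPolynomial (Fin (n + 1)) ℂ)) [P.IsPrime]
    (j₀ : Fin (n + 1)) (hj₀ : X j₀ ∉ P) (f : ℂ → (Fin (n + 1) → ℂ)) (hf : Differentiable ℂ f)
    (hP : ∀ q ∈ P, ∀ z, eval (f z) q = 0)
    (hdense : ∀ (q : MvPolynomial (Fin (n + 1)) ℂ) (D : ℕ), q.IsHomogeneous D →
      (∀ z, eval (f z) q = 0) → q ∈ P) :
    ∃ ψ : FunField P →ₐ[ℂ] Mer, ∀ i, ψ (ratio P i j₀) =
      algebraMap Ent Mer (cf f hf i) / algebraMap Ent Mer (cf f hf j₀) := by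
  have hj : cf f hf j₀ ≠ 0 := by
    intro h
    apply hj₀
    refine hdense _ 1 (isHomogeneous_X ℂ j₀) fun z => ?_
    rw [eval_X]
    exact congrFun (congrArg Subtype.val h) z
  have hj' : algebraMap Ent Mer (cf f hf j₀) ≠ 0 := by
    rwa [Ne, FaithfulSMul.algebraMap_eq_zero_iff]
  set s : Fin (n + 1) → Mer := fun i =>
    algebraMap Ent Mer (cf f hf i) / algebraMap Ent Mer (cf f hf j₀) with hs
  have hrr : ratio P j₀ j₀ = 1 := by
    apply FunField.val_injective P
    rw [val_ratio, map_one]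
    exact div_self fun h => hj₀ ((coord_eq_zero_iff P j₀).1 h)
  have hker : ∀ q : MvPolynomial (Fin (n + 1)) ℂ,
      aeval (fun i => ratio P i j₀) q = 0 ↔ aeval s q = 0 := by
    intro q
    obtain ⟨D, q', hq', hqq⟩ := exists_homog j₀ q
    rw [← hqq (FunField P) (fun i => ratio P i j₀) hrr, ← hqq Mer s (div_self hj'), ← eval_ratio P j₀ hj₀ q' D hq']
    have h1 : aeval s q' = (algebraMap Ent Mer (cf f hf j₀))⁻¹ ^ D *
        algebraMap Ent Mer (aeval (cf f hf) q') := by
      have h2 : s = fun i => (algebraMap Ent Mer (cf f hf j₀))⁻¹ *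
          algebraMap Ent Mer (cf f hf i) := by
        ext i
        rw [hs]
        ring
      rw [h2, aeval_mul_hom _ _ _ _ hq']
      congr 1
      have h3 := comp_aeval_apply (R := ℂ) (f := cf f hf) (IsScalarTower.toAlgHom ℂ Ent Mer) q'
      exact h3.symm
    rw [h1, mul_eq_zero, or_iff_right (pow_ne_zero _ (inv_ne_zero hj')),
      FaithfulSMul.algebraMap_eq_zero_iff]
    constructor
    · intro h
      apply Ent.ext'
      intro z
      rw [aeval_cf]
      exact hP q' h z
    · intro h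
      refine hdense q' D hq' fun z => ?_
      rw [← aeval_cf f hf, h]
      rfl
  have hsurj : ∀ x : FunField P, ∃ a b : MvPolynomial (Fin (n + 1)) ℂ,
      x = aeval (fun i => ratio P i j₀) a / aeval (fun i => ratio P i j₀) b := by
    intro x
    have h1 : x ∈ IntermediateField.adjoin ℂ (Set.range fun i => ratio P i j₀) := by
      have h2 := adjoin_ratio P j₀ hj₀
      have h3 : x ∈ IntermediateField.adjoin ℂ
          (Set.range fun i : {i // X (R := ℂ) i ∉ P} => ratio P i.1 j₀) := by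
        rw [h2]
        trivial
      refine IntermediateField.adjoin.mono _ _ _ ?_ h3
      rintro _ ⟨i, rfl⟩
      exact ⟨i.1, rfl⟩
    exact (IntermediateField.mem_adjoin_range_iff ℂ _ x).1 h1
  obtain ⟨ψ, hψ⟩ := exists_lift_field (aeval fun i => ratio P i j₀) (aeval s) hker hsurj
  refine ⟨ψ, fun i => ?_⟩
  have h1 := hψ (X i)
  rwa [aeval_X, aeval_X] at h1

end Pool.Agent.Campana
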