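import Pool.Agent.Lib_MP_1209e6_mh.Indep
import Pool.Agent.Lib_MP_1209e6_mh.PlaceOf
import Pool.Agent.Lib_MP_1209e6_mh.Pull

/-! Orders of linear forms along an entire curve, in terms of places. -/

set_option autoImplicit false

namespace Pool.Agent.Campana

open MvPolynomial Pool.Agent.SQ

/-- a homogeneous polynomial vanishing at homogeneous coordinates with algebraically independent
ratios is zero -/
theorem hom_eq_zero {K : Type} [Field K] [Algebra ℂ K] {n : ℕ} (y : Fin (n + 1) → K)
    (hy0 : y 0 ≠ 0) (hy : AlgebraicIndependent ℂ (fun i : Fin n => y i.succ / y 0))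
    (D : ℕ) (Q : MvPolynomial (Fin (n + 1)) ℂ) (hQ : Q.IsHomogeneous D) (h : aeval y Q = 0) :
    Q = 0 := by
  -- the dehomogenization
  set q : MvPolynomial (Fin n) ℂ :=
    aeval (Fin.cases 1 (fun i => X i) : Fin (n + 1) → MvPolynomial (Fin n) ℂ) Q with hq
  have h1 : aeval (fun i : Fin n => y i.succ / y 0) q = 0 := by
    rw [hq]
    have h2 := comp_aeval_apply (R := ℂ)
      (f := (Fin.cases 1 (fun i => X i) : Fin (n + 1) → MvPolynomial (Fin n) ℂ))
      (aeval (fun i : Fin n => y i.succ / y 0)) Q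
    rw [h2]
    have h3 : (fun i => (aeval fun i : Fin n => y i.succ / y 0)
        ((Fin.cases 1 (fun i => X i) : Fin (n + 1) → MvPolynomial (Fin n) ℂ) i)) =
        fun i => (y 0)⁻¹ * y i := by
      ext i
      refine Fin.cases ?_ (fun i => ?_) i
      · show aeval _ (1 : MvPolynomial (Fin n) ℂ) = _
        rw [map_one, inv_mul_cancel₀ hy0]
      · show aeval _ (X i : MvPolynomial (Fin n) ℂ) = _
        rw [aeval_X, div_eq_mul_inv, mul_comm]
    rw [h3, aeval_mul_hom _ _ _ _ hQ, h, mul_zero]
  have h2 : q = 0 := (algebraicIndependent_iff.1 hy) q h1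
  -- `Q` vanishes where the zeroth coordinate does not
  have h3 : X 0 * Q = 0 := by
    apply MvPolynomial.funext
    intro x
    rw [map_mul, eval_X, map_zero]
    by_cases hx : x 0 = 0
    · rw [hx, zero_mul]
    · have h4 : eval x Q = 0 := by
        have h5 : x = fun i => x 0 * ((x 0)⁻¹ * x i) := by
          ext i
          field_simp
        have h6 : eval x Q = x 0 ^ D * eval (fun i => (x 0)⁻¹ * x i) Q := by
          conv_lhs => rw [h5]
          exact aeval_mul_hom (L := ℂ) _ _ _ _ hQ
        have h7 : eval (fun i => (x 0)⁻¹ * x i) Q = eval (fun i : Fin n => (x 0)⁻¹ * x i.succ) q := by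
          rw [hq]
          have h8 := comp_aeval_apply (R := ℂ)
            (f := (Fin.cases 1 (fun i => X i) : Fin (n + 1) → MvPolynomial (Fin n) ℂ))
            (aeval (fun i : Fin n => (x 0)⁻¹ * x i.succ)) Q
          have h9 : (fun i => (aeval fun i : Fin n => (x 0)⁻¹ * x i.succ)
              ((Fin.cases 1 (fun i => X i) : Fin (n + 1) → MvPolynomial (Fin n) ℂ) i)) =
              fun i => (x 0)⁻¹ * x i := by
            ext i
            refine Fin.cases ?_ (fun i => ?_) i
            · show aeval _ (1 : MvPolynomial (Fin n) ℂ) = _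
              rw [map_one, inv_mul_cancel₀ hx]
            · show aeval _ (X i : MvPolynomial (Fin n) ℂ) = _
              rw [aeval_X]
          rw [h9] at h8
          exact h8.symm
        rw [h6, h7, h2, map_zero, mul_zero]
      rw [h4, mul_zero]
  exact (mul_eq_zero.1 h3).resolve_left (X_ne_zero 0)

theorem curve_orders {K : Type} [Field K] [Algebra ℂ K] (ψ : K →ₐ[ℂ] Mer) {n : ℕ} (hn : 1 ≤ n)
    (y : Fin (n + 1) → K) (hy0 : y 0 ≠ 0)
    (hy : AlgebraicIndependent ℂ (fun i : Fin n => y i.succ / y 0)) :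
    ∃ F : Fin (n + 1) → Ent,
      (∀ (D : ℕ) (Q : MvPolynomial (Fin (n + 1)) ℂ), Q.IsHomogeneous D → aeval F Q = 0 → Q = 0) ∧
      ∀ z : ℂ, ∃ O : ValuationSubring K, IsPlace O ∧ ∃ (e : ℤ) (v : K → ℤ) (c : ℤ), 1 ≤ e ∧
        IsOrd O v ∧ ∀ (D : ℕ) (Q : MvPolynomial (Fin (n + 1)) ℂ), Q.IsHomogeneous D → Q ≠ 0 →
          (eord z (aeval F Q) : ℤ) = e * v (aeval y Q) + D * c := by
  classical
  obtain ⟨H, hH⟩ := IsLocalization.exist_integer_multiples_of_finite (nonZeroDivisors Ent)
    (fun i => ψ (y i))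
  choose F hF using hH
  have hH0 : (H : Ent) ≠ 0 := nonZeroDivisors.ne_zero H.2
  have hH' : algebraMap Ent Mer H ≠ 0 := by rwa [Ne, FaithfulSMul.algebraMap_eq_zero_iff]
  have hF' : ∀ i, algebraMap Ent Mer (F i) = algebraMap Ent Mer H * ψ (y i) := by
    intro i
    rw [hF i, Algebra.smul_def]
  have hFQ : ∀ (D : ℕ) (Q : MvPolynomial (Fin (n + 1)) ℂ), Q.IsHomogeneous D →
      algebraMap Ent Mer (aeval F Q) = algebraMap Ent Mer H ^ D * ψ (aeval y Q) := by
    intro D Q hQ
    have h1 := comp_aeval_apply (R := ℂ) (f := F) (IsScalarTower.toAlgHom ℂ Ent Mer) Q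
    have h2 : (fun i => (IsScalarTower.toAlgHom ℂ Ent Mer) (F i)) =
        fun i => algebraMap Ent Mer H * ψ (y i) := by
      ext i
      exact hF' i
    rw [h2, aeval_mul_hom _ _ _ _ hQ] at h1
    have h4 := comp_aeval_apply (R := ℂ) (f := y) ψ Q
    rw [h4]
    exact h1
  -- injectivity
  have hψ : ∀ x : K, x ≠ 0 → ψ x ≠ 0 := fun x hx => (map_ne_zero_iff ψ ψ.toRingHom.injective).2 hx
  have hyM : ∀ (D : ℕ) (Q : MvPolynomial (Fin (n + 1)) ℂ), Q.IsHomogeneous D →
      aeval F Q = 0 → Q = 0 := by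
    intro D Q hQ hQF
    refine hom_eq_zero y hy0 hy D Q hQ ?_
    have h1 := hFQ D Q hQ
    rw [hQF, map_zero] at h1
    have h3 := (mul_eq_zero.1 h1.symm).resolve_left (pow_ne_zero _ hH')
    by_contra hne
    exact hψ _ hne h3
  refine ⟨F, hyM, fun z => ?_⟩
  -- the valuation
  obtain ⟨O, hO, e, v, he, hv, hev⟩ := place_of_val (K := K) (fun x => mord z (ψ x))
    (by
      intro x x' hx hx'
      simp only [map_mul]
      exact mord_mul z _ _ (hψ x hx) (hψ x' hx'))
    (by
      intro x x' hx hx' hxx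
      simp only [map_add]
      refine mord_add z _ _ (hψ x hx) (hψ x' hx') ?_
      rw [← map_add]
      exact hψ _ hxx)
    (by
      intro c hc
      simp only [AlgHom.commutes]
      exact mord_const z c hc)
    (by
      obtain ⟨m, rfl⟩ : ∃ m, n = m + 1 := ⟨n - 1, by omega⟩
      set x := y (Fin.succ 0) / y 0 with hx
      have htr : Transcendental ℂ x := hy.transcendental 0
      have hxc : ∀ c : ℂ, ψ x ≠ algebraMap ℂ Mer c := by
        intro c h
        rw [← AlgHom.commutes ψ c] at h
        have h1 : x = algebraMap ℂ K c := ψ.toRingHom.injective h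
        apply htr
        rw [h1]
        exact isAlgebraic_algebraMap c
      obtain ⟨c, hc, hc'⟩ := exists_mord_ne z (ψ x) hxc
      refine ⟨x - algebraMap ℂ K c, ?_, ?_⟩
      · intro h0
        apply hc
        rw [← AlgHom.commutes ψ c, ← map_sub, h0, map_zero]
      · simp only [map_sub, AlgHom.commutes]
        exact hc')
  refine ⟨O, hO, e, v, mord z (algebraMap Ent Mer H), he, hv, fun D Q hQ hQ0 => ?_⟩
  have hQy : aeval y Q ≠ 0 := fun h => hQ0 (hom_eq_zero y hy0 hy D Q hQ h)
  have hQF : aeval F Q ≠ 0 := fun h => hQ0 (hyM D Q hQ h)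
  have h3 : mord z (algebraMap Ent Mer (aeval F Q)) = eord z (aeval F Q) := by
    have h4 := mord_div z (aeval F Q) 1 hQF one_ne_zero
    have h5 : eord z (1 : Ent) = 0 := by
      have := eord_const z 1 one_ne_zero
      rwa [map_one] at this
    rw [map_one, div_one, h5] at h4
    simpa using h4
  have hpow : ∀ D : ℕ, mord z (algebraMap Ent Mer H ^ D) = D * mord z (algebraMap Ent Mer H) := by
    intro D
    induction D with
    | zero =>
      have := mord_const z 1 one_ne_zero
      rw [map_one] at this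
      simp [this]
    | succ D ih =>
      rw [pow_succ, mord_mul z _ _ (pow_ne_zero _ hH') hH', ih]
      push_cast
      ring
  rw [← h3, hFQ D Q hQ, mord_mul z _ _ (pow_ne_zero _ hH') (hψ _ hQy), hpow, ← hev _ hQy]
  ring

end Pool.Agent.Campana
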