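import Pool.Agent.Lib_MP_1209e6_mh.Core
import Pool.Agent.Lib_MP_1209e6_mh.Sqf
import Pool.Agent.Lib_MP_1209e6_mh.Orders

/-! Fields over projective space which are multiple along many hypersurfaces are not special. -/

set_option autoImplicit false

namespace Pool.Agent.Campana

open MvPolynomial

/-- few of the forms vanish at the centre of a place -/
lemma card_vanishing {K : Type} [Field K] [Algebra ℂ K] {O : ValuationSubring K}
    (hO : IsPlace O) {v : K → ℤ} (hv : IsOrd O v) {n M : ℕ} (x : Fin (n + 1) → K)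
    (hx : ∀ j, x j ∈ O) (i₀ : Fin (n + 1)) (hi₀ : x i₀ = 1)
    (D : Finset (MvPolynomial (Fin (n + 1)) ℂ))
    (hD : ∀ P ∈ D, aeval x P ≠ 0)
    (hpt : ∀ ξ : Fin (n + 1) → ℂ, ξ ≠ 0 → ∀ A ⊆ D, (∀ P ∈ A, eval ξ P = 0) → A.card ≤ M) :
    ∀ B ⊆ D, (∀ P ∈ B, 1 ≤ v (aeval x P)) → B.card ≤ M := by
  intro B hB hBv
  obtain ⟨t, ht0, hvt⟩ := hv.2.2
  by_contra hcon
  -- every common zero lies on a coordinate hyperplane
  have h1 : X i₀ ∈ vanishingIdeal ℂ (zeroLocus ℂ (Ideal.span (B : Set (MvPolynomial (Fin (n + 1)) ℂ)))) := by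
    rw [mem_vanishingIdeal_iff]
    intro ξ hξ
    rw [aeval_X]
    by_contra hne
    apply hcon
    refine hpt ξ (fun h0 => hne (by rw [h0]; rfl)) B hB fun P hP => ?_
    exact hξ P (Ideal.subset_span hP)
  rw [vanishingIdeal_zeroLocus_eq_radical] at h1
  obtain ⟨N, hN⟩ := h1
  -- evaluation at the centre
  have h2 : ∀ Q ∈ Ideal.span (B : Set (MvPolynomial (Fin (n + 1)) ℂ)), aeval x Q / t ∈ O := by
    intro Q hQ
    induction hQ using Submodule.span_induction with
    | mem P hP =>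
      have hPx := hD P (hB hP)
      rw [hv.2.1 _ (div_ne_zero hPx ht0), ord_div hv _ _ hPx ht0, hvt]
      have := hBv P hP
      omega
    | zero =>
      rw [map_zero, zero_div]
      exact O.zero_mem
    | add a b _ _ ha hb =>
      rw [map_add, add_div]
      exact O.add_mem _ _ ha hb
    | smul a b _ hb =>
      rw [smul_eq_mul, map_mul, mul_div_assoc]
      exact O.mul_mem _ _ (aeval_mem hO x hx a) hb
  have h3 := h2 _ hN
  rw [map_pow, aeval_X, hi₀, one_pow, hv.2.1 _ (div_ne_zero one_ne_zero ht0),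
    ord_div hv _ _ one_ne_zero ht0, F_ord_one hv, hvt] at h3
  omega

theorem not_special_forms {K : Type} [Field K] [Algebra ℂ K] {n e M : ℕ} (hn : 1 ≤ n)
    (he : 1 ≤ e) (hM : 1 ≤ M) (y : Fin (n + 1) → K) (hy0 : y 0 ≠ 0)
    (hy : AlgebraicIndependent ℂ (fun i : Fin n => y i.succ / y 0))
    (D : Finset (MvPolynomial (Fin (n + 1)) ℂ))
    (hD : ∀ P ∈ D, P.IsHomogeneous e ∧ Squarefree P) (hcard : 2 * (n + 1) * M < D.card)
    (hpt : ∀ x : Fin (n + 1) → ℂ, x ≠ 0 → ∀ A ⊆ D, (∀ P ∈ A, eval x P = 0) → A.card ≤ M)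
    (hT : ∀ O : ValuationSubring K, IsPlace O → ∀ v : K → ℤ, IsOrd O v →
      ∀ P ∈ D, ∀ P' ∈ D, v (aeval y P) = v (aeval y P') + 1 →
        ∀ A ⊆ D, (∀ Q ∈ A, v (aeval y P') ≤ v (aeval y Q)) → A.card ≤ M) : ¬ SpecialField K := by
  classical
  intro hS
  have hnd := hom_eq_zero y hy0 hy
  have hyne : ∀ l, y l ≠ 0 := by
    intro l h0
    have h1 := hnd 1 (X l) (isHomogeneous_X ℂ l) (by rw [aeval_X]; exact h0)
    exact X_ne_zero l h1
  have hPne : ∀ P ∈ D, aeval y P ≠ 0 := fun P hP h0 => (hD P hP).2.ne_zero (hnd e P (hD P hP).1 h0)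
  -- derivations
  have hex : ∀ i : Fin n, ∃ E : Derivation ℂ K K, ∀ j : Fin n,
      E (y j.succ / y 0) = if j = i then 1 else 0 :=
    fun i => exists_derivation (fun i : Fin n => y i.succ / y 0) hy (fun j => if j = i then 1 else 0)
  choose D₀ hD₀ using hex
  have hω : wr y ≠ 0 := by
    intro h0
    have h1 := wr_ne_zero y hy0 D₀ hD₀
    rw [h0] at h1
    exact pow_ne_zero (n + 1) hy0 h1.symm
  set m := 2 * M * e with hm
  have hm1 : 1 ≤ m := by
    rw [hm]
    exact Nat.mul_pos (Nat.mul_pos (by norm_num) hM) he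
  obtain ⟨r, hr⟩ : ∃ r, 1 + r + m * (n + 1) = e * D.card := by
    refine ⟨e * D.card - 1 - m * (n + 1), ?_⟩
    have h1 : e * (2 * (n + 1) * M + 1) ≤ e * D.card := Nat.mul_le_mul_left e hcard
    have h2 : e * (2 * (n + 1) * M + 1) = m * (n + 1) + e := by rw [hm]; ring
    omega
  set P := ∏ Q ∈ D, aeval y Q with hP
  have hPne' : P ≠ 0 := Finset.prod_ne_zero_iff.2 hPne
  set f : Fin (n + 1) → K := fun i => y i * y 0 ^ r / P with hf
  have hfne : ∀ i, f i ≠ 0 := fun i => div_ne_zero (mul_ne_zero (hyne i) (pow_ne_zero _ hy0)) hPne'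
  refine hS n hn (wr y) hω m hm1 (f 0) (hfne 0) (fun i => f i.succ) ?_ ?_
  swap
  · have h1 : (fun i : Fin n => f i.succ / f 0) = fun i : Fin n => y i.succ / y 0 := by
      ext i
      simp only [hf]
      have h2 : y 0 ^ r ≠ 0 := pow_ne_zero _ hy0
      field_simp
    rw [h1]
    exact hy
  intro O hO
  suffices hreg : ∀ i, RegularAt O (wr y) m (f i) from ⟨hreg 0, fun i => hreg i.succ⟩
  obtain ⟨v, hv⟩ := place_order O hO
  obtain ⟨t, ht0, hvt⟩ := hv.2.2
  have htO : t ∈ O := by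
    rw [hv.2.1 t ht0, hvt]
    norm_num
  obtain ⟨i₀, hi₀⟩ := Finite.exists_min (fun i => v (y i))
  set h := y i₀ with hh
  have hh0 : h ≠ 0 := hyne i₀
  set x : Fin (n + 1) → K := fun j => y j / h with hx
  have hxO : ∀ j, x j ∈ O := by
    intro i
    rw [hx, hv.2.1 _ (div_ne_zero (hyne i) hh0), ord_div hv _ _ (hyne i) hh0]
    have h1 : v h ≤ v (y i) := hi₀ i
    omega
  have hxi : x i₀ = 1 := div_self hh0
  have hyx : y = fun j => h * x j := by
    ext j
    rw [hx]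
    field_simp
  have hPx : ∀ (d : ℕ) (Q : MvPolynomial (Fin (n + 1)) ℂ), Q.IsHomogeneous d →
      aeval y Q = h ^ d * aeval x Q := by
    intro d Q hQ
    conv_lhs => rw [hyx]
    exact aeval_mul_hom _ _ _ _ hQ
  have hndx : ∀ (d : ℕ) (Q : MvPolynomial (Fin (n + 1)) ℂ), Q.IsHomogeneous d →
      aeval x Q = 0 → Q = 0 := by
    intro d Q hQ h0
    refine hnd d Q hQ ?_
    rw [hPx d Q hQ, h0, mul_zero]
  have hPxne : ∀ Q ∈ D, aeval x Q ≠ 0 := fun Q hQ h0 =>
    (hD Q hQ).2.ne_zero (hndx e Q (hD Q hQ).1 h0)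
  have hvP : ∀ Q ∈ D, v (aeval y Q) = e * v h + v (aeval x Q) := by
    intro Q hQ
    rw [hPx e Q (hD Q hQ).1, hv.1 _ _ (pow_ne_zero _ hh0) (hPxne Q hQ), F_ord_pow hv _ hh0]
  have hν0 : ∀ Q ∈ D, 0 ≤ v (aeval x Q) := fun Q hQ =>
    (hv.2.1 _ (hPxne Q hQ)).1 (aeval_mem hO x hxO Q)
  set B := D.filter (fun Q => 1 ≤ v (aeval x Q)) with hB
  have hBM : B.card ≤ M := card_vanishing hO hv x hxO i₀ hxi D hPxne hpt B
    (Finset.filter_subset _ _) fun Q hQ => (Finset.mem_filter.1 hQ).2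
  have hMlt : M < D.card := by
    have h1 : M ≤ 2 * (n + 1) * M := Nat.le_mul_of_pos_left _ (by omega)
    omega
  -- no member has order one
  have hν1 : ∀ Q ∈ D, v (aeval x Q) ≠ 1 := by
    intro Q hQ h1
    obtain ⟨Q', hQ', hQ'B⟩ : ∃ Q' ∈ D, Q' ∉ B := by
      by_contra hcon
      push Not at hcon
      have := Finset.card_le_card (show D ⊆ B from hcon)
      omega
    have h2 : v (aeval x Q') = 0 := by
      have h3 := hν0 Q' hQ'
      have h4 : ¬ 1 ≤ v (aeval x Q') := fun h5 => hQ'B (Finset.mem_filter.2 ⟨hQ', h5⟩)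
      omega
    have h3 := hT O hO v hv Q hQ Q' hQ' (by rw [hvP Q hQ, hvP Q' hQ', h1, h2]; ring) D
      (Finset.Subset.refl _) fun R hR => by
        rw [hvP R hR, hvP Q' hQ', h2]
        have := hν0 R hR
        omega
    omega
  -- the discrepancy
  have hwry : ∀ E : Fin n → Derivation ℂ K K, wr y E = h ^ (n + 1) * wr x E := by
    intro E
    have h2 := wr_scale h x E
    rw [← hyx] at h2
    exact h2
  have hcases : ∃ β N : ℕ, (M * N ≤ m * β) ∧ (∀ Q ∈ D, v (aeval x Q) ≤ N) ∧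
      ∀ E : Fin n → Derivation ℂ K K, (∀ i, ∀ a ∈ O, E i a ∈ O) →
        (h ^ (n + 1) * t ^ β)⁻¹ * wr y E ∈ O := by
    by_cases hall : ∀ E : Fin n → Derivation ℂ K K, (∀ i, ∀ a ∈ O, E i a ∈ O) → wr x E = 0
    · obtain ⟨N, hN⟩ : ∃ N : ℕ, ∀ Q ∈ D, v (aeval x Q) ≤ N := by
        refine ⟨∑ Q ∈ D, (v (aeval x Q)).toNat, fun Q hQ => ?_⟩
        have h1 : (v (aeval x Q)).toNat ≤ ∑ Q ∈ D, (v (aeval x Q)).toNat :=
          Finset.single_le_sum (f := fun Q => (v (aeval x Q)).toNat) (fun _ _ => Nat.zero_le _) hQ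
        have h2 := Int.self_le_toNat (v (aeval x Q))
        omega
      refine ⟨M * N, N, ?_, hN, ?_⟩
      · exact Nat.le_mul_of_pos_left _ hm1
      · intro E hE
        rw [hwry, hall E hE, mul_zero, mul_zero]
        exact O.zero_mem
    · push Not at hall
      have hex : ∃ β : ℕ, ∃ E : Fin n → Derivation ℂ K K, (∀ i, ∀ a ∈ O, E i a ∈ O) ∧
          wr x E ≠ 0 ∧ v (wr x E) = β := by
        obtain ⟨E, hE, hEne⟩ := hall
        have h1 := (hv.2.1 _ hEne).1 (wr_mem x hxO E hE)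
        exact ⟨(v (wr x E)).toNat, E, hE, hEne, by omega⟩
      set β := Nat.find hex with hβ
      obtain ⟨E, hE, hEne, hEv⟩ := Nat.find_spec hex
      rw [← hβ] at hEv
      have hmin : ∀ E' : Fin n → Derivation ℂ K K, (∀ i, ∀ a ∈ O, E' i a ∈ O) →
          wr x E' ≠ 0 → (β : ℤ) ≤ v (wr x E') := by
        intro E' hE' hne
        by_contra hcon
        push Not at hcon
        have h1 := (hv.2.1 _ hne).1 (wr_mem x hxO E' hE')
        exact Nat.find_min hex (m := (v (wr x E')).toNat) (by rw [← hβ]; omega)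
          ⟨E', hE', hne, by omega⟩
      have hform : ∀ E' : Fin n → Derivation ℂ K K, (∀ i, ∀ a ∈ O, E' i a ∈ O) →
          (h ^ (n + 1) * t ^ β)⁻¹ * wr y E' ∈ O := by
        intro E' hE'
        by_cases hne : wr x E' = 0
        · rw [hwry, hne, mul_zero, mul_zero]
          exact O.zero_mem
        have h1 : (h ^ (n + 1) * t ^ β)⁻¹ * wr y E' = wr x E' / t ^ β := by
          rw [hwry]
          have h2 : h ^ (n + 1) ≠ 0 := pow_ne_zero _ hh0
          field_simp
        rw [h1, hv.2.1 _ (div_ne_zero hne (pow_ne_zero _ ht0)),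
          ord_div hv _ _ hne (pow_ne_zero _ ht0), F_ord_pow hv t ht0, hvt]
        have := hmin E' hE' hne
        omega
      rcases Nat.eq_zero_or_pos β with hβ0 | hβ1
      · refine ⟨β, 0, by simp, ?_, hform⟩
        intro Q hQ
        rw [hβ0] at hEv
        have h0 : v (wrM x E).det = 0 := by
          rw [← wr_apply, hEv]
          simp
        have h1 := ord_squarefree hO hv x hxO hndx E hE hEne h0 e Q
          (hD Q hQ).1 (hD Q hQ).2
        have h2 := hν1 Q hQ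
        have h3 := hν0 Q hQ
        push_cast
        omega
      · refine ⟨β, 2 * e * β, ?_, ?_, hform⟩
        · rw [hm]
          apply le_of_eq
          ring
        · intro Q hQ
          have h1 := ord_form_le hO hv x hxO hndx E hE hEne e Q (hD Q hQ).1 (hD Q hQ).2.ne_zero
          have h4 : v (wrM x E).det = β := hEv
          rw [h4] at h1
          have h5 : (1 : ℤ) + β ≤ 2 * β := by
            have : (1 : ℤ) ≤ β := by exact_mod_cast hβ1
            linarith
          have h6 : (e : ℤ) * (1 + β) ≤ e * (2 * β) := mul_le_mul_of_nonneg_left h5 (by positivity)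
          push_cast
          linarith
  obtain ⟨β, N, hβN, hN, hEO⟩ := hcases
  intro i
  have hu0 : h ^ (n + 1) * t ^ β ≠ 0 := mul_ne_zero (pow_ne_zero _ hh0) (pow_ne_zero _ ht0)
  refine ⟨h ^ (n + 1) * t ^ β, hu0, hEO, ?_⟩
  rw [hv.2.1 _ (mul_ne_zero (hfne i) (pow_ne_zero _ hu0)),
    hv.1 _ _ (hfne i) (pow_ne_zero _ hu0), F_ord_pow hv _ hu0,
    hv.1 _ _ (pow_ne_zero _ hh0) (pow_ne_zero _ ht0), F_ord_pow hv _ hh0, F_ord_pow hv _ ht0, hvt]
  have h1 : v (f i) = v (y i) + r * v (y 0) - ∑ Q ∈ D, v (aeval y Q) := by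
    simp only [hf]
    rw [ord_div hv _ _ (mul_ne_zero (hyne i) (pow_ne_zero _ hy0)) hPne',
      hv.1 _ _ (hyne i) (pow_ne_zero _ hy0), F_ord_pow hv _ hy0, hP,
      ord_prod hv D _ hPne]
  have h2 : ∑ Q ∈ D, v (aeval y Q) ≤ D.card * (e * v h) + M * N := by
    have h3 : ∀ Q ∈ D, v (aeval y Q) ≤ e * v h + if 1 ≤ v (aeval x Q) then (N : ℤ) else 0 := by
      intro Q hQ
      rw [hvP Q hQ]
      split_ifs with h4
      · have := hN Q hQ
        omega
      · omega
    refine (Finset.sum_le_sum h3).trans ?_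
    rw [Finset.sum_add_distrib, Finset.sum_const, nsmul_eq_mul, ← Finset.sum_filter,
      Finset.sum_const, nsmul_eq_mul, ← hB]
    have h4 : (B.card : ℤ) * N ≤ M * N :=
      mul_le_mul_of_nonneg_right (by exact_mod_cast hBM) (by positivity)
    linarith
  have h3 : v h ≤ v (y i) := hi₀ i
  have h4 : (r : ℤ) * v h ≤ r * v (y 0) := mul_le_mul_of_nonneg_left (hi₀ 0) (by positivity)
  have h5 : ((1 : ℤ) + r + m * (n + 1)) = e * D.card := by exact_mod_cast hr
  have h6 : (M : ℤ) * N ≤ m * β := by exact_mod_cast hβN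
  have h7 : (D.card : ℤ) * (e * v h) = (1 + r + m * (n + 1)) * v h := by
    rw [h5]
    ring
  rw [h7] at h2
  rw [h1]
  push_cast
  nlinarith

end Pool.Agent.Campana
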