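import Pool.Agent.Lib_MP_1209e6_mh.CoreG1

/-! Fields over projective space which are multiple along many members of a linear system are not
special: the core. -/

set_option autoImplicit false

namespace Pool.Agent.Campana

open MvPolynomial

theorem not_special_system {K : Type} [Field K] [Algebra ℂ K] {n e q c : ℕ} (he : 1 ≤ e)
    (hc : 1 ≤ c) (hq : CountRel n e q) (y : Fin (n + 1) → K)
    (hnd : ∀ (k : ℕ) (Q : MvPolynomial (Fin (n + 1)) ℂ), Q.IsHomogeneous k → aeval y Q = 0 → Q = 0)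
    (J : Finset (MvPolynomial (Fin (n + 1)) ℂ))
    (hJ : ∀ P ∈ J, P.IsHomogeneous e ∧ Squarefree P)
    (hJ2 : ∃ P ∈ J, ∃ P' ∈ J, ∀ z : ℂ, P' ≠ C z * P)
    (hcard : c * q * ((n + 1) * (q + 2)) < J.card)
    (hW : ∀ W : Submodule ℂ (MvPolynomial (Fin (n + 1)) ℂ), (∃ P ∈ J, P ∉ W) →
      ∀ B ⊆ J, (∀ P ∈ B, P ∈ W) → B.card ≤ c)
    (hT : ∀ O : ValuationSubring K, IsPlace O → ∀ v : K → ℤ, IsOrd O v →
      ∀ P ∈ J, ∀ P' ∈ J, (∀ Q ∈ J, v (aeval y P') ≤ v (aeval y Q)) →
        v (aeval y P) ≠ v (aeval y P') + 1) : ¬ SpecialField K := by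
  classical
  intro hS
  have hq1 : 1 ≤ q := hq.1
  have hJ' : ∀ P ∈ J, P.IsHomogeneous e ∧ P ≠ 0 := fun P hP => ⟨(hJ P hP).1, (hJ P hP).2.ne_zero⟩
  obtain ⟨d, r, w, τ, hd, h, hwJ, hind, halg⟩ := select_two he hq y hnd J hJ' hJ2
  have hw : ∀ l, (w l).IsHomogeneous e := fun l => (hJ _ (hwJ l)).1
  have hwi : AlgebraicIndependent ℂ w := (AlgebraicIndependent.sumElim_iff.1 hind).1
  set ω : Fin (d + 1) → K := fun l => aeval y (w l) with hωdef
  have hndω : ∀ (k : ℕ) (Q : MvPolynomial (Fin (d + 1)) ℂ), Q.IsHomogeneous k → aeval ω Q = 0 →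
      Q = 0 := hnd_w w hw hwi y hnd
  have hPne : ∀ P ∈ J, aeval y P ≠ 0 := fun P hP h0 => (hJ' P hP).2 (hnd e P (hJ P hP).1 h0)
  have hωne : ∀ l, ω l ≠ 0 := fun l => hPne _ (hwJ l)
  have hωai : AlgebraicIndependent ℂ (fun i : Fin d => ω i.succ / ω 0) :=
    algInd_of_hom ω (hωne 0) hndω
  -- the relations
  have hrel : ∀ j : Fin (n + 1), ∃ (F : Polynomial (MvPolynomial (Fin r)
      (MvPolynomial (Fin (d + 1)) ℂ))) (ξ : Fin r → ℂ) (g : ℕ),
      F.eval₂ (evR e w τ) (X j ^ e) = 0 ∧ g ≤ q ∧ (spec ξ F.leadingCoeff).IsHomogeneous g ∧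
        spec ξ F.leadingCoeff ≠ 0 := by
    intro j
    refine rel_lead hq h w hw τ (X j ^ e) ?_
    have := (isHomogeneous_X ℂ j).pow e
    rwa [one_mul] at this
  choose F ξ g hF hgq hGh hG0 using hrel
  set G : Fin (n + 1) → MvPolynomial (Fin (d + 1)) ℂ := fun j => spec (ξ j) (F j).leadingCoeff
    with hGdef
  set γ := ∑ j, g j with hγ
  have hγq : γ ≤ (n + 1) * q := by
    calc γ ≤ ∑ _j : Fin (n + 1), q := Finset.sum_le_sum fun j _ => hgq j
      _ = (n + 1) * q := by simp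
  have hGPh : (∏ j, G j).IsHomogeneous γ :=
    IsHomogeneous.prod (R := ℂ) (σ := Fin (d + 1)) Finset.univ G g fun j _ => hGh j
  have hGP0 : (∏ j, G j) ≠ 0 := Finset.prod_ne_zero_iff.2 fun j _ => hG0 j
  set Gω := aeval ω (∏ j, G j) with hGω
  have hGω0 : Gω ≠ 0 := fun h0 => hGP0 (hndω γ _ hGPh h0)
  -- derivations
  have hex : ∀ i : Fin d, ∃ D : Derivation ℂ K K, ∀ j : Fin d,
      D (ω j.succ / ω 0) = if j = i then 1 else 0 :=
    fun i => exists_derivation (fun i : Fin d => ω i.succ / ω 0) hωai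
      (fun j => if j = i then 1 else 0)
  choose D₀ hD₀ using hex
  have hwr : wr ω ≠ 0 := by
    intro h0
    have h1 := wr_ne_zero ω (hωne 0) D₀ hD₀
    rw [h0] at h1
    exact pow_ne_zero (d + 1) (hωne 0) h1.symm
  -- the multiplicities
  have hdn : d ≤ n := by omega
  obtain ⟨ρ, hρ⟩ : ∃ ρ, 1 + ρ + c * q * γ + 2 * (c * q) * (d + 1) = J.card := by
    refine ⟨J.card - 1 - c * q * γ - 2 * (c * q) * (d + 1), ?_⟩
    have h1 : c * q * γ + 2 * (c * q) * (d + 1) ≤ c * q * ((n + 1) * (q + 2)) := by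
      have h2 : c * q * γ + 2 * (c * q) * (d + 1) = c * q * (γ + 2 * (d + 1)) := by ring
      rw [h2]
      apply Nat.mul_le_mul_left
      have h3 : (n + 1) * (q + 2) = (n + 1) * q + 2 * (n + 1) := by ring
      rw [h3]
      omega
    omega
  have hcardc : c * (q + 1) ≤ J.card := by
    have h1 : c * (q + 1) ≤ c * q * ((n + 1) * (q + 2)) := by
      have h2 : q + 1 ≤ q * ((n + 1) * (q + 2)) := by
        have h3 : 1 * (1 * (q + 2)) ≤ q * ((n + 1) * (q + 2)) :=
          Nat.mul_le_mul hq1 (Nat.mul_le_mul (by omega) le_rfl)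
        omega
      rw [mul_assoc]
      exact Nat.mul_le_mul_left c h2
    omega
  set m := 2 * (c * q) with hm
  have hm1 : 1 ≤ m := by
    have : 1 ≤ c * q := Nat.mul_pos hc hq1
    omega
  set PP := ∏ Q ∈ J, aeval y Q with hPP
  have hPPne : PP ≠ 0 := Finset.prod_ne_zero_iff.2 hPne
  set f : Fin (d + 1) → K := fun i => ω i * ω 0 ^ ρ * Gω ^ (c * q) / PP with hf
  have hfne : ∀ i, f i ≠ 0 := fun i => div_ne_zero (mul_ne_zero (mul_ne_zero (hωne i)
    (pow_ne_zero _ (hωne 0))) (pow_ne_zero _ hGω0)) hPPne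
  refine hS d hd (wr ω) hwr m hm1 (f 0) (hfne 0) (fun i => f i.succ) ?_ ?_
  swap
  · have h1 : (fun i : Fin d => f i.succ / f 0) = fun i : Fin d => ω i.succ / ω 0 := by
      funext i
      simp only [hf]
      have h2 : ω 0 ^ ρ ≠ 0 := pow_ne_zero _ (hωne 0)
      have h3 : Gω ^ (c * q) ≠ 0 := pow_ne_zero _ hGω0
      have h4 := hωne 0
      field_simp
    rw [h1]
    exact hωai
  intro O hO
  suffices hreg : ∀ i, RegularAt O (wr ω) m (f i) from ⟨hreg 0, fun i => hreg i.succ⟩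
  obtain ⟨v, hv⟩ := place_order O hO
  obtain ⟨t, ht0, hvt⟩ := hv.2.2
  have htO : t ∈ O := by
    rw [hv.2.1 t ht0, hvt]
    norm_num
  obtain ⟨i₀, hi₀⟩ := Finite.exists_min (fun i => v (ω i))
  set hh := ω i₀ with hhdef
  have hh0 : hh ≠ 0 := hωne i₀
  set x : Fin (d + 1) → K := fun j => ω j / hh with hx
  have hxO : ∀ j, x j ∈ O := by
    intro i
    rw [hx, hv.2.1 _ (div_ne_zero (hωne i) hh0), ord_div hv _ _ (hωne i) hh0]
    have h1 : v hh ≤ v (ω i) := hi₀ i
    omega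
  have hωx : ∀ j, ω j = hh * x j := by
    intro j
    rw [hx]
    field_simp
  have hωx' : ω = fun j => hh * x j := funext hωx
  have hndx : ∀ (k : ℕ) (Q : MvPolynomial (Fin (d + 1)) ℂ), Q.IsHomogeneous k → aeval x Q = 0 →
      Q = 0 := hnd_x ω x hh hωx hndω
  -- a member of minimal order
  have hJne : J.Nonempty := ⟨w 0, hwJ 0⟩
  obtain ⟨P₀, hP₀J, hP₀⟩ := Finset.exists_min_image J (fun P => v (aeval y P)) hJne
  set μ := v (aeval y P₀) with hμ
  have hμh : μ ≤ v hh := hP₀ _ (hwJ i₀)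
  obtain ⟨a, ha⟩ : ∃ a : ℕ, (a : ℤ) = v hh - μ := ⟨(v hh - μ).toNat, by omega⟩
  have hGx0 : ∀ j, aeval x (G j) ≠ 0 := fun j h0 => hG0 j (hndx _ _ (hGh j) h0)
  have hGxv : ∀ j, 0 ≤ v (aeval x (G j)) := fun j =>
    (hv.2.1 _ (hGx0 j)).1 (aeval_mem hO x hxO _)
  obtain ⟨gv, hgv⟩ : ∃ gv : ℕ, (gv : ℤ) = ∑ j, v (aeval x (G j)) :=
    ⟨(∑ j, v (aeval x (G j))).toNat,
      by have := Finset.sum_nonneg fun j (_ : j ∈ Finset.univ) => hGxv j; omega⟩
  -- the members of larger order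
  set W : Submodule ℂ (MvPolynomial (Fin (n + 1)) ℂ) :=
    { carrier := {Q | aeval y Q / t ^ (μ + 1) ∈ O}
      add_mem' := by
        intro a b ha hb
        show aeval y (a + b) / t ^ (μ + 1) ∈ O
        rw [map_add, add_div]
        exact O.add_mem _ _ ha hb
      zero_mem' := by
        show aeval y 0 / t ^ (μ + 1) ∈ O
        rw [map_zero, zero_div]
        exact O.zero_mem
      smul_mem' := by
        intro z a ha
        show aeval y (z • a) / t ^ (μ + 1) ∈ O
        rw [map_smul, Algebra.smul_def, mul_div_assoc]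
        exact O.mul_mem _ _ (hO.1 z) ha } with hWdef
  have htc : t ^ (μ + 1) ≠ 0 := zpow_ne_zero _ ht0
  have hWmem : ∀ Q ∈ J, (Q ∈ W ↔ μ + 1 ≤ v (aeval y Q)) := by
    intro Q hQ
    have h1 : Q ∈ W ↔ aeval y Q / t ^ (μ + 1) ∈ O := Iff.rfl
    rw [h1, hv.2.1 _ (div_ne_zero (hPne Q hQ) htc), ord_div hv _ _ (hPne Q hQ) htc,
      F_ord_zpow hv t ht0, hvt]
    omega
  set B := J.filter (fun Q => Q ∈ W) with hB
  have hBc : B.card ≤ c := hW W ⟨P₀, hP₀J, fun h1 => by
    rw [hWmem P₀ hP₀J] at h1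
    omega⟩ B (Finset.filter_subset _ _) fun Q hQ => (Finset.mem_filter.1 hQ).2
  have hwrω : ∀ E : Fin d → Derivation ℂ K K, wr ω E = hh ^ (d + 1) * wr x E := by
    intro E
    have h2 := wr_scale hh x E
    rw [← hωx'] at h2
    exact h2
  -- the discrepancy
  have hcases : ∃ β N : ℕ, (c * N ≤ J.card * a + c * q * gv + m * β) ∧
      (∀ Q ∈ J, v (aeval y Q) ≤ μ + N) ∧
      ∀ E : Fin d → Derivation ℂ K K, (∀ i, ∀ a ∈ O, E i a ∈ O) →
        (hh ^ (d + 1) * t ^ β)⁻¹ * wr ω E ∈ O := by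
    by_cases hall : ∀ E : Fin d → Derivation ℂ K K, (∀ i, ∀ a ∈ O, E i a ∈ O) → wr x E = 0
    · obtain ⟨N, hN⟩ : ∃ N : ℕ, ∀ Q ∈ J, v (aeval y Q) ≤ μ + N := by
        refine ⟨∑ Q ∈ J, (v (aeval y Q) - μ).toNat, fun Q hQ => ?_⟩
        have h1 : (v (aeval y Q) - μ).toNat ≤ ∑ Q ∈ J, (v (aeval y Q) - μ).toNat :=
          Finset.single_le_sum (f := fun Q => (v (aeval y Q) - μ).toNat)
            (fun _ _ => Nat.zero_le _) hQ
        have h2 := Int.self_le_toNat (v (aeval y Q) - μ)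
        omega
      refine ⟨c * N, N, ?_, hN, ?_⟩
      · have h1 : c * N ≤ m * (c * N) := Nat.le_mul_of_pos_left _ hm1
        omega
      · intro E hE
        rw [hwrω, hall E hE, mul_zero, mul_zero]
        exact O.zero_mem
    · push Not at hall
      have hex : ∃ β : ℕ, ∃ E : Fin d → Derivation ℂ K K, (∀ i, ∀ a ∈ O, E i a ∈ O) ∧
          wr x E ≠ 0 ∧ v (wr x E) = β := by
        obtain ⟨E, hE, hEne⟩ := hall
        have h1 := (hv.2.1 _ hEne).1 (wr_mem x hxO E hE)
        exact ⟨(v (wr x E)).toNat, E, hE, hEne, by omega⟩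
      set β := Nat.find hex with hβ
      obtain ⟨E, hE, hEne, hEv⟩ := Nat.find_spec hex
      rw [← hβ] at hEv
      have hmin : ∀ E' : Fin d → Derivation ℂ K K, (∀ i, ∀ a ∈ O, E' i a ∈ O) →
          wr x E' ≠ 0 → (β : ℤ) ≤ v (wr x E') := by
        intro E' hE' hne
        by_contra hcon
        push Not at hcon
        have h1 := (hv.2.1 _ hne).1 (wr_mem x hxO E' hE')
        exact Nat.find_min hex (m := (v (wr x E')).toNat) (by rw [← hβ]; omega)
          ⟨E', hE', hne, by omega⟩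
      have hform : ∀ E' : Fin d → Derivation ℂ K K, (∀ i, ∀ a ∈ O, E' i a ∈ O) →
          (hh ^ (d + 1) * t ^ β)⁻¹ * wr ω E' ∈ O := by
        intro E' hE'
        by_cases hne : wr x E' = 0
        · rw [hwrω, hne, mul_zero, mul_zero]
          exact O.zero_mem
        have h1 : (hh ^ (d + 1) * t ^ β)⁻¹ * wr ω E' = wr x E' / t ^ β := by
          rw [hwrω]
          have h2 : hh ^ (d + 1) ≠ 0 := pow_ne_zero _ hh0
          field_simp
        rw [h1, hv.2.1 _ (div_ne_zero hne (pow_ne_zero _ ht0)),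
          ord_div hv _ _ hne (pow_ne_zero _ ht0), F_ord_pow hv t ht0, hvt]
        have := hmin E' hE' hne
        omega
      -- the general bound
      have hbound : ∀ Q ∈ J, v (aeval y Q) ≤ v hh + q * (1 + β) := by
        intro Q hQ
        by_cases hle : v (aeval y Q) ≤ v hh
        · refine hle.trans ?_
          have : (0 : ℤ) ≤ q * (1 + β) := by positivity
          linarith
        push Not at hle
        obtain ⟨q', b, hq', hb, hb0, hrelQ⟩ := rel_trail hq h w hw τ hind Q (hJ Q hQ).1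
          (hJ' Q hQ).2 (halg Q hQ)
        have hrel' := rel_eval w y hh hh0 x hωx Q q' b hb hrelQ
        have hp0 : aeval y Q / hh ≠ 0 := div_ne_zero (hPne Q hQ) hh0
        have hvp : v (aeval y Q / hh) = v (aeval y Q) - v hh := ord_div hv _ _ (hPne Q hQ) hh0
        have hbx : aeval x (b 0) ≠ 0 := fun h0 => hb0 (hndx _ _ (hb 0 (Nat.zero_le _)) h0)
        have h1 := trail_ord hO hv x hxO _ hp0 (by omega) q' b hrel' hbx
        have h2 := ord_form_le hO hv x hxO hndx E hE hEne (q' - 0) (b 0) (hb 0 (Nat.zero_le _)) hb0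
        have h4 : v (wrM x E).det = β := hEv
        rw [h4, Nat.sub_zero] at h2
        have h5 : (q' : ℤ) * (1 + β) ≤ q * (1 + β) :=
          mul_le_mul_of_nonneg_right (by exact_mod_cast hq') (by positivity)
        omega
      by_cases h0 : a = 0 ∧ β = 0 ∧ gv = 0
      · obtain ⟨ha0, hβ0, hgv0⟩ := h0
        refine ⟨β, 0, by simp, ?_, hform⟩
        intro Q hQ
        have hG0' : ∀ j, v (aeval x (G j)) = 0 := by
          rw [hgv0] at hgv
          have h1 : ∑ j, v (aeval x (G j)) = 0 := by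
            rw [← hgv]
            rfl
          intro j
          exact (Finset.sum_eq_zero_iff_of_nonneg fun j _ => hGxv j).1 h1 j (Finset.mem_univ j)
        have h1 := key_order hO hv he hq h w hw τ hind y hnd i₀ x hxO hωx hh0 E hE hEne (by
          show v (wr x E) = 0
          rw [hEv, hβ0]
          rfl) F ξ hF (fun j => ⟨hGx0 j, hG0' j⟩) Q (hJ Q hQ).1 (hJ Q hQ).2 (halg Q hQ)
        have h2 : v (aeval y Q) ≤ v hh + 1 := h1
        have h3 := hT O hO v hv Q hQ P₀ hP₀J hP₀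
        rw [ha0] at ha
        rw [← hμ] at h3
        push_cast
        push_cast at ha
        omega
      · refine ⟨β, a + q * (1 + β), ?_, ?_, hform⟩
        · have e1 : c * (a + q * (1 + β)) = c * a + c * q + c * q * β := by ring
          have e2 : m * β = c * q * β + c * q * β := by rw [hm]; ring
          rw [e1, e2]
          have e3 : c * (q + 1) * a ≤ J.card * a := Nat.mul_le_mul_right a hcardc
          have e4 : c * (q + 1) * a = c * q * a + c * a := by ring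
          rcases Nat.eq_zero_or_pos a with ha0 | ha1
          · rcases Nat.eq_zero_or_pos β with hβ0 | hβ1
            · have hgv1 : 1 ≤ gv := by
                rcases Nat.eq_zero_or_pos gv with h1 | h1
                · exact absurd ⟨ha0, hβ0, h1⟩ h0
                · exact h1
              have e5 : c * q ≤ c * q * gv := Nat.le_mul_of_pos_right _ hgv1
              rw [ha0]
              omega
            · have e5 : c * q ≤ c * q * β := Nat.le_mul_of_pos_right _ hβ1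
              rw [ha0]
              omega
          · have e5 : c * q ≤ c * q * a := Nat.le_mul_of_pos_right _ ha1
            omega
        · intro Q hQ
          have h1 := hbound Q hQ
          push_cast
          linarith
  obtain ⟨β, N, hβN, hN, hEO⟩ := hcases
  intro i
  have hu0 : hh ^ (d + 1) * t ^ β ≠ 0 := mul_ne_zero (pow_ne_zero _ hh0) (pow_ne_zero _ ht0)
  refine ⟨hh ^ (d + 1) * t ^ β, hu0, hEO, ?_⟩
  rw [hv.2.1 _ (mul_ne_zero (hfne i) (pow_ne_zero _ hu0)),
    hv.1 _ _ (hfne i) (pow_ne_zero _ hu0), F_ord_pow hv _ hu0,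
    hv.1 _ _ (pow_ne_zero _ hh0) (pow_ne_zero _ ht0), F_ord_pow hv _ hh0, F_ord_pow hv _ ht0, hvt]
  have hvG : v Gω = γ * v hh + gv := by
    have h1 : Gω = hh ^ γ * aeval x (∏ j, G j) := by
      rw [hGω, hωx']
      exact aeval_mul_hom _ _ _ _ hGPh
    have h2 : aeval x (∏ j, G j) ≠ 0 := fun h0 => hGP0 (hndx γ _ hGPh h0)
    rw [h1, hv.1 _ _ (pow_ne_zero _ hh0) h2, F_ord_pow hv _ hh0, map_prod,
      ord_prod hv Finset.univ _ fun j _ => hGx0 j, hgv]
  have h1 : v (f i) = v (ω i) + ρ * v (ω 0) + (c * q) * v Gω - ∑ Q ∈ J, v (aeval y Q) := by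
    simp only [hf]
    rw [ord_div hv _ _ (mul_ne_zero (mul_ne_zero (hωne i) (pow_ne_zero _ (hωne 0)))
      (pow_ne_zero _ hGω0)) hPPne,
      hv.1 _ _ (mul_ne_zero (hωne i) (pow_ne_zero _ (hωne 0))) (pow_ne_zero _ hGω0),
      hv.1 _ _ (hωne i) (pow_ne_zero _ (hωne 0)), F_ord_pow hv _ (hωne 0),
      F_ord_pow hv _ hGω0, hPP, ord_prod hv J _ hPne]
    push_cast
    ring
  have h2 : ∑ Q ∈ J, v (aeval y Q) ≤ J.card * μ + c * N := by
    have h3 : ∀ Q ∈ J, v (aeval y Q) ≤ μ + if Q ∈ W then (N : ℤ) else 0 := by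
      intro Q hQ
      split_ifs with h4
      · exact hN Q hQ
      · rw [hWmem Q hQ] at h4
        omega
    refine (Finset.sum_le_sum h3).trans ?_
    rw [Finset.sum_add_distrib, Finset.sum_const, nsmul_eq_mul, ← Finset.sum_filter,
      Finset.sum_const, nsmul_eq_mul, ← hB]
    have h4 : (B.card : ℤ) * N ≤ c * N :=
      mul_le_mul_of_nonneg_right (by exact_mod_cast hBc) (by positivity)
    linarith
  have h3 : v hh ≤ v (ω i) := hi₀ i
  have h4 : (ρ : ℤ) * v hh ≤ ρ * v (ω 0) := mul_le_mul_of_nonneg_left (hi₀ 0) (by positivity)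
  have h5 : ((1 : ℤ) + ρ + c * q * γ + m * (d + 1)) = J.card := by exact_mod_cast hρ
  have h6 : (c : ℤ) * N ≤ J.card * a + c * q * gv + m * β := by exact_mod_cast hβN
  have h7 : (J.card : ℤ) * a = J.card * v hh - J.card * μ := by
    rw [ha]
    ring
  have h8 : (J.card : ℤ) * v hh = v hh + ρ * v hh + c * q * γ * v hh + m * (d + 1) * v hh := by
    rw [← h5]
    ring
  rw [h1, hvG]
  push_cast
  have h9 : (m : ℤ) * ((d + 1) * v hh + β * 1) = m * (d + 1) * v hh + m * β := by ring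
  have h10 : (c * q : ℤ) * (γ * v hh + gv) = c * q * γ * v hh + c * q * gv := by ring
  rw [h9, h10]
  linarith

end Pool.Agent.Campana
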