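import Mathlib

/-! Selection of algebraically independent members of a linear system. -/

set_option autoImplicit false

namespace Pool.Agent.Campana

open MvPolynomial AlgebraicIndependent

theorem select_basis {n e : ℕ} (he : 1 ≤ e) (J : Finset (MvPolynomial (Fin (n + 1)) ℂ)) :
    ∃ (b r : ℕ) (w : Fin b → MvPolynomial (Fin (n + 1)) ℂ) (τ : Fin r → Fin (n + 1)),
      r + b = n + 1 ∧ (∀ l, w l ∈ J) ∧
      AlgebraicIndependent ℂ
        (Sum.elim (fun i => (X (τ i) : MvPolynomial (Fin (n + 1)) ℂ) ^ e) w) ∧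
      ∀ P ∈ J, IsAlgebraic (Algebra.adjoin ℂ (Set.range w)) P := by
  classical
  obtain ⟨uJ, huJ⟩ := (matroid ℂ (MvPolynomial (Fin (n + 1)) ℂ)).exists_isBasis
    (J : Set (MvPolynomial (Fin (n + 1)) ℂ))
  rw [matroid_isBasis_iff] at huJ
  obtain ⟨hind, hsub, halg⟩ := huJ
  set t : Set (MvPolynomial (Fin (n + 1)) ℂ) :=
    uJ ∪ Set.range (fun j : Fin (n + 1) => (X j : MvPolynomial (Fin (n + 1)) ℂ) ^ e) with ht
  have hX : ∀ j : Fin (n + 1), IsAlgebraic (Algebra.adjoin ℂ t)
      (X j : MvPolynomial (Fin (n + 1)) ℂ) := by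
    intro j
    have h1 : (X j : MvPolynomial (Fin (n + 1)) ℂ) ^ e ∈ Algebra.adjoin ℂ t :=
      Algebra.subset_adjoin (Or.inr ⟨j, rfl⟩)
    have h2 : IsAlgebraic (Algebra.adjoin ℂ t) ((X j : MvPolynomial (Fin (n + 1)) ℂ) ^ e) :=
      isAlgebraic_algebraMap (⟨_, h1⟩ : Algebra.adjoin ℂ t)
    exact h2.of_pow (by omega)
  have hAlg : Algebra.IsAlgebraic (Algebra.adjoin ℂ t) (MvPolynomial (Fin (n + 1)) ℂ) := by
    constructor
    intro p
    induction p using MvPolynomial.induction_on with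
    | C a =>
      exact isAlgebraic_algebraMap (algebraMap ℂ (Algebra.adjoin ℂ t) a)
    | add p q hp hq => exact hp.add hq
    | mul_X p i hp => exact hp.mul (hX i)
  obtain ⟨u, hs, hut, hu⟩ := exists_isTranscendenceBasis_between uJ t Set.subset_union_left hind
  have hcard := hu.lift_cardinalMk_eq (IsTranscendenceBasis.mvPolynomial (Fin (n + 1)) ℂ)
  have hcu : Cardinal.mk u = ((n + 1 : ℕ) : Cardinal) := by
    simpa using hcard
  have hfin : u.Finite := by
    rw [← Cardinal.lt_aleph0_iff_set_finite, hcu]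
    exact Cardinal.natCast_lt_aleph0
  have hncard : u.ncard = n + 1 := by
    rw [← Nat.card_coe_set_eq, Nat.card, hcu, Cardinal.toNat_natCast]
  have hfJ : uJ.Finite := hfin.subset hs
  have hfD : (u \ uJ).Finite := hfin.subset Set.sdiff_subset
  have : Finite uJ := hfJ
  have : Finite ↥(u \ uJ) := hfD
  let εJ := Finite.equivFin uJ
  let εD := Finite.equivFin ↥(u \ uJ)
  have hτ : ∀ i : Fin (Nat.card ↥(u \ uJ)), ∃ j : Fin (n + 1),
      (X j : MvPolynomial (Fin (n + 1)) ℂ) ^ e = (εD.symm i : MvPolynomial (Fin (n + 1)) ℂ) := by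
    intro i
    rcases hut (εD.symm i).2.1 with h | h
    · exact absurd h (εD.symm i).2.2
    · exact h
  choose τ hτ using hτ
  refine ⟨Nat.card uJ, Nat.card ↥(u \ uJ), fun l => (εJ.symm l : MvPolynomial (Fin (n + 1)) ℂ), τ,
    ?_, ?_, ?_, ?_⟩
  · rw [Nat.card_coe_set_eq, Nat.card_coe_set_eq]
    exact (Set.ncard_sdiff_add_ncard_of_subset hs hfin).trans hncard
  · intro l
    exact hsub (εJ.symm l).2
  · simp only [hτ]
    let f : Fin (Nat.card ↥(u \ uJ)) ⊕ Fin (Nat.card uJ) → u :=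
      Sum.elim (fun i => ⟨εD.symm i, (εD.symm i).2.1⟩) (fun l => ⟨εJ.symm l, hs (εJ.symm l).2⟩)
    have hf : Function.Injective f := by
      rintro (i | l) (i' | l') h
      · have h1 : (εD.symm i : MvPolynomial (Fin (n + 1)) ℂ) = εD.symm i' :=
          congrArg (fun z : u => (z : MvPolynomial (Fin (n + 1)) ℂ)) h
        rw [εD.symm.injective (Subtype.ext h1)]
      · have h1 : (εD.symm i : MvPolynomial (Fin (n + 1)) ℂ) = εJ.symm l' :=
          congrArg (fun z : u => (z : MvPolynomial (Fin (n + 1)) ℂ)) h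
        exact absurd (h1 ▸ (εJ.symm l').2) (εD.symm i).2.2
      · have h1 : (εJ.symm l : MvPolynomial (Fin (n + 1)) ℂ) = εD.symm i' :=
          congrArg (fun z : u => (z : MvPolynomial (Fin (n + 1)) ℂ)) h
        exact absurd (h1 ▸ (εJ.symm l).2) (εD.symm i').2.2
      · have h1 : (εJ.symm l : MvPolynomial (Fin (n + 1)) ℂ) = εJ.symm l' :=
          congrArg (fun z : u => (z : MvPolynomial (Fin (n + 1)) ℂ)) h
        rw [εJ.symm.injective (Subtype.ext h1)]
    have h2 := hu.1.comp f hf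
    have h3 : (Subtype.val ∘ f) = Sum.elim (fun i => (εD.symm i : MvPolynomial (Fin (n + 1)) ℂ))
        (fun l => (εJ.symm l : MvPolynomial (Fin (n + 1)) ℂ)) := by
      funext x
      rcases x with i | l <;> rfl
    rw [← h3]
    exact h2
  · have hr : Set.range (fun l => (εJ.symm l : MvPolynomial (Fin (n + 1)) ℂ)) = uJ := by
      ext p
      constructor
      · rintro ⟨l, rfl⟩
        exact (εJ.symm l).2
      · intro hp
        refine ⟨εJ ⟨p, hp⟩, ?_⟩
        show ((εJ.symm (εJ ⟨p, hp⟩) : uJ) : MvPolynomial (Fin (n + 1)) ℂ) = p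
        rw [Equiv.symm_apply_apply]
    intro P hP
    rw [hr]
    exact halg P hP

end Pool.Agent.Campana
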