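import Pool.Agent.Lib_MP_1209e6_mh.KeyB
import Pool.Agent.Lib_MP_1209e6_mh.Sel

/-! Preparations for the general theorem. -/

set_option autoImplicit false

namespace Pool.Agent.Campana

open MvPolynomial

/-- the ratios of homogeneous coordinates are algebraically independent -/
lemma algInd_of_hom {K : Type} [Field K] [Algebra ℂ K] {d : ℕ} (ω : Fin (d + 1) → K)
    (hω0 : ω 0 ≠ 0)
    (hnd : ∀ (k : ℕ) (Q : MvPolynomial (Fin (d + 1)) ℂ), Q.IsHomogeneous k → aeval ω Q = 0 → Q = 0) :
    AlgebraicIndependent ℂ (fun i : Fin d => ω i.succ / ω 0) := by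
  classical
  rw [algebraicIndependent_iff]
  intro g hg
  set N := g.totalDegree with hN
  set Q : MvPolynomial (Fin (d + 1)) ℂ := ∑ k ∈ Finset.range (N + 1),
    rename Fin.succ (homogeneousComponent k g) * X 0 ^ (N - k) with hQ
  have hQh : Q.IsHomogeneous N := by
    apply IsHomogeneous.sum
    intro k hk
    have h1 := (homogeneousComponent_isHomogeneous k g).rename_isHomogeneous (f := Fin.succ (n := d))
    have h2 : ((X 0 : MvPolynomial (Fin (d + 1)) ℂ) ^ (N - k)).IsHomogeneous (N - k) :=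
      isHomogeneous_X_pow 0 (N - k)
    have h3 := h1.mul h2
    have h4 : k + (N - k) = N := by
      have := Finset.mem_range.1 hk
      omega
    rwa [h4] at h3
  have hQ0 : aeval ω Q = 0 := by
    have h1 : aeval ω Q = ω 0 ^ N * aeval (fun i : Fin d => ω i.succ / ω 0) g := by
      conv_rhs => rw [← sum_homogeneousComponent g]
      rw [hQ, map_sum, map_sum, Finset.mul_sum]
      refine Finset.sum_congr rfl fun k hk => ?_
      have hkN : k ≤ N := Nat.lt_succ_iff.1 (Finset.mem_range.1 hk)
      rw [map_mul, map_pow, aeval_X, aeval_rename]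
      have h2 : aeval (ω ∘ Fin.succ) (homogeneousComponent k g) =
          ω 0 ^ k * aeval (fun i : Fin d => ω i.succ / ω 0) (homogeneousComponent k g) := by
        have hh := homogeneousComponent_isHomogeneous k g
        rw [aeval_def, aeval_def, eval₂_eq, eval₂_eq, Finset.mul_sum]
        refine Finset.sum_congr rfl fun m hm => ?_
        have h3 : ∑ i ∈ m.support, m i = k := (hh.degree_eq_sum_deg_support hm).symm
        have h4 : ∏ i ∈ m.support, (ω ∘ Fin.succ) i ^ m i =
            ω 0 ^ k * ∏ i ∈ m.support, (ω i.succ / ω 0) ^ m i := by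
          rw [← h3, ← Finset.prod_pow_eq_pow_sum, ← Finset.prod_mul_distrib]
          refine Finset.prod_congr rfl fun i _ => ?_
          rw [← mul_pow, mul_div_cancel₀ _ hω0]
          rfl
        rw [h4]
        ring
      rw [h2]
      have h5 : ω 0 ^ N = ω 0 ^ k * ω 0 ^ (N - k) := by
        rw [← pow_add]
        congr 1
        omega
      rw [h5]
      ring
    rw [h1, hg, mul_zero]
  have hQz := hnd N Q hQh hQ0
  have h6 : aeval (Fin.cases 1 (fun i => X i) : Fin (d + 1) → MvPolynomial (Fin d) ℂ) Q = g := by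
    rw [hQ, map_sum]
    conv_rhs => rw [← sum_homogeneousComponent g]
    refine Finset.sum_congr rfl fun k _ => ?_
    rw [map_mul, map_pow, aeval_X, aeval_rename]
    have h7 : ((Fin.cases 1 (fun i => X i) : Fin (d + 1) → MvPolynomial (Fin d) ℂ) ∘ Fin.succ) =
        X := rfl
    rw [h7, aeval_X_left_apply]
    show _ * (1 : MvPolynomial (Fin d) ℂ) ^ (N - k) = _
    rw [one_pow, mul_one]
  rw [← h6, hQz, map_zero]

/-- roots of complex polynomials in a field extension are complex -/
lemma complex_root {K : Type} [Field K] [Algebra ℂ K] (P : Polynomial ℂ) (hP : P ≠ 0)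
    (x : K) (h : Polynomial.aeval x P = 0) : ∃ c : ℂ, x = algebraMap ℂ K c := by
  have hs := (IsAlgClosed.splits P).eq_prod_roots
  rw [Polynomial.aeval_def, hs, Polynomial.eval₂_mul, Polynomial.eval₂_C, mul_eq_zero] at h
  rcases h with h | h
  · exact absurd ((map_eq_zero (algebraMap ℂ K)).1 h) (Polynomial.leadingCoeff_ne_zero.2 hP)
  · rw [Polynomial.eval₂_multiset_prod, Multiset.prod_eq_zero_iff, Multiset.map_map,
      Multiset.mem_map] at h
    obtain ⟨a, -, ha⟩ := h
    refine ⟨a, ?_⟩
    simp only [Function.comp_apply, Polynomial.eval₂_sub, Polynomial.eval₂_X,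
      Polynomial.eval₂_C] at ha
    exact sub_eq_zero.1 ha

/-- a form algebraic over one form is proportional to it -/
lemma proportional_of_algebraic {K : Type} [Field K] [Algebra ℂ K] {n e q r : ℕ}
    (hq : CountRel n e q) (h : r + (0 + 1) = n + 1)
    (w : Fin (0 + 1) → MvPolynomial (Fin (n + 1)) ℂ) (hw : ∀ l, (w l).IsHomogeneous e)
    (τ : Fin r → Fin (n + 1))
    (hind : AlgebraicIndependent ℂ
      (Sum.elim (fun i => (X (τ i) : MvPolynomial (Fin (n + 1)) ℂ) ^ e) w))
    (y : Fin (n + 1) → K)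
    (hnd : ∀ (k : ℕ) (Q : MvPolynomial (Fin (n + 1)) ℂ), Q.IsHomogeneous k → aeval y Q = 0 → Q = 0)
    (P : MvPolynomial (Fin (n + 1)) ℂ) (hP : P.IsHomogeneous e) (hP0 : P ≠ 0)
    (hPa : IsAlgebraic (Algebra.adjoin ℂ (Set.range w)) P) : ∃ z : ℂ, P = C z * w 0 := by
  classical
  have hwi : AlgebraicIndependent ℂ w := (AlgebraicIndependent.sumElim_iff.1 hind).1
  have hω : aeval y (w 0) ≠ 0 := fun h0 => hwi.ne_zero 0 (hnd e _ (hw 0) h0)
  have hxy : ∀ l, aeval y (w l) = aeval y (w 0) * (fun _ => (1 : K)) l := by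
    intro l
    have h1 : l = 0 := Fin.ext (by omega)
    rw [h1, mul_one]
  obtain ⟨q', a, hq', ha, ha0, hrel⟩ := rel_trail hq h w hw τ hind P hP hP0 hPa
  have hrel' := rel_eval w y _ hω (fun _ => (1 : K)) hxy P q' a ha hrel
  have hndx := hnd_x (fun l => aeval y (w l)) (fun _ => (1 : K)) (aeval y (w 0)) hxy
    (hnd_w w hw hwi y hnd)
  have hval : ∀ b : MvPolynomial (Fin (0 + 1)) ℂ, aeval (fun _ => (1 : K)) b =
      algebraMap ℂ K (eval (fun _ => 1) b) := by
    intro b
    have h1 := aeval_algebraMap_apply (R := ℂ) K (fun _ : Fin (0 + 1) => (1 : ℂ)) b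
    have h2 : (fun _ : Fin (0 + 1) => (1 : K)) =
        (algebraMap ℂ K) ∘ (fun _ : Fin (0 + 1) => (1 : ℂ)) := by
      funext i
      exact (map_one _).symm
    rw [h2]
    exact h1
  set f : Polynomial ℂ := ∑ i ∈ Finset.range (q' + 1),
    Polynomial.C (eval (fun _ => 1) (a i)) * Polynomial.X ^ i with hf
  have hf0 : f ≠ 0 := by
    intro h0
    have h1 := congrArg (fun g => Polynomial.coeff g 0) h0
    simp only [hf, Polynomial.finsetSum_coeff, Polynomial.coeff_C_mul, Polynomial.coeff_X_pow,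
      Polynomial.coeff_zero] at h1
    rw [Finset.sum_eq_single 0] at h1
    · rw [if_pos rfl, mul_one] at h1
      apply ha0
      refine hndx _ _ (ha 0 (Nat.zero_le _)) ?_
      rw [hval, h1, map_zero]
    · intro j _ hj
      rw [if_neg (Ne.symm hj), mul_zero]
    · intro h
      exact absurd (Finset.mem_range.2 (Nat.succ_pos _)) h
  obtain ⟨z, hz⟩ := complex_root f hf0 (aeval y P / aeval y (w 0)) (by
    rw [hf, map_sum, ← hrel']
    refine Finset.sum_congr rfl fun i _ => ?_
    rw [map_mul, Polynomial.aeval_C, map_pow, Polynomial.aeval_X, hval])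
  refine ⟨z, ?_⟩
  have h1 : P - C z * w 0 = 0 := by
    refine hnd e _ (hP.sub ((hw 0).C_mul z)) ?_
    rw [map_sub, map_mul, aeval_C, ← hz, div_mul_cancel₀ _ hω, sub_self]
  exact sub_eq_zero.1 h1

end Pool.Agent.Campana
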