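import Pool.Agent.Lib_MP_1209e6_mh.CoreG0

/-! Selection of at least two algebraically independent members. -/

set_option autoImplicit false

namespace Pool.Agent.Campana

open MvPolynomial

lemma not_algebraic_form {n e : ℕ} (he : 1 ≤ e) (P : MvPolynomial (Fin (n + 1)) ℂ)
    (hP : P.IsHomogeneous e) (hP0 : P ≠ 0)
    (h : IsAlgebraic (Algebra.adjoin ℂ (∅ : Set (MvPolynomial (Fin (n + 1)) ℂ))) P) : False := by
  have halg : Algebra.IsAlgebraic ℂ
      (Algebra.adjoin ℂ (∅ : Set (MvPolynomial (Fin (n + 1)) ℂ))) := by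
    constructor
    rintro ⟨x, hx⟩
    rw [Algebra.adjoin_empty, Algebra.mem_bot] at hx
    obtain ⟨c, rfl⟩ := hx
    exact isAlgebraic_algebraMap c
  obtain ⟨f, hf0, hf⟩ := h.restrictScalars ℂ
  obtain ⟨c, hc⟩ := complex_root (K := FractionRing (MvPolynomial (Fin (n + 1)) ℂ)) f hf0
    (algebraMap _ _ P) (by
      rw [Polynomial.aeval_algebraMap_apply, hf, map_zero])
  have h1 : P = C c := by
    apply IsFractionRing.injective (MvPolynomial (Fin (n + 1)) ℂ)
      (FractionRing (MvPolynomial (Fin (n + 1)) ℂ))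
    rw [hc]
    rfl
  have h2 := hP.totalDegree hP0
  rw [h1, totalDegree_C] at h2
  omega

theorem select_two {K : Type} [Field K] [Algebra ℂ K] {n e q : ℕ} (he : 1 ≤ e)
    (hq : CountRel n e q) (y : Fin (n + 1) → K)
    (hnd : ∀ (k : ℕ) (Q : MvPolynomial (Fin (n + 1)) ℂ), Q.IsHomogeneous k → aeval y Q = 0 → Q = 0)
    (J : Finset (MvPolynomial (Fin (n + 1)) ℂ))
    (hJ : ∀ P ∈ J, P.IsHomogeneous e ∧ P ≠ 0)
    (hJ2 : ∃ P ∈ J, ∃ P' ∈ J, ∀ z : ℂ, P' ≠ C z * P) :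
    ∃ (d r : ℕ) (w : Fin (d + 1) → MvPolynomial (Fin (n + 1)) ℂ) (τ : Fin r → Fin (n + 1)),
      1 ≤ d ∧ r + (d + 1) = n + 1 ∧ (∀ l, w l ∈ J) ∧
      AlgebraicIndependent ℂ
        (Sum.elim (fun i => (X (τ i) : MvPolynomial (Fin (n + 1)) ℂ) ^ e) w) ∧
      ∀ P ∈ J, IsAlgebraic (Algebra.adjoin ℂ (Set.range w)) P := by
  obtain ⟨P, hP, P', hP', hPP⟩ := hJ2
  obtain ⟨b, r, w, τ, hrb, hwJ, hind, halg⟩ := select_basis he J
  rcases b with _ | _ | d
  · exfalso
    refine not_algebraic_form he P (hJ P hP).1 (hJ P hP).2 ?_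
    have h1 := halg P hP
    rwa [Set.range_eq_empty] at h1
  · exfalso
    have hw : ∀ l, (w l).IsHomogeneous e := fun l => (hJ _ (hwJ l)).1
    obtain ⟨z, hz⟩ := proportional_of_algebraic hq hrb w hw τ hind y hnd P (hJ P hP).1 (hJ P hP).2
      (halg P hP)
    obtain ⟨z', hz'⟩ := proportional_of_algebraic hq hrb w hw τ hind y hnd P' (hJ P' hP').1
      (hJ P' hP').2 (halg P' hP')
    have hz0 : z ≠ 0 := by
      rintro rfl
      apply (hJ P hP).2
      rw [hz, map_zero, zero_mul]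
    apply hPP (z' / z)
    rw [hz', hz, ← mul_assoc, ← map_mul, div_mul_cancel₀ _ hz0]
  · exact ⟨d + 1, r, w, τ, by omega, hrb, hwJ, hind, halg⟩

end Pool.Agent.Campana
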