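import Mathlib

/-! Algebraic relations of bounded degree between forms. -/

set_option autoImplicit false

namespace Pool.Agent.Campana

open MvPolynomial

private noncomputable def cexp {k : ℕ} (q : ℕ) (a : Fin k → ℕ) : Fin (k + 1) →₀ ℕ :=
  Finsupp.equivFunOnFinite.symm (Fin.cons (q - ∑ i, a i) a)

private lemma cexp_zero {k : ℕ} (q : ℕ) (a : Fin k → ℕ) : cexp q a 0 = q - ∑ i, a i := rfl

private lemma cexp_succ {k : ℕ} (q : ℕ) (a : Fin k → ℕ) (i : Fin k) : cexp q a i.succ = a i := rfl

private lemma cexp_inj {k : ℕ} {q : ℕ} {a b : Fin k → ℕ} (h : cexp q a = cexp q b) : a = b := by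
  funext i
  rw [← cexp_succ q a, h, cexp_succ]

/-- any `n + 2` forms of degree `e` in `n + 1` variables satisfy a homogeneous relation of bounded
degree -/
theorem count_rel (n e : ℕ) : ∃ q : ℕ, 1 ≤ q ∧
    ∀ g : Fin (n + 2) → MvPolynomial (Fin (n + 1)) ℂ, (∀ i, (g i).IsHomogeneous e) →
      ∃ f : MvPolynomial (Fin (n + 2)) ℂ, f ≠ 0 ∧ f.IsHomogeneous q ∧ aeval g f = 0 := by
  classical
  set c := e * (n + 1) + 1 with hc
  set q' := c ^ n with hq'
  have hq'1 : 1 ≤ q' := Nat.one_le_pow _ _ (by omega)
  set q := (n + 1) * q' with hq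
  refine ⟨q, Nat.mul_pos (Nat.succ_pos n) hq'1, fun g hg => ?_⟩
  let S := Fin (n + 1) → Fin (q' + 1)
  let T := Fin n → Fin (e * q + 1)
  have hsum : ∀ a : S, ∑ i, (a i : ℕ) ≤ q := by
    intro a
    calc ∑ i, (a i : ℕ) ≤ ∑ _i : Fin (n + 1), q' :=
          Finset.sum_le_sum fun i _ => Nat.lt_succ_iff.1 (a i).2
      _ = q := by simp [hq]
  let ex : S → (Fin (n + 2) →₀ ℕ) := fun a => cexp q fun i => (a i : ℕ)
  have hexd : ∀ a, (ex a).degree = q := by
    intro a
    rw [Finsupp.degree_eq_sum, Fin.sum_univ_succ]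
    simp only [ex, cexp_zero, cexp_succ]
    have := hsum a
    omega
  have hexi : Function.Injective ex := by
    intro a b h
    have h1 := cexp_inj h
    funext i
    exact Fin.ext (congrFun h1 i)
  let G : S → MvPolynomial (Fin (n + 1)) ℂ := fun a => aeval g (monomial (ex a) (1 : ℂ))
  have hGh : ∀ a, (G a).IsHomogeneous (e * q) := by
    intro a
    simp only [G]
    rw [aeval_monomial, map_one, one_mul, Finsupp.prod_fintype _ _ (by simp)]
    have h1 := IsHomogeneous.prod (R := ℂ) (σ := Fin (n + 1)) (Finset.univ : Finset (Fin (n + 2)))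
      (fun i => g i ^ (ex a i)) (fun i => e * ex a i) (fun i _ => (hg i).pow _)
    rw [← Finset.mul_sum, ← Finsupp.degree_eq_sum, hexd] at h1
    exact h1
  let ex' : T → (Fin (n + 1) →₀ ℕ) := fun b => cexp (e * q) fun i => (b i : ℕ)
  let M : (S → ℂ) →ₗ[ℂ] (T → ℂ) :=
    { toFun := fun p b => coeff (ex' b) (∑ a, p a • G a)
      map_add' := by
        intro p p'
        funext b
        simp only [Pi.add_apply, add_smul, Finset.sum_add_distrib, coeff_add]
      map_smul' := by
        intro s p
        funext b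
        simp only [Pi.smul_apply, smul_eq_mul, mul_smul, ← Finset.smul_sum, coeff_smul,
          RingHom.id_apply] }
  have hcard : Module.finrank ℂ (T → ℂ) < Module.finrank ℂ (S → ℂ) := by
    rw [Module.finrank_fintype_fun_eq_card, Module.finrank_fintype_fun_eq_card]
    simp only [T, S, Fintype.card_fun, Fintype.card_fin]
    have h1 : e * q + 1 ≤ c * q' := by
      rw [hq, hc]
      nlinarith
    calc (e * q + 1) ^ n ≤ (c * q') ^ n := Nat.pow_le_pow_left h1 n
      _ = q' * q' ^ n := by rw [mul_pow, ← hq']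
      _ = q' ^ (n + 1) := by rw [pow_succ, mul_comm]
      _ < (q' + 1) ^ (n + 1) := Nat.pow_lt_pow_left (Nat.lt_succ_self _) (Nat.succ_ne_zero n)
  have hker := LinearMap.ker_ne_bot_of_finrank_lt (f := M) hcard
  obtain ⟨p, hp, hp0⟩ := Submodule.exists_mem_ne_zero_of_ne_bot hker
  rw [LinearMap.mem_ker] at hp
  refine ⟨∑ a, monomial (ex a) (p a), ?_, ?_, ?_⟩
  · intro h0
    apply hp0
    funext a
    have h1 := congrArg (coeff (ex a)) h0
    rw [coeff_sum, coeff_zero, Finset.sum_eq_single a] at h1
    · rw [coeff_monomial, if_pos rfl] at h1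
      exact h1
    · intro b _ hb
      rw [coeff_monomial, if_neg (fun h => hb (hexi h))]
    · simp
  · apply IsHomogeneous.sum
    intro a _
    exact isHomogeneous_monomial _ (hexd a)
  · have h1 : aeval g (∑ a, monomial (ex a) (p a)) = ∑ a, p a • G a := by
      rw [map_sum]
      refine Finset.sum_congr rfl fun a _ => ?_
      simp only [G]
      rw [← map_smul, smul_monomial, smul_eq_mul, mul_one]
    rw [h1]
    have hh : (∑ a, p a • G a).IsHomogeneous (e * q) := by
      apply IsHomogeneous.sum
      intro a _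
      rw [smul_eq_C_mul]
      exact (hGh a).C_mul _
    ext m
    rw [coeff_zero]
    by_contra hne
    have hd := hh.degree_eq_sum_deg_support (mem_support_iff.2 hne)
    have hd' : ∑ i, m i = e * q := by
      rw [hd, ← Finsupp.degree_eq_sum, Finsupp.degree_apply]
    rw [Fin.sum_univ_succ] at hd'
    have hb : ∀ i : Fin n, m i.succ < e * q + 1 := by
      intro i
      have := Finset.single_le_sum (f := fun i : Fin n => m i.succ) (fun _ _ => Nat.zero_le _)
        (Finset.mem_univ i)
      omega
    let b : T := fun i => ⟨m i.succ, hb i⟩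
    have hmb : ex' b = m := by
      ext i
      refine Fin.cases ?_ (fun i => ?_) i
      · simp only [ex', cexp_zero, b]
        omega
      · simp only [ex', cexp_succ, b]
    have h2 := congrFun hp b
    apply hne
    rw [← hmb]
    exact h2

end Pool.Agent.Campana
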