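import Pool.Agent.Lib_MP_1209e6_mh.Sqf

/-! The forms vanishing at a place with log discrepancy one are the multiples of one form. -/

set_option autoImplicit false

namespace Pool.Agent.Campana

open MvPolynomial

theorem vanish_irreducible {K : Type} [Field K] [Algebra ℂ K] {O : ValuationSubring K}
    (hO : IsPlace O) {v : K → ℤ} (hv : IsOrd O v) {n : ℕ} (x : Fin (n + 1) → K)
    (hx : ∀ j, x j ∈ O)
    (hnd : ∀ (d : ℕ) (Q : MvPolynomial (Fin (n + 1)) ℂ), Q.IsHomogeneous d → aeval x Q = 0 → Q = 0)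
    (E : Fin n → Derivation ℂ K K) (hE : ∀ i, ∀ a ∈ O, E i a ∈ O)
    (hdet : (wrM x E).det ≠ 0) (hv0 : v (wrM x E).det = 0)
    (k : ℕ) (P : MvPolynomial (Fin (n + 1)) ℂ) (hP : P.IsHomogeneous k) (hP0 : P ≠ 0)
    (hPv : 1 ≤ v (aeval x P)) :
    ∃ (d' : ℕ) (π : MvPolynomial (Fin (n + 1)) ℂ), Irreducible π ∧ π.IsHomogeneous d' ∧
      v (aeval x π) = 1 ∧ π ∣ P ∧ ∀ (d'' : ℕ) (g : MvPolynomial (Fin (n + 1)) ℂ),
        g.IsHomogeneous d'' → g ≠ 0 → 1 ≤ v (aeval x g) → π ∣ g := by
  obtain ⟨t, ht0, hvt⟩ := hv.2.2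
  have htO : t ∈ O := by
    rw [hv.2.1 t ht0, hvt]
    norm_num
  set Δ := (wrM x E).det with hΔ
  have hΔi : Δ⁻¹ ∈ O := by
    rw [hv.2.1 _ (inv_ne_zero hdet), F_ord_inv hv _ hdet, hv0]
    norm_num
  have hmem1 : ∀ a : K, a ≠ 0 → (a / t ∈ O ↔ 1 ≤ v a) := by
    intro a ha
    rw [hv.2.1 _ (div_ne_zero ha ht0), div_eq_mul_inv, hv.1 _ _ ha (inv_ne_zero ht0),
      F_ord_inv hv t ht0, hvt]
    omega
  -- the maximal ideal
  have hmadd : ∀ a b : K, a / t ∈ O → b / t ∈ O → (a + b) / t ∈ O := by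
    intro a b ha hb
    rw [add_div]
    exact O.add_mem _ _ ha hb
  have hmmul : ∀ a b : K, a ∈ O → b / t ∈ O → (a * b) / t ∈ O := by
    intro a b ha hb
    rw [mul_div_assoc]
    exact O.mul_mem _ _ ha hb
  have hprime : ∀ a b : K, a ∈ O → b ∈ O → (a * b) / t ∈ O → a / t ∈ O ∨ b / t ∈ O := by
    intro a b ha hb hab
    by_cases ha0 : a = 0
    · left
      rw [ha0, zero_div]
      exact O.zero_mem
    by_cases hb0 : b = 0
    · right
      rw [hb0, zero_div]
      exact O.zero_mem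
    rw [hmem1 _ (mul_ne_zero ha0 hb0), hv.1 _ _ ha0 hb0] at hab
    rw [hmem1 a ha0, hmem1 b hb0]
    have h1 := (hv.2.1 a ha0).1 ha
    have h2 := (hv.2.1 b hb0).1 hb
    omega
  have h1t : ∀ c : ℂ, c ≠ 0 → ¬ algebraMap ℂ K c / t ∈ O := by
    intro c hc h
    rw [hmem1 _ ((map_ne_zero _).2 hc), ord_const hO hv c hc] at h
    omega
  -- the conormal vector
  set bb : Fin (n + 1) → K := fun j => ∑ i : Fin n, (wrM x E).adjugate j i.succ * E i t with hbb
  have hgrad : ∀ (d : ℕ) (Q : MvPolynomial (Fin (n + 1)) ℂ), Q.IsHomogeneous d →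
      aeval x Q / t ∈ O → ∀ j,
        (Δ * aeval x (pderiv j Q) - aeval x Q / t * bb j) / t ∈ O := by
    intro d Q hQ hQt j
    set q := aeval x Q / t with hq
    have hQq : aeval x Q = t * q := by
      rw [hq]
      field_simp
    have h1 := det_grad x E Q d hQ j
    rw [← hΔ] at h1
    have h2 : ∀ i, E i (aeval x Q) = t * E i q + q * E i t := by
      intro i
      rw [hQq, Derivation.leibniz]
      rfl
    have h3 : (Δ * aeval x (pderiv j Q) - q * bb j) / t =
        (wrM x E).adjugate j 0 * ((d : K) * q) +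
        ∑ i : Fin n, (wrM x E).adjugate j i.succ * E i q := by
      rw [h1]
      simp only [h2, hbb, mul_add, Finset.sum_add_distrib]
      rw [hQq, div_eq_iff ht0, add_mul, Finset.sum_mul, Finset.mul_sum]
      have h4 : ∑ i : Fin n, (wrM x E).adjugate j i.succ * (q * E i t) =
          ∑ i : Fin n, q * ((wrM x E).adjugate j i.succ * E i t) :=
        Finset.sum_congr rfl fun i _ => by ring
      have h5 : ∑ i : Fin n, (wrM x E).adjugate j i.succ * (t * E i q) =
          ∑ i : Fin n, (wrM x E).adjugate j i.succ * E i q * t :=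
        Finset.sum_congr rfl fun i _ => by ring
      rw [h4, h5]
      ring
    rw [h3]
    refine O.add_mem _ _ (O.mul_mem _ _ (adj_mem x hx E hE _ _)
      (O.mul_mem _ _ (natCast_mem O d) hQt)) (sum_mem fun i _ =>
        O.mul_mem _ _ (adj_mem x hx E hE _ _) (hE i q hQt))
  -- if the conormal vector (times the leading part) vanishes then so does the gradient
  have hgrad0 : ∀ (d : ℕ) (Q : MvPolynomial (Fin (n + 1)) ℂ), Q.IsHomogeneous d →
      aeval x Q / t ∈ O → ∀ j, (aeval x Q / t * bb j) / t ∈ O →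
        aeval x (pderiv j Q) / t ∈ O := by
    intro d Q hQ hQt j hb
    have h1 := hmadd _ _ (hgrad d Q hQ hQt j) hb
    have h2 : Δ * aeval x (pderiv j Q) - aeval x Q / t * bb j + aeval x Q / t * bb j =
        Δ * aeval x (pderiv j Q) := by ring
    rw [h2] at h1
    have h3 := hmmul Δ⁻¹ _ hΔi h1
    rwa [← mul_assoc, inv_mul_cancel₀ hdet, one_mul] at h3
  have hzero : ∀ (Q : MvPolynomial (Fin (n + 1)) ℂ), Q.IsHomogeneous 0 → aeval x Q / t ∈ O →
      Q = 0 := by
    intro Q hQ hQt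
    have h1 : Q = C (coeff 0 Q) := by
      rw [← totalDegree_zero_iff_isHomogeneous] at hQ
      exact totalDegree_eq_zero_iff_eq_C.1 hQ
    by_contra hne
    have h2 : coeff 0 Q ≠ 0 := by
      intro h0
      rw [h0, map_zero] at h1
      exact hne h1
    rw [h1, aeval_C] at hQt
    exact h1t _ h2 hQt
  have hbbO : ∀ j, bb j ∈ O := fun j => sum_mem fun i _ =>
    O.mul_mem _ _ (adj_mem x hx E hE _ _) (hE i t htO)
  have hPx : aeval x P ≠ 0 := fun h => hP0 (hnd _ P hP h)
  have hPt : aeval x P / t ∈ O := (hmem1 _ hPx).2 hPv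
  -- some entry of the conormal vector is a unit
  obtain ⟨j, hj⟩ : ∃ j, ¬ bb j / t ∈ O := by
    by_contra hall
    push Not at hall
    have hstep : ∀ (d : ℕ) (Q : MvPolynomial (Fin (n + 1)) ℂ), Q.IsHomogeneous d →
        aeval x Q / t ∈ O → Q = 0 := by
      intro d
      induction d with
      | zero => exact hzero
      | succ d ih =>
        intro Q hQ hQt
        by_contra hne
        obtain ⟨l, hl⟩ := exists_pderiv_ne Q hQ hne
        exact hl (ih _ hQ.pderiv (hgrad0 _ Q hQ hQt l (hmmul _ _ hQt (hall l))))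
    exact hP0 (hstep k P hP hPt)
  -- no form without the variable `j` vanishes
  have hfree : ∀ (d : ℕ) (R : MvPolynomial (Fin (n + 1)) ℂ), R.IsHomogeneous d →
      pderiv j R = 0 → aeval x R / t ∈ O → R = 0 := by
    intro d
    induction d with
    | zero => exact fun R hR _ hRt => hzero R hR hRt
    | succ d ih =>
      intro R hR hRj hRt
      by_contra hne
      have h1 := hgrad _ R hR hRt j
      rw [hRj, map_zero, mul_zero, zero_sub, neg_div, neg_mem_iff] at h1
      have h2 := (hprime _ _ hRt (hbbO j) h1).resolve_right hj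
      obtain ⟨l, hl⟩ := exists_pderiv_ne R hR hne
      refine hl (ih _ hR.pderiv ?_ (hgrad0 _ R hR hRt l ?_))
      · ext m
        have h3 := coeff_pderiv (i := j) R (m + Finsupp.single l 1)
        rw [hRj, coeff_zero] at h3
        have h4 : coeff (m + Finsupp.single l 1 + Finsupp.single j 1) R = 0 := by
          rcases mul_eq_zero.1 h3.symm with h5 | h5
          · exact h5
          · exact absurd h5 (Nat.cast_add_one_ne_zero _)
        rw [coeff_pderiv, coeff_pderiv, coeff_zero, add_right_comm, h4, zero_mul, zero_mul]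
      · rw [mul_comm]
        exact hmmul _ _ (hbbO l) h2
  -- irreducible forms vanishing at the place divide all such forms
  have hdvd : ∀ (d d' : ℕ) (π g : MvPolynomial (Fin (n + 1)) ℂ), Irreducible π →
      π.IsHomogeneous d → g.IsHomogeneous d' → aeval x π / t ∈ O → aeval x g / t ∈ O → π ∣ g := by
    intro d d' π g hπ hπd hgd hπt hgt
    by_contra hnd'
    obtain ⟨k', R, a, b, hRk, hR0, hRe, hRj⟩ := elim_hom j π g d d' hπ hnd' hπd hgd
    refine hR0 (hfree k' R hRk hRj ?_)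
    rw [hRe, map_add, map_mul, map_mul]
    exact hmadd _ _ (hmmul _ _ (aeval_mem hO x hx a) hπt) (hmmul _ _ (aeval_mem hO x hx b) hgt)
  -- an irreducible factor vanishing at the place
  have hfac : ∀ (d : ℕ) (Q : MvPolynomial (Fin (n + 1)) ℂ), Q.IsHomogeneous d → Q ≠ 0 →
      aeval x Q / t ∈ O → ∃ (d' : ℕ) (π : MvPolynomial (Fin (n + 1)) ℂ), Irreducible π ∧
        π.IsHomogeneous d' ∧ aeval x π / t ∈ O ∧ π ∣ Q := by
    intro d
    induction d using Nat.strong_induction_on with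
    | _ d ih =>
    intro Q hQ hQ0 hQt
    have hunit : ∀ (e : ℕ) (B : MvPolynomial (Fin (n + 1)) ℂ), B.IsHomogeneous e → B ≠ 0 →
        e = 0 → IsUnit B := by
      rintro e B hB hB0 rfl
      have h1 : B = C (coeff 0 B) := by
        rw [← totalDegree_zero_iff_isHomogeneous] at hB
        exact totalDegree_eq_zero_iff_eq_C.1 hB
      have h2 : coeff 0 B ≠ 0 := by
        intro h0
        rw [h0, map_zero] at h1
        exact hB0 h1
      rw [h1]
      exact (isUnit_iff_ne_zero.2 h2).map C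
    by_cases hirr : Irreducible Q
    · exact ⟨d, Q, hirr, hQ, hQt, dvd_rfl⟩
    have hnu : ¬ IsUnit Q := by
      intro hu
      obtain ⟨B, hB⟩ := isUnit_iff_exists_inv.1 hu
      have h1 := congrArg (aeval x) hB
      rw [map_mul, map_one] at h1
      have h2 := hmmul _ _ (aeval_mem hO x hx B) hQt
      rw [mul_comm, h1] at h2
      have h3 := h1t 1 one_ne_zero
      rw [map_one] at h3
      exact h3 h2
    rw [irreducible_iff] at hirr
    push Not at hirr
    obtain ⟨A, B, hAB, hA, hB⟩ := hirr hnu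
    have hAB0 : A * B ≠ 0 := by rw [← hAB]; exact hQ0
    obtain ⟨d₁, d₂, hdd, hAd, hBd⟩ := Pool.Agent.SQ.homogeneous_of_mul (d := d) (g := A) (h := B)
      (by rw [← hAB]; exact hQ) hAB0
    have hA0 : A ≠ 0 := left_ne_zero_of_mul hAB0
    have hB0 : B ≠ 0 := right_ne_zero_of_mul hAB0
    have hd1 : d₁ ≠ 0 := fun h => hA (hunit _ A hAd hA0 h)
    have hd2 : d₂ ≠ 0 := fun h => hB (hunit _ B hBd hB0 h)
    rw [hAB, map_mul] at hQt
    rcases hprime _ _ (aeval_mem hO x hx A) (aeval_mem hO x hx B) hQt with h | h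
    · obtain ⟨d', π, h1, h2, h3, h4⟩ := ih d₁ (by omega) A hAd hA0 h
      exact ⟨d', π, h1, h2, h3, h4.trans ⟨B, hAB⟩⟩
    · obtain ⟨d', π, h1, h2, h3, h4⟩ := ih d₂ (by omega) B hBd hB0 h
      exact ⟨d', π, h1, h2, h3, h4.trans ⟨A, by rw [hAB]; ring⟩⟩
  obtain ⟨d', π, hπ, hπd, hπt, hπP⟩ := hfac k P hP hP0 hPt
  have hπx : aeval x π ≠ 0 := fun h => hπ.ne_zero (hnd _ π hπd h)
  refine ⟨d', π, hπ, hπd, ?_, hπP, ?_⟩
  · have h1 := ord_squarefree hO hv x hx hnd E hE hdet hv0 d' π hπd hπ.squarefree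
    have h2 := (hmem1 _ hπx).1 hπt
    omega
  · intro d'' g hg hg0 hgv
    have hgx : aeval x g ≠ 0 := fun h => hg0 (hnd _ g hg h)
    exact hdvd d' d'' π g hπ hπd hg hπt ((hmem1 _ hgx).2 hgv)

end Pool.Agent.Campana
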