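import Pool.Agent.Lib_MP_1209e6_mh.RelA

/-! Relations of bounded degree. -/

set_option autoImplicit false

namespace Pool.Agent.Campana

open MvPolynomial

/-- the value at the forms `X_τ ^ e` and `w` -/
noncomputable def evR {n r d : ℕ} (e : ℕ) (w : Fin (d + 1) → MvPolynomial (Fin (n + 1)) ℂ)
    (τ : Fin r → Fin (n + 1)) : MvPolynomial (Fin r) (MvPolynomial (Fin (d + 1)) ℂ) →+*
      MvPolynomial (Fin (n + 1)) ℂ :=
  eval₂Hom ((aeval w : MvPolynomial (Fin (d + 1)) ℂ →ₐ[ℂ] MvPolynomial (Fin (n + 1)) ℂ) :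
    MvPolynomial (Fin (d + 1)) ℂ →+* MvPolynomial (Fin (n + 1)) ℂ) fun i => X (τ i) ^ e

lemma evR_C {n r d : ℕ} (e : ℕ) (w : Fin (d + 1) → MvPolynomial (Fin (n + 1)) ℂ)
    (τ : Fin r → Fin (n + 1)) (a : MvPolynomial (Fin (d + 1)) ℂ) :
    evR e w τ (C a) = aeval w a := by
  rw [evR, eval₂Hom_C]
  rfl

lemma evR_X {n r d : ℕ} (e : ℕ) (w : Fin (d + 1) → MvPolynomial (Fin (n + 1)) ℂ)
    (τ : Fin r → Fin (n + 1)) (i : Fin r) : evR e w τ (X i) = X (τ i) ^ e := by
  rw [evR, eval₂Hom_X']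

/-- the bound of `count_rel` -/
def CountRel (n e q : ℕ) : Prop :=
  1 ≤ q ∧ ∀ g : Fin (n + 2) → MvPolynomial (Fin (n + 1)) ℂ, (∀ i, (g i).IsHomogeneous e) →
      ∃ f : MvPolynomial (Fin (n + 2)) ℂ, f ≠ 0 ∧ f.IsHomogeneous q ∧ aeval g f = 0

theorem rel_poly {n e q r d : ℕ} (hq : CountRel n e q) (h : r + (d + 1) = n + 1)
    (w : Fin (d + 1) → MvPolynomial (Fin (n + 1)) ℂ) (hw : ∀ l, (w l).IsHomogeneous e)
    (τ : Fin r → Fin (n + 1)) (x : MvPolynomial (Fin (n + 1)) ℂ) (hx : x.IsHomogeneous e) :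
    ∃ F : Polynomial (MvPolynomial (Fin (n + 1)) ℂ), F ≠ 0 ∧
      (∀ i j, i + j = q → (F.coeff i).IsHomogeneous j) ∧ F.natDegree ≤ q ∧
      F.eval₂ ((evR e w τ).comp (kap h).toAlgHom.toRingHom) x = 0 := by
  obtain ⟨f, hf0, hfh, hf⟩ := hq.2 (Fin.cons x fun k => evR e w τ (kap h (X k))) (by
    intro i
    refine Fin.cases ?_ (fun k => ?_) i
    · exact hx
    · rw [Fin.cons_succ, kap_X]
      rcases finSumFinEquiv.symm ((finCongr h).symm k) with i | l
      · rw [Sum.elim_inl, evR_X]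
        have := (isHomogeneous_X ℂ (τ i)).pow e
        rwa [one_mul] at this
      · rw [Sum.elim_inr, evR_C, aeval_X]
        exact hw l)
  refine ⟨finSuccEquiv ℂ (n + 1) f, ?_, ?_, ?_, ?_⟩
  · intro h0
    exact hf0 ((map_eq_zero_iff _ (finSuccEquiv ℂ (n + 1)).injective).1 h0)
  · intro i j hij
    exact hfh.finSuccEquiv_coeff_isHomogeneous i j hij
  · rw [natDegree_finSuccEquiv]
    exact (degreeOf_le_totalDegree f 0).trans hfh.totalDegree_le
  · have h1 : (Polynomial.eval₂RingHom ((evR e w τ).comp (kap h).toAlgHom.toRingHom) x).comp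
        (finSuccEquiv ℂ (n + 1)).toAlgHom.toRingHom =
        ((aeval (Fin.cons x fun k => evR e w τ (kap h (X k))) :
          MvPolynomial (Fin (n + 2)) ℂ →ₐ[ℂ] MvPolynomial (Fin (n + 1)) ℂ) :
          MvPolynomial (Fin (n + 2)) ℂ →+* MvPolynomial (Fin (n + 1)) ℂ) := by
      apply MvPolynomial.ringHom_ext
      · intro a
        show (finSuccEquiv ℂ (n + 1) (C a)).eval₂ _ _ = aeval _ (C a)
        have h2 : finSuccEquiv ℂ (n + 1) (C a) = Polynomial.C (C a) :=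
          (finSuccEquiv ℂ (n + 1)).commutes a
        rw [h2, Polynomial.eval₂_C, aeval_C]
        show evR e w τ (kap h (C a)) = _
        rw [kap_C, evR_C, aeval_C]
      · intro k
        show (finSuccEquiv ℂ (n + 1) (X k)).eval₂ _ _ = aeval _ (X k)
        rw [aeval_X]
        refine Fin.cases ?_ (fun k => ?_) k
        · rw [finSuccEquiv_X_zero, Polynomial.eval₂_X]
          rfl
        · rw [finSuccEquiv_X_succ, Polynomial.eval₂_C]
          rfl
    have h3 := congrArg (fun g => g f) h1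
    exact h3.trans hf

/-- relation with controlled leading coefficient -/
theorem rel_lead {n e q r d : ℕ} (hq : CountRel n e q) (h : r + (d + 1) = n + 1)
    (w : Fin (d + 1) → MvPolynomial (Fin (n + 1)) ℂ) (hw : ∀ l, (w l).IsHomogeneous e)
    (τ : Fin r → Fin (n + 1)) (x : MvPolynomial (Fin (n + 1)) ℂ) (hx : x.IsHomogeneous e) :
    ∃ (F : Polynomial (MvPolynomial (Fin r) (MvPolynomial (Fin (d + 1)) ℂ))) (ξ : Fin r → ℂ)
      (g : ℕ), F.eval₂ (evR e w τ) x = 0 ∧ g ≤ q ∧ (spec ξ F.leadingCoeff).IsHomogeneous g ∧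
        spec ξ F.leadingCoeff ≠ 0 := by
  obtain ⟨F, hF0, hFh, hFq, hF⟩ := rel_poly hq h w hw τ x hx
  obtain ⟨ξ, hξ⟩ := exists_spec_ne h F.leadingCoeff (Polynomial.leadingCoeff_ne_zero.2 hF0)
  refine ⟨F.map (kap h).toAlgHom.toRingHom, ξ, q - F.natDegree, ?_, Nat.sub_le _ _, ?_, ?_⟩
  · rw [Polynomial.eval₂_map]
    exact hF
  · rw [Polynomial.leadingCoeff_map_of_injective (kap h).injective]
    exact spec_hom h ξ _ (hFh _ _ (by omega))
  · rw [Polynomial.leadingCoeff_map_of_injective (kap h).injective]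
    exact hξ

/-- relation with nonzero constant term for the algebraic members -/
theorem rel_trail {n e q r d : ℕ} (hq : CountRel n e q) (h : r + (d + 1) = n + 1)
    (w : Fin (d + 1) → MvPolynomial (Fin (n + 1)) ℂ) (hw : ∀ l, (w l).IsHomogeneous e)
    (τ : Fin r → Fin (n + 1))
    (hind : AlgebraicIndependent ℂ
      (Sum.elim (fun i => (X (τ i) : MvPolynomial (Fin (n + 1)) ℂ) ^ e) w))
    (P : MvPolynomial (Fin (n + 1)) ℂ) (hP : P.IsHomogeneous e) (hP0 : P ≠ 0)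
    (hPa : IsAlgebraic (Algebra.adjoin ℂ (Set.range w)) P) :
    ∃ (q' : ℕ) (a : ℕ → MvPolynomial (Fin (d + 1)) ℂ), q' ≤ q ∧
      (∀ i, i ≤ q' → (a i).IsHomogeneous (q' - i)) ∧ a 0 ≠ 0 ∧
      ∑ i ∈ Finset.range (q' + 1), aeval w (a i) * P ^ i = 0 := by
  obtain ⟨F, hF0, hFh, hFq, hF⟩ := rel_poly hq h w hw τ P hP
  set i₀ := F.natTrailingDegree with hi₀
  have hc0 : F.coeff i₀ ≠ 0 := by
    have := Polynomial.trailingCoeff_nonzero_iff_nonzero.2 hF0
    exact this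
  have hi₀q : i₀ ≤ q := (Polynomial.natTrailingDegree_le_natDegree F).trans hFq
  obtain ⟨ξ, hξ⟩ := exists_spec_ne h (F.coeff i₀) hc0
  have hrel := relation_specialize w (fun i => (X (τ i) : MvPolynomial (Fin (n + 1)) ℂ) ^ e)
    hind P hPa (F.map (kap h).toAlgHom.toRingHom) (by
      rw [Polynomial.eval₂_map]
      exact hF) (fun i => aeval w (C (ξ i) * X 0 : MvPolynomial (Fin (d + 1)) ℂ)) (by
      intro i
      have h1 : aeval w (C (ξ i) * X 0 : MvPolynomial (Fin (d + 1)) ℂ) ∈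
          Algebra.adjoin ℂ (Set.range w) := by
        rw [map_mul, aeval_C, aeval_X]
        exact Subalgebra.mul_mem _ (Subalgebra.algebraMap_mem _ _)
          (Algebra.subset_adjoin ⟨0, rfl⟩)
      exact isAlgebraic_algebraMap (⟨_, h1⟩ : Algebra.adjoin ℂ (Set.range w)))
  have hcomp : eval₂Hom ((aeval w : MvPolynomial (Fin (d + 1)) ℂ →ₐ[ℂ]
      MvPolynomial (Fin (n + 1)) ℂ) : MvPolynomial (Fin (d + 1)) ℂ →+* MvPolynomial (Fin (n + 1)) ℂ)
      (fun i => aeval w (C (ξ i) * X 0 : MvPolynomial (Fin (d + 1)) ℂ)) =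
      ((aeval w : MvPolynomial (Fin (d + 1)) ℂ →ₐ[ℂ] MvPolynomial (Fin (n + 1)) ℂ) :
        MvPolynomial (Fin (d + 1)) ℂ →+* MvPolynomial (Fin (n + 1)) ℂ).comp (spec ξ) := by
    apply MvPolynomial.ringHom_ext
    · intro a
      rw [eval₂Hom_C, RingHom.comp_apply, spec, eval₂Hom_C, RingHom.id_apply]
    · intro i
      rw [eval₂Hom_X', RingHom.comp_apply, spec, eval₂Hom_X']
      rfl
  rw [hcomp, Polynomial.eval₂_map] at hrel
  have hsum : ∑ i ∈ Finset.range (q + 1), aeval w (spec ξ (kap h (F.coeff i))) * P ^ i = 0 := by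
    rw [← hrel, Polynomial.eval₂_eq_sum_range' _ (Nat.lt_succ_of_le hFq)]
    rfl
  refine ⟨q - i₀, fun i => spec ξ (kap h (F.coeff (i₀ + i))), Nat.sub_le _ _, ?_, ?_, ?_⟩
  · intro i hi
    exact spec_hom h ξ _ (hFh _ _ (by omega))
  · exact hξ
  · have h1 : q + 1 = i₀ + (q - i₀ + 1) := by omega
    rw [h1, Finset.sum_range_add] at hsum
    rw [Finset.sum_eq_zero, zero_add] at hsum
    · have h2 : P ^ i₀ * ∑ i ∈ Finset.range (q - i₀ + 1),
          aeval w (spec ξ (kap h (F.coeff (i₀ + i)))) * P ^ i = 0 := by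
        rw [← hsum, Finset.mul_sum]
        refine Finset.sum_congr rfl fun i _ => ?_
        rw [pow_add]
        ring
      exact (mul_eq_zero.1 h2).resolve_left (pow_ne_zero _ hP0)
    · intro i hi
      have h3 : F.coeff i = 0 :=
        Polynomial.coeff_eq_zero_of_lt_natTrailingDegree (Finset.mem_range.1 hi)
      rw [h3]
      simp

end Pool.Agent.Campana
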