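import Pool.Agent.Lib_MP_1209e6_mh.Gauss
import Pool.Agent.Lib_MP_1209e6_mh.RelB
import Pool.Agent.Lib_MP_1209e6_mh.DvdV
import Pool.Agent.Lib_MP_1209e6_ag.Embed

/-! A valuation of the function field of projective space over a place of the image. -/

set_option autoImplicit false

namespace Pool.Agent.Campana

open MvPolynomial

lemma val_le_iff {K : Type} [Field K] {O : ValuationSubring K} {v : K → ℤ} (hv : IsOrd O v)
    {x : K} (hx : x ≠ 0) : O.valuation x ≤ 1 ↔ 0 ≤ v x := by
  rw [O.valuation_le_one_iff]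
  exact hv.2.1 x hx

lemma val_lt_iff {K : Type} [Field K] {O : ValuationSubring K} {v : K → ℤ} (hv : IsOrd O v)
    {x : K} (hx : x ≠ 0) : O.valuation x < 1 ↔ 1 ≤ v x := by
  have h1 : O.valuation x < 1 ↔ ¬ O.valuation x⁻¹ ≤ 1 := by
    rw [map_inv₀, inv_le_one₀ (zero_lt_iff.2 ((map_ne_zero _).2 hx)), not_le]
  rw [h1, val_le_iff hv (inv_ne_zero hx), F_ord_inv hv _ hx]
  omega

/-- evaluation at a multiple of homogeneous coordinates, in a larger field -/
lemma aeval_scaled {K L : Type} [Field K] [Field L] [Algebra ℂ K] [Algebra K L] [Algebra ℂ L]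
    [IsScalarTower ℂ K L] {n : ℕ} (T : L) (y : Fin (n + 1) → K) (k : ℕ)
    (Q : MvPolynomial (Fin (n + 1)) ℂ) (hQ : Q.IsHomogeneous k) :
    aeval (fun j => T * algebraMap K L (y j)) Q = T ^ k * algebraMap K L (aeval y Q) := by
  rw [aeval_mul_hom _ _ _ _ hQ]
  congr 1
  exact (aeval_algebraMap_apply L y Q)

/-- the value of a polynomial at a multiple of homogeneous coordinates, as a polynomial in the
factor -/
lemma aeval_scaled_sum {K L : Type} [Field K] [Field L] [Algebra ℂ K] [Algebra K L] [Algebra ℂ L]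
    [IsScalarTower ℂ K L] {n : ℕ} (T : L) (y : Fin (n + 1) → K)
    (Q : MvPolynomial (Fin (n + 1)) ℂ) :
    aeval (fun j => T * algebraMap K L (y j)) Q = ∑ k ∈ Finset.range (Q.totalDegree + 1),
      algebraMap K L (aeval y (homogeneousComponent k Q)) * T ^ k := by
  conv_lhs => rw [← sum_homogeneousComponent Q, map_sum]
  refine Finset.sum_congr rfl fun k _ => ?_
  rw [aeval_scaled T y k _ (homogeneousComponent_isHomogeneous k Q), mul_comm]

lemma aeval_scaled_injective {K L : Type} [Field K] [Field L] [Algebra ℂ K] [Algebra K L]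
    [Algebra ℂ L] [IsScalarTower ℂ K L] {n : ℕ} (T : L) (hT : Transcendental K T)
    (y : Fin (n + 1) → K)
    (hnd : ∀ (k : ℕ) (Q : MvPolynomial (Fin (n + 1)) ℂ), Q.IsHomogeneous k → aeval y Q = 0 → Q = 0) :
    Function.Injective (aeval (R := ℂ) (fun j => T * algebraMap K L (y j))) := by
  rw [injective_iff_map_eq_zero]
  intro Q hQ
  rw [aeval_scaled_sum] at hQ
  set f : Polynomial K := ∑ k ∈ Finset.range (Q.totalDegree + 1),
    Polynomial.C (aeval y (homogeneousComponent k Q)) * Polynomial.X ^ k with hf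
  have h1 : Polynomial.aeval T f = 0 := by
    rw [hf, map_sum, ← hQ]
    refine Finset.sum_congr rfl fun k _ => ?_
    rw [map_mul, Polynomial.aeval_C, map_pow, Polynomial.aeval_X]
  have h2 : f = 0 := transcendental_iff.1 hT f h1
  rw [← sum_homogeneousComponent Q]
  refine Finset.sum_eq_zero fun k hk => ?_
  refine hnd k _ (homogeneousComponent_isHomogeneous k Q) ?_
  have h3 := congrArg (fun g => Polynomial.coeff g k) h2
  simp only [hf, Polynomial.finsetSum_coeff, Polynomial.coeff_C_mul, Polynomial.coeff_X_pow,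
    Polynomial.coeff_zero] at h3
  rw [Finset.sum_eq_single k] at h3
  · simpa using h3
  · intro j _ hj
    rw [if_neg (Ne.symm hj), mul_zero]
  · intro h
    exact absurd hk h

lemma aux_div {L : Type} [Field L] (t a b c u : L) (ht : t ≠ 0) (hb : b ≠ 0) (hc : c ≠ 0)
    (hu : u ≠ 0) : t * a / (u * c) ^ 2 = a / (b * c ^ 2) * (t * b * u⁻¹ ^ 2) := by
  field_simp

theorem double_gauss {K : Type} [Field K] [Algebra ℂ K] {O : ValuationSubring K}
    (hO : IsPlace O) {n e r d : ℕ} (he : 1 ≤ e)
    (w : Fin (d + 1) → MvPolynomial (Fin (n + 1)) ℂ) (hw : ∀ l, (w l).IsHomogeneous e)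
    (τ : Fin r → Fin (n + 1))
    (hind : AlgebraicIndependent ℂ
      (Sum.elim (fun i => (X (τ i) : MvPolynomial (Fin (n + 1)) ℂ) ^ e) w))
    (y : Fin (n + 1) → K)
    (hnd : ∀ (k : ℕ) (Q : MvPolynomial (Fin (n + 1)) ℂ), Q.IsHomogeneous k → aeval y Q = 0 → Q = 0)
    (i₀ : Fin (d + 1)) (x : Fin (d + 1) → K) (hx : ∀ l, x l ∈ O)
    (hxy : ∀ l, aeval y (w l) = aeval y (w i₀) * x l) (hω : aeval y (w i₀) ≠ 0)
    (π : MvPolynomial (Fin (d + 1)) ℂ) (δ : ℕ) (hπd : π.IsHomogeneous δ) (hπ0 : aeval x π ≠ 0)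
    (hπv : O.valuation (aeval x π) < 1)
    (hπ : ∀ (k : ℕ) (g : MvPolynomial (Fin (d + 1)) ℂ), g.IsHomogeneous k →
      O.valuation (aeval x g) < 1 → π ∣ g) :
    ∃ (L : Type) (_ : Field L) (φ : MvPolynomial (Fin (n + 1)) ℂ →+* L) (V : ValuationSubring L),
      Function.Injective φ ∧
      (∀ a, V.valuation (φ (evR e w τ a)) ≤ 1 ∧ (V.valuation (φ (evR e w τ a)) < 1 → C π ∣ a)) ∧
      V.valuation (φ (aeval w π)) < 1 ∧
      ∀ P : MvPolynomial (Fin (n + 1)) ℂ, P.IsHomogeneous e →
        (∃ (q' : ℕ) (a : ℕ → MvPolynomial (Fin (d + 1)) ℂ), a 0 ≠ 0 ∧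
          ∑ i ∈ Finset.range (q' + 1), aeval w (a i) * P ^ i = 0) →
        O.valuation (aeval y P / (aeval y (w i₀) * aeval x π ^ 2)) ≤ 1 →
          V.valuation (φ P) ≤ V.valuation (φ (aeval w π)) ^ 2 := by
  classical
  let L := FractionRing (Polynomial K)
  let T : L := algebraMap (Polynomial K) L Polynomial.X
  have hT : Transcendental K T := by
    rw [transcendental_iff]
    intro p hp
    have h1 : Polynomial.aeval T p = algebraMap (Polynomial K) L p := by
      rw [Polynomial.aeval_algebraMap_apply, Polynomial.aeval_X_left_apply]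
    rw [h1] at hp
    exact (map_eq_zero_iff _ (IsFractionRing.injective (Polynomial K) L)).1 hp
  set yp : Fin (n + 1) → L := fun j => T * algebraMap K L (y j) with hyp
  let φ : MvPolynomial (Fin (n + 1)) ℂ →ₐ[ℂ] L := aeval yp
  have hφ : Function.Injective φ := aeval_scaled_injective T hT y hnd
  set s : Fin (d + 1) → L := fun l => φ (w l) with hs_def
  set s0 := s i₀ with hs0_def
  have hs0 : s0 = T ^ e * algebraMap K L (aeval y (w i₀)) := aeval_scaled T y e _ (hw i₀)
  have hs : ∀ l, s l = s0 * algebraMap K L (x l) := by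
    intro l
    have h1 : s l = T ^ e * algebraMap K L (aeval y (w l)) := aeval_scaled T y e _ (hw l)
    rw [h1, hxy l, hs0, map_mul, mul_assoc]
  have hωL : algebraMap K L (aeval y (w i₀)) ≠ 0 := (map_ne_zero _).2 hω
  have hT0 : T ≠ 0 := by
    intro h0
    apply hT
    rw [h0]
    exact isAlgebraic_zero
  have hs0ne : s0 ≠ 0 := by
    rw [hs0]
    exact mul_ne_zero (pow_ne_zero _ hT0) hωL
  have hs0t : Transcendental K s0 := by
    intro halg
    apply hT
    have h1 : IsAlgebraic K (T ^ e) := by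
      have h2 : T ^ e = s0 * algebraMap K L (aeval y (w i₀))⁻¹ := by
        rw [hs0, map_inv₀, mul_inv_cancel_right₀ hωL]
      rw [h2]
      exact halg.mul (isAlgebraic_algebraMap _)
    exact h1.of_pow (by omega)
  -- the first extension
  let _ : Algebra O L := ((algebraMap K L).comp O.subtype).toAlgebra
  have hs0O : Transcendental O s0 := by
    rw [transcendental_iff]
    intro p hp
    have h1 : Polynomial.aeval s0 (p.map O.subtype) = 0 := by
      rw [Polynomial.aeval_def, Polynomial.eval₂_map]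
      exact hp
    have h2 := transcendental_iff.1 hs0t _ h1
    exact (Polynomial.map_eq_zero_iff Subtype.val_injective).1 h2
  let q0 : Ideal O := vId O.valuation O.subtype fun a => (O.valuation_le_one_iff _).2 a.2
  have hq0 : q0.IsPrime := vId_prime _ _ _
  obtain ⟨V₁, hV₁⟩ := gauss_poly (A₀ := O) s0 hs0O q0
  have hKle : ∀ a ∈ O, V₁.valuation (algebraMap K L a) ≤ 1 := by
    intro a ha
    have h1 := (hV₁ (Polynomial.C ⟨a, ha⟩)).1
    rw [Polynomial.aeval_C] at h1
    exact h1
  have hs01 : V₁.valuation s0 = 1 := by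
    have h1 := hV₁ Polynomial.X
    rw [Polynomial.aeval_X] at h1
    refine le_antisymm h1.1 (not_lt.1 fun h2 => ?_)
    have h3 := h1.2.1 h2 1
    rw [Polynomial.coeff_X_one] at h3
    exact hq0.ne_top ((Ideal.eq_top_iff_one _).2 h3)
  have hxmem : ∀ (b : MvPolynomial (Fin (d + 1)) ℂ), aeval x b ∈ O := fun b => aeval_mem hO x hx b
  have hKC0 : ∀ b : MvPolynomial (Fin (d + 1)) ℂ, V₁.valuation (aeval s b) ≤ 1 ∧
      (V₁.valuation (aeval s b) < 1 → π ∣ b) := by
    intro b
    set f : Polynomial O := ∑ k ∈ Finset.range (b.totalDegree + 1),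
      Polynomial.C (⟨aeval x (homogeneousComponent k b), hxmem _⟩ : O) * Polynomial.X ^ k with hf
    have h1 : aeval s b = Polynomial.aeval s0 f := by
      have h2 : s = fun l => s0 * algebraMap K L (x l) := funext hs
      rw [h2, aeval_scaled_sum, hf, map_sum]
      refine Finset.sum_congr rfl fun k _ => ?_
      rw [map_mul, Polynomial.aeval_C, map_pow, Polynomial.aeval_X]
      rfl
    rw [h1]
    refine ⟨(hV₁ f).1, fun h2 => ?_⟩
    have h3 := (hV₁ f).2.1 h2
    rw [← sum_homogeneousComponent b]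
    refine Finset.dvd_sum fun k hk => hπ k _ (homogeneousComponent_isHomogeneous k b) ?_
    have h4 := h3 k
    have h5 : f.coeff k = (⟨aeval x (homogeneousComponent k b), hxmem _⟩ : O) := by
      simp only [hf, Polynomial.finsetSum_coeff, Polynomial.coeff_C_mul, Polynomial.coeff_X_pow]
      rw [Finset.sum_eq_single k]
      · rw [if_pos rfl, mul_one]
      · intro j _ hj
        rw [if_neg (Ne.symm hj), mul_zero]
      · intro h
        exact absurd hk h
    rw [h5] at h4
    exact h4
  -- the second extension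
  have hind' : AlgebraicIndependent ℂ (Sum.elim (fun i => φ (X (τ i) ^ e)) s) := by
    have h1 := hind.map' (f := φ) hφ
    rw [Sum.comp_elim] at h1
    exact h1
  have ht' := (AlgebraicIndependent.sumElim_iff.1 hind').2.subalgebraAlgebraicClosure
  let B := Subalgebra.algebraicClosure (Algebra.adjoin ℂ (Set.range s)) L
  let A1 : Subring L := B.toSubring ⊓ V₁.toSubring
  have ht1 : AlgebraicIndependent A1 (fun i => φ (X (τ i) ^ e)) := by
    let ι : A1 →+* B := Subring.inclusion inf_le_left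
    rw [algebraicIndependent_iff]
    intro p hp
    have h1 : aeval (fun i => φ (X (τ i) ^ e)) (MvPolynomial.map ι p) = 0 := by
      rw [← hp, aeval_def, eval₂_map, aeval_def]
      rfl
    have h2 := algebraicIndependent_iff.1 ht' _ h1
    exact (map_eq_zero_iff _ (map_injective ι (Subring.inclusion_injective _))).1 h2
  let q1 : Ideal A1 := vId V₁.valuation A1.subtype fun a => (V₁.valuation_le_one_iff _).2 a.2.2
  have hq1 : q1.IsPrime := vId_prime _ _ _
  obtain ⟨V₂, hV₂⟩ := gauss (A₀ := A1) (fun i => φ (X (τ i) ^ e)) ht1 q1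
  have hA1 : ∀ z : L, z ∈ A1 → V₂.valuation z ≤ 1 ∧ (V₂.valuation z < 1 ↔ V₁.valuation z < 1) := by
    intro z hz
    have h1 := hV₂ (C ⟨z, hz⟩)
    rw [aeval_C] at h1
    refine ⟨h1.1, h1.2.trans ⟨fun h2 => ?_, fun h2 α => ?_⟩⟩
    · have h3 := h2 0
      rw [coeff_zero_C] at h3
      exact h3
    · rw [coeff_C]
      split_ifs
      · exact h2
      · exact q1.zero_mem
  have hBmem : ∀ b : MvPolynomial (Fin (d + 1)) ℂ, aeval s b ∈ B := by
    intro b
    have h1 : aeval s b ∈ Algebra.adjoin ℂ (Set.range s) := by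
      rw [Algebra.adjoin_range_eq_range_aeval]
      exact ⟨b, rfl⟩
    exact isAlgebraic_algebraMap (⟨_, h1⟩ : Algebra.adjoin ℂ (Set.range s))
  have hb1 : ∀ b : MvPolynomial (Fin (d + 1)) ℂ, aeval s b ∈ A1 := fun b =>
    ⟨hBmem b, (V₁.valuation_le_one_iff _).1 (hKC0 b).1⟩
  let θ : MvPolynomial (Fin (d + 1)) ℂ →+* A1 :=
    ((aeval s : MvPolynomial (Fin (d + 1)) ℂ →ₐ[ℂ] L) : MvPolynomial (Fin (d + 1)) ℂ →+* L).codRestrict
      A1 hb1
  have hws : ∀ b : MvPolynomial (Fin (d + 1)) ℂ, φ (aeval w b) = aeval s b := by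
    intro b
    rw [comp_aeval_apply]
  have hcomp : ∀ a, φ (evR e w τ a) = aeval (fun i => φ (X (τ i) ^ e)) (MvPolynomial.map θ a) := by
    intro a
    have h1 : (φ : MvPolynomial (Fin (n + 1)) ℂ →+* L).comp (evR e w τ) =
        ((aeval (fun i => φ (X (τ i) ^ e)) : MvPolynomial (Fin r) A1 →ₐ[A1] L) :
          MvPolynomial (Fin r) A1 →+* L).comp (MvPolynomial.map θ) := by
      apply MvPolynomial.ringHom_ext
      · intro b
        rw [RingHom.comp_apply, RingHom.comp_apply, evR_C, map_C]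
        show φ (aeval w b) = aeval _ (C (θ b))
        rw [aeval_C, hws]
        rfl
      · intro i
        rw [RingHom.comp_apply, RingHom.comp_apply, evR_X, map_X]
        show φ (X (τ i) ^ e) = aeval _ (X i)
        rw [aeval_X]
    exact congrArg (fun f => f a) h1
  have hsπ : aeval s π = s0 ^ δ * algebraMap K L (aeval x π) := by
    have h2 : s = fun l => s0 * algebraMap K L (x l) := funext hs
    rw [h2]
    exact aeval_scaled s0 x δ _ hπd
  refine ⟨L, inferInstance, φ, V₂, hφ, ?_, ?_, ?_⟩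
  · intro a
    show V₂.valuation (φ (evR e w τ a)) ≤ 1 ∧ (V₂.valuation (φ (evR e w τ a)) < 1 → C π ∣ a)
    rw [hcomp]
    refine ⟨(hV₂ _).1, fun h1 => ?_⟩
    rw [C_dvd_iff_dvd_coeff]
    intro α
    have h2 := (hV₂ _).2.1 h1 α
    rw [coeff_map] at h2
    exact (hKC0 _).2 h2
  · show V₂.valuation (φ (aeval w π)) < 1
    rw [hws, (hA1 _ (hb1 π)).2, hsπ, map_mul, map_pow, hs01, one_pow, one_mul]
    have h1 := (hV₁ (Polynomial.C ⟨aeval x π, hxmem π⟩)).2
    rw [Polynomial.aeval_C] at h1
    refine h1.2 fun k => ?_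
    rw [Polynomial.coeff_C]
    split_ifs
    · exact hπv
    · exact q0.zero_mem
  · rintro P hP ⟨q', a, ha0, hrel⟩ hval
    show V₂.valuation (φ P) ≤ V₂.valuation (φ (aeval w π)) ^ 2
    set c : K := aeval y P / (aeval y (w i₀) * aeval x π ^ 2) with hc
    have hπL : algebraMap K L (aeval x π) ≠ 0 := (map_ne_zero _).2 hπ0
    have hpne : φ (aeval w π) ≠ 0 := by
      rw [hws, hsπ]
      exact mul_ne_zero (pow_ne_zero _ hs0ne) hπL
    have hφP : φ P = T ^ e * algebraMap K L (aeval y P) := aeval_scaled T y e P hP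
    set z : L := φ P / φ (aeval w π) ^ 2 with hz
    have hz' : z = algebraMap K L c * (s0 * (s0 ^ δ)⁻¹ ^ 2) := by
      rw [hz, hφP, hws, hsπ, hc, map_div₀, map_mul, map_pow, hs0]
      have h1 : T ^ e ≠ 0 := pow_ne_zero _ hT0
      exact aux_div _ _ _ _ _ h1 hωL hπL (pow_ne_zero _ (mul_ne_zero h1 hωL))
    have hcO : c ∈ O := (O.valuation_le_one_iff _).1 hval
    have hz1 : V₁.valuation z ≤ 1 := by
      rw [hz', map_mul, map_mul, map_pow, map_inv₀, map_pow, hs01, one_pow, inv_one, one_pow,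
        mul_one, mul_one]
      exact hKle c hcO
    have hPB : φ P ∈ B := by
      have h1 : ∑ i ∈ Finset.range (q' + 1), aeval s (a i) * φ P ^ i = 0 := by
        have h2 := congrArg φ hrel
        rw [map_sum, map_zero] at h2
        rw [← h2]
        refine Finset.sum_congr rfl fun i _ => ?_
        rw [map_mul, map_pow, hws]
      have hmem : ∀ i, aeval s (a i) ∈ Algebra.adjoin ℂ (Set.range s) := by
        intro i
        rw [Algebra.adjoin_range_eq_range_aeval]
        exact ⟨a i, rfl⟩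
      refine ⟨∑ i ∈ Finset.range (q' + 1), Polynomial.C ⟨aeval s (a i), hmem i⟩ * Polynomial.X ^ i,
        ?_, ?_⟩
      · intro h3
        have h4 := congrArg (fun g => Polynomial.coeff g 0) h3
        simp only [Polynomial.finsetSum_coeff, Polynomial.coeff_C_mul, Polynomial.coeff_X_pow,
          Polynomial.coeff_zero] at h4
        rw [Finset.sum_eq_single 0] at h4
        · rw [if_pos rfl, mul_one] at h4
          have h5 : aeval s (a 0) = 0 := congrArg Subtype.val h4
          have h6 := (AlgebraicIndependent.sumElim_iff.1 hind').1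
          exact ha0 (algebraicIndependent_iff.1 h6 _ h5)
        · intro j _ hj
          rw [if_neg (Ne.symm hj), mul_zero]
        · intro h
          exact absurd (Finset.mem_range.2 (Nat.succ_pos _)) h
      · rw [map_sum, ← h1]
        refine Finset.sum_congr rfl fun i _ => ?_
        rw [map_mul, Polynomial.aeval_C, map_pow, Polynomial.aeval_X]
        rfl
    have hzB : z ∈ B := by
      have h1 : IsAlgebraic (Algebra.adjoin ℂ (Set.range s)) (φ P) := hPB
      have h2 : IsAlgebraic (Algebra.adjoin ℂ (Set.range s)) (φ (aeval w π)) := by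
        rw [hws]
        exact hBmem π
      show IsAlgebraic (Algebra.adjoin ℂ (Set.range s)) z
      rw [hz, div_eq_mul_inv]
      exact h1.mul (h2.pow 2).inv
    have hzA : z ∈ A1 := ⟨hzB, (V₁.valuation_le_one_iff _).1 hz1⟩
    have h1 : φ P = z * φ (aeval w π) ^ 2 := by
      rw [hz, div_mul_cancel₀ _ (pow_ne_zero _ hpne)]
    rw [h1, map_mul, map_pow]
    exact mul_le_of_le_one_left' (hA1 z hzA).1

end Pool.Agent.Campana
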