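import Mathlib

/-! Elimination of a variable. -/

set_option autoImplicit false

namespace Pool.Agent.Campana

open MvPolynomial

lemma elim_zero {n : ℕ} (π g : MvPolynomial (Fin (n + 1)) ℂ) (hπ : Irreducible π)
    (h : ¬ π ∣ g) : ∃ (R a b : MvPolynomial (Fin (n + 1)) ℂ), R ≠ 0 ∧ R = a * π + b * g ∧
      pderiv 0 R = 0 := by
  let B := MvPolynomial (Fin n) ℂ
  let K := FractionRing B
  let φ := finSuccEquiv ℂ n
  have hfree : ∀ c : B, pderiv 0 (φ.symm (Polynomial.C c)) = 0 := by
    intro c
    have h1 : φ.symm (Polynomial.C c) = rename Fin.succ c := by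
      apply φ.injective
      rw [AlgEquiv.apply_symm_apply]
      induction c using MvPolynomial.induction_on with
      | C a =>
        rw [rename_C]
        exact ((finSuccEquiv ℂ n).commutes a).symm
      | add p q hp hq => rw [Polynomial.C_add, hp, hq, map_add, map_add]
      | mul_X p i hp =>
        rw [Polynomial.C_mul, hp, map_mul, map_mul, rename_X]
        congr 1
        exact finSuccEquiv_X_succ.symm
    rw [h1]
    apply pderiv_eq_zero_of_notMem_vars
    intro h2
    have h3 := vars_rename Fin.succ c h2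
    rw [Finset.mem_image] at h3
    obtain ⟨i, _, hi⟩ := h3
    exact Fin.succ_ne_zero i hi
  have hπ' : Irreducible (φ π) := (MulEquiv.irreducible_iff φ).2 hπ
  by_cases hdeg : (φ π).natDegree = 0
  · rw [Polynomial.natDegree_eq_zero] at hdeg
    obtain ⟨b, hb⟩ := hdeg
    refine ⟨π, 1, 0, hπ.ne_zero, by ring, ?_⟩
    have h1 : π = φ.symm (Polynomial.C b) := by
      rw [hb, AlgEquiv.symm_apply_apply]
    rw [h1]
    exact hfree b
  · have hprim := hπ'.isPrimitive hdeg
    have hirr := (hprim.irreducible_iff_irreducible_map_fraction_map (K := K)).1 hπ'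
    have hnd : ¬ (φ π).map (algebraMap B K) ∣ (φ g).map (algebraMap B K) := by
      intro hd
      have h4 := hprim.dvd_of_fraction_map_dvd_fraction_map hd
      exact h ((map_dvd_iff φ).1 h4)
    obtain ⟨a, b, hab⟩ := (hirr.coprime_iff_not_dvd).2 hnd
    obtain ⟨s, hs, hsa⟩ := IsLocalization.integerNormalization_spec (nonZeroDivisors B) a
    obtain ⟨t, ht, htb⟩ := IsLocalization.integerNormalization_spec (nonZeroDivisors B) b
    have hs0 : s ≠ 0 := nonZeroDivisors.ne_zero hs
    have ht0 : t ≠ 0 := nonZeroDivisors.ne_zero ht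
    set a' := IsLocalization.integerNormalization (nonZeroDivisors B) a with ha'
    set b' := IsLocalization.integerNormalization (nonZeroDivisors B) b with hb'
    have hinj : Function.Injective (Polynomial.map (algebraMap B K)) :=
      Polynomial.map_injective _ (IsFractionRing.injective B K)
    have hkey : Polynomial.C (s * t) = Polynomial.C t * a' * φ π + Polynomial.C s * b' * φ g := by
      apply hinj
      have e1 : ∀ (c : B) (p : Polynomial K), c • p = Polynomial.C (algebraMap B K c) * p := by
        intro c p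
        rw [← Polynomial.smul_eq_C_mul, algebraMap_smul]
      rw [Polynomial.map_add, Polynomial.map_mul, Polynomial.map_mul, Polynomial.map_mul,
        Polynomial.map_mul, Polynomial.map_C, Polynomial.map_C, Polynomial.map_C, hsa, htb,
        e1, e1, map_mul, Polynomial.C_mul]
      linear_combination (-(Polynomial.C (algebraMap B K s) * Polynomial.C (algebraMap B K t))) * hab
    refine ⟨φ.symm (Polynomial.C (s * t)), φ.symm (Polynomial.C t * a'),
      φ.symm (Polynomial.C s * b'), ?_, ?_, hfree _⟩
    · intro h0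
      rw [map_eq_zero_iff φ.symm φ.symm.injective, Polynomial.C_eq_zero] at h0
      exact (mul_ne_zero hs0 ht0) h0
    · rw [hkey, map_add, map_mul φ.symm _ (φ π), map_mul φ.symm _ (φ g),
        AlgEquiv.symm_apply_apply, AlgEquiv.symm_apply_apply]

theorem elim_var {n : ℕ} (j : Fin (n + 1)) (π g : MvPolynomial (Fin (n + 1)) ℂ)
    (hπ : Irreducible π) (h : ¬ π ∣ g) :
    ∃ (R a b : MvPolynomial (Fin (n + 1)) ℂ), R ≠ 0 ∧ R = a * π + b * g ∧ pderiv j R = 0 := by
  let σ : Fin (n + 1) ≃ Fin (n + 1) := Equiv.swap 0 j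
  have hss : ∀ p : MvPolynomial (Fin (n + 1)) ℂ, rename σ (rename σ p) = p := by
    intro p
    rw [rename_rename]
    have : (σ ∘ σ : Fin (n + 1) → Fin (n + 1)) = id := by
      ext i
      simp [σ]
    rw [this, rename_id_apply]
  obtain ⟨R, a, b, hR, hRe, hRd⟩ := elim_zero (rename σ π) (rename σ g)
    ((MulEquiv.irreducible_iff (renameEquiv ℂ σ)).2 hπ) (by
      intro hd
      exact h ((map_dvd_iff (renameEquiv ℂ σ)).1 hd))
  refine ⟨rename σ R, rename σ a, rename σ b, ?_, ?_, ?_⟩
  · intro h0
    apply hR
    rw [← hss R, h0, map_zero]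
  · rw [hRe, map_add, map_mul, map_mul, hss, hss]
  · have h2 : σ 0 = j := Equiv.swap_apply_left 0 j
    have h1 : pderiv (σ 0) (rename σ R) = rename σ (pderiv 0 R) :=
      pderiv_rename (R := ℂ) σ.injective (0 : Fin (n + 1)) R
    rw [h2, hRd] at h1
    rw [h1, map_zero]

end Pool.Agent.Campana
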