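import Pool.Agent.Lib_MP_1209e6_mh.Core

/-! Fields with many multiple hyperplanes, in any position, are not special. -/

set_option autoImplicit false

namespace Pool.Agent.Campana

/-- values of linear forms -/
lemma lform_ord {K : Type} [Field K] [Algebra ℂ K] {k : ℕ} {O : ValuationSubring K}
    (hO : IsPlace O) {v : K → ℤ} (hv : IsOrd O v) (z : Fin (k + 1) → K) (hzne : ∀ i, z i ≠ 0)
    (c : ℤ) (hc : ∀ i, c ≤ v (z i)) (a : Fin (k + 1) → ℂ)
    (ha : Fintype.linearCombination ℂ z a ≠ 0) : c ≤ v (Fintype.linearCombination ℂ z a) := by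
  obtain ⟨t, ht0, hvt⟩ := hv.2.2
  have htc : t ^ c ≠ 0 := zpow_ne_zero _ ht0
  have h1 : Fintype.linearCombination ℂ z a / t ^ c ∈ O := by
    rw [Fintype.linearCombination_apply, Finset.sum_div]
    refine sum_mem fun i _ => ?_
    rw [Algebra.smul_def, mul_div_assoc]
    refine O.mul_mem _ _ (hO.1 _) ?_
    rw [hv.2.1 _ (div_ne_zero (hzne i) htc), ord_div hv _ _ (hzne i) htc, F_ord_zpow hv t ht0, hvt]
    have := hc i
    omega
  rw [hv.2.1 _ (div_ne_zero ha htc), ord_div hv _ _ ha htc, F_ord_zpow hv t ht0, hvt] at h1
  omega

/-- If two members of `A` have orders `c` and `c + 1` at a place then at most `M` members of `A`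
have order at least `c` there. -/
theorem not_special_many (M n : ℕ) (hM : 1 ≤ M) : ∀ {K : Type} [Field K] [Algebra ℂ K]
    (y : Fin (n + 1) → K), y 0 ≠ 0 →
    AlgebraicIndependent ℂ (fun i : Fin n => y i.succ / y 0) →
    ∀ A : Finset (Fin (n + 1) → ℂ),
    (∀ a ∈ A, a ≠ 0 ∧ ∀ b ∈ A, a ≠ b → LinearIndependent ℂ ![a, b]) →
    2 ^ n * (n + 1).factorial * M < A.card →
    (∀ O : ValuationSubring K, IsPlace O → ∀ v : K → ℤ, IsOrd O v →
      ∀ a ∈ A, ∀ b ∈ A,
        v (Fintype.linearCombination ℂ y a) = v (Fintype.linearCombination ℂ y b) + 1 →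
        ∀ B ⊆ A, (∀ c ∈ B, v (Fintype.linearCombination ℂ y b) ≤
          v (Fintype.linearCombination ℂ y c)) → B.card ≤ M) →
    ¬ SpecialField K := by
  induction n using Nat.strong_induction_on with
  | _ n ih =>
  intro K _ _ y hy0 hy A hA hcard hT
  classical
  have hA0 : ∀ a ∈ A, a ≠ 0 := fun a ha => (hA a ha).1
  rcases Nat.eq_zero_or_pos n with rfl | hn
  · exfalso
    have hc1 : 1 < A.card := by
      simp at hcard
      omega
    obtain ⟨a, ha, b, hb, hab⟩ := Finset.one_lt_card.1 hc1
    have h1 := (hA a ha).2 b hb hab
    have h2 := h1.fintype_card_le_finrank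
    simp at h2
  · by_cases hW : ∀ W : Submodule ℂ (Fin (n + 1) → ℂ), W ≠ ⊤ →
        ∀ B ⊆ A, (∀ b ∈ B, b ∈ W) → B.card ≤ 2 ^ (n - 1) * n.factorial * M
    · have hcard' : 2 * (n + 1) * (2 ^ (n - 1) * n.factorial * M) < A.card := by
        have h1 : 2 * (n + 1) * (2 ^ (n - 1) * n.factorial * M) =
            2 ^ n * (n + 1).factorial * M := by
          obtain ⟨m, rfl⟩ : ∃ m, n = m + 1 := ⟨n - 1, by omega⟩
          rw [Nat.factorial_succ (m + 1)]
          simp only [Nat.add_sub_cancel]
          ring
        rw [h1]
        exact hcard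
      refine not_special_core hn y hy0 hy A hA0 hcard' hW ?_
      intro a ha O hO v hv i₀ hi₀
      set L := Fintype.linearCombination ℂ y with hL
      have hLne : ∀ a, a ≠ 0 → L a ≠ 0 := lin_ne_zero y hy0 hy
      have hLs : ∀ l, L (Pi.single l 1) = y l := by
        intro l
        rw [hL, Fintype.linearCombination_apply, Finset.sum_eq_single l]
        · simp
        · intro j _ hj
          simp [hj]
        · simp
      have hyne : ∀ l, y l ≠ 0 := by
        intro l
        rw [← hLs l]
        apply hLne
        intro h0
        have := congrFun h0 l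
        simp at this
      -- some member of `A` has minimal value
      obtain ⟨b, hb, hbv⟩ : ∃ b ∈ A, v (L b) = v (y i₀) := by
        by_contra hcon
        push Not at hcon
        have h1 : ∀ b ∈ A, v (y i₀) + 1 ≤ v (L b) := by
          intro b hb
          have h2 := lform_ord hO hv y hyne (v (y i₀)) hi₀ b (hLne b (hA0 b hb))
          have h3 := hcon b hb
          rw [← hL] at h2
          omega
        obtain ⟨t, ht0, hvt⟩ := hv.2.2
        have htc : t ^ (v (y i₀) + 1) ≠ 0 := zpow_ne_zero _ ht0
        set W : Submodule ℂ (Fin (n + 1) → ℂ) :=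
          { carrier := {a | L a / t ^ (v (y i₀) + 1) ∈ O}
            add_mem' := by
              intro a b ha hb
              show L (a + b) / t ^ (v (y i₀) + 1) ∈ O
              rw [map_add, add_div]
              exact O.add_mem _ _ ha hb
            zero_mem' := by
              show L 0 / t ^ (v (y i₀) + 1) ∈ O
              rw [map_zero, zero_div]
              exact O.zero_mem
            smul_mem' := by
              intro c a ha
              show L (c • a) / t ^ (v (y i₀) + 1) ∈ O
              rw [map_smul, Algebra.smul_def, mul_div_assoc]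
              exact O.mul_mem _ _ (hO.1 c) ha } with hWdef
        have hWmem : ∀ a, a ≠ 0 → (a ∈ W ↔ v (y i₀) + 1 ≤ v (L a)) := by
          intro a ha
          have h1 : a ∈ W ↔ L a / t ^ (v (y i₀) + 1) ∈ O := Iff.rfl
          rw [h1, hv.2.1 _ (div_ne_zero (hLne a ha) htc), ord_div hv _ _ (hLne a ha) htc,
            F_ord_zpow hv t ht0, hvt]
          omega
        have hWtop : W ≠ ⊤ := by
          intro htop
          have h1 : (Pi.single i₀ 1 : Fin (n + 1) → ℂ) ∈ W := by
            rw [htop]
            trivial
          rw [hWmem _ (by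
            intro h0
            have := congrFun h0 i₀
            simp at this), hLs] at h1
          omega
        have h2 := hW W hWtop A (Finset.Subset.refl _) fun b hb =>
          (hWmem b (hA0 b hb)).2 (h1 b hb)
        have h3 : 2 ^ (n - 1) * n.factorial * M ≤ 2 * (n + 1) * (2 ^ (n - 1) * n.factorial * M) :=
          Nat.le_mul_of_pos_left _ (by omega)
        omega
      rw [← hbv]
      intro hab
      have h1 := hT O hO v hv a ha b hb hab A (Finset.Subset.refl _) fun c hc => by
        rw [hbv]
        exact lform_ord hO hv y hyne (v (y i₀)) hi₀ c (hLne c (hA0 c hc))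
      have h2 : M ≤ 2 ^ n * (n + 1).factorial * M :=
        Nat.le_mul_of_pos_left _ (Nat.mul_pos (pow_pos (by norm_num) _) (Nat.factorial_pos _))
      omega
    · push Not at hW
      obtain ⟨W, hWtop, B, hBA, hBW, hBcard⟩ := hW
      -- the span of `B`
      set U := Submodule.span ℂ (B : Set (Fin (n + 1) → ℂ)) with hU
      have hUW : U ≤ W := Submodule.span_le.2 fun b hb => hBW b hb
      have hBne : B.Nonempty := Finset.card_pos.1 (by omega)
      have hfr : Module.finrank ℂ U < n + 1 := by
        have h1 : U < ⊤ := lt_of_le_of_lt hUW (lt_top_iff_ne_top.2 hWtop)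
        have h2 := Submodule.finrank_lt_finrank_of_lt h1
        rwa [finrank_top, Module.finrank_fintype_fun_eq_card, Fintype.card_fin] at h2
      have hfr1 : 1 ≤ Module.finrank ℂ U := by
        obtain ⟨b, hb⟩ := hBne
        rw [Nat.one_le_iff_ne_zero]
        intro h0
        rw [Submodule.finrank_eq_zero] at h0
        have h1 : b ∈ U := Submodule.subset_span hb
        rw [h0, Submodule.mem_bot] at h1
        exact hA0 b (hBA hb) h1
      obtain ⟨k, hk⟩ : ∃ k, Module.finrank ℂ U = k + 1 := ⟨Module.finrank ℂ U - 1, by omega⟩
      have hkn : k < n := by omega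
      let bU : Module.Basis (Fin (k + 1)) ℂ U := Module.finBasisOfFinrankEq ℂ U hk
      set w : Fin (k + 1) → Fin (n + 1) → ℂ := fun j => (bU j : Fin (n + 1) → ℂ) with hw
      have hwli : LinearIndependent ℂ w := by
        have h1 := bU.linearIndependent.map' U.subtype (Submodule.ker_subtype U)
        exact h1
      have hLw : ∀ c : Fin (k + 1) → ℂ, Fintype.linearCombination ℂ
          (fun j => Fintype.linearCombination ℂ y (w j)) c =
          Fintype.linearCombination ℂ y (∑ j, c j • w j) := by
        intro c
        rw [map_sum, Fintype.linearCombination_apply]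
        simp only [map_smul]
      -- coordinates
      have hcoord : ∀ b ∈ B, ∃ c : Fin (k + 1) → ℂ, ∑ j, c j • w j = b := by
        intro b hb
        refine ⟨fun j => bU.repr ⟨b, Submodule.subset_span hb⟩ j, ?_⟩
        have h1 := bU.sum_repr ⟨b, Submodule.subset_span hb⟩
        have h2 := congrArg (Submodule.subtype U) h1
        rw [map_sum] at h2
        simpa using h2
      choose! q hq using hcoord
      have hqinj : Set.InjOn q B := by
        intro b hb b' hb' h
        rw [← hq b hb, ← hq b' hb', h]
      refine ih k hkn (fun j => Fintype.linearCombination ℂ y (w j))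
        (lin_ne_zero y hy0 hy _ (hwli.ne_zero 0)) (algIndep_lin y hy0 hy w hwli)
        (B.image q) ?_ ?_ ?_
      · intro a ha
        obtain ⟨a', ha', rfl⟩ := Finset.mem_image.1 ha
        refine ⟨?_, ?_⟩
        · intro h0
          apply hA0 a' (hBA ha')
          rw [← hq a' ha', h0]
          simp
        · intro b hb hab
          obtain ⟨b', hb', rfl⟩ := Finset.mem_image.1 hb
          have hab' : a' ≠ b' := fun h => hab (by rw [h])
          have h1 := (hA a' (hBA ha')).2 b' (hBA hb') hab'
          rw [LinearIndependent.pair_iff] at h1 ⊢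
          intro s t hst
          apply h1
          rw [← hq a' ha', ← hq b' hb', Finset.smul_sum, Finset.smul_sum,
            ← Finset.sum_add_distrib]
          refine Finset.sum_eq_zero fun j _ => ?_
          have h2 := congrFun hst j
          simp only [Pi.add_apply, Pi.smul_apply, smul_eq_mul, Pi.zero_apply] at h2
          rw [smul_smul, smul_smul, ← add_smul, h2, zero_smul]
      · rw [Finset.card_image_of_injOn hqinj]
        refine lt_of_le_of_lt ?_ hBcard
        obtain ⟨m, rfl⟩ : ∃ m, n = m + 1 := ⟨n - 1, by omega⟩
        simp only [Nat.add_sub_cancel]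
        exact Nat.mul_le_mul (Nat.mul_le_mul (Nat.pow_le_pow_right (by norm_num) (by omega))
          (Nat.factorial_le (by omega))) le_rfl
      · intro O hO v hv a ha b hb hab C hC hCv
        obtain ⟨a', ha', rfl⟩ := Finset.mem_image.1 ha
        obtain ⟨b', hb', rfl⟩ := Finset.mem_image.1 hb
        rw [hLw, hLw, hq a' ha', hq b' hb'] at hab
        set C' := B.filter (fun c => q c ∈ C) with hC'
        have h1 : C = C'.image q := by
          ext c
          rw [Finset.mem_image]
          constructor
          · intro hc
            obtain ⟨c', hc', rfl⟩ := Finset.mem_image.1 (hC hc)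
            exact ⟨c', Finset.mem_filter.2 ⟨hc', hc⟩, rfl⟩
          · rintro ⟨c', hc', rfl⟩
            exact (Finset.mem_filter.1 hc').2
        have h2 : C.card ≤ C'.card := by
          rw [h1]
          exact Finset.card_image_le
        refine h2.trans (hT O hO v hv a' (hBA ha') b' (hBA hb') hab C'
          ((Finset.filter_subset _ _).trans hBA) ?_)
        intro c hc
        obtain ⟨hcB, hcC⟩ := Finset.mem_filter.1 hc
        have h3 := hCv (q c) hcC
        rw [hLw, hLw, hq c hcB, hq b' hb'] at h3
        exact h3

end Pool.Agent.Campana
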