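import Pool.Agent.Lib_MP_1209e6_ag.Defs

/-! The multiplicity condition in the theorem on varieties over projective space which are multiple
along many hypersurfaces. -/

set_option autoImplicit false

namespace Pool.Agent.Campana

/-- `y_0, …, y_n` are homogeneous coordinates of a rational map from a variety with function field
`K` to `ℙⁿ`, and `D` is a finite set of forms on `ℙⁿ`.  At every place of `K`: if the orders of two
members of `D` are `a + 1` and `a`, then at most `M` members of `D` have order at least `a`.
(So for `M ≤ 1` the orders of two members of `D` never differ by exactly one.) -/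
def MultipleAt {K : Type} [Field K] [Algebra ℂ K] {n : ℕ} (M : ℕ) (y : Fin (n + 1) → K)
    (D : Finset (MvPolynomial (Fin (n + 1)) ℂ)) : Prop :=
  ∀ O : ValuationSubring K, IsPlace O → ∀ v : K → ℤ, IsOrd O v → ∀ Q ∈ D, ∀ Q' ∈ D,
    v (MvPolynomial.aeval y Q) = v (MvPolynomial.aeval y Q') + 1 →
      ∀ A ⊆ D, (∀ R ∈ A, v (MvPolynomial.aeval y Q') ≤ v (MvPolynomial.aeval y R)) → A.card ≤ M

end Pool.Agent.Campana
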