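import Pool.Agent.Lib_MP_1209e6_mh.CoreE
import Pool.Agent.Lib_MP_1209e6_mh.Pair
import Pool.Agent.Lib_MP_1209e6_mh.Statement
import Pool.Agent.Lib_MP_b9fedf_sq.Fin

/-! Assembly: varieties over projective space which are multiple along many hypersurfaces are
neither special nor Brody-special. -/

set_option autoImplicit false

namespace Pool.Agent.Campana

open MvPolynomial Pool.Agent.SQ

/-- a linear form is determined by its coefficients -/
lemma lin_eq_sum {n : ℕ} (Q : MvPolynomial (Fin (n + 1)) ℂ) (hQ : Q.IsHomogeneous 1) :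
    Q = ∑ i, C (coeff (Finsupp.single i 1) Q) * X i := by
  classical
  ext m
  rw [coeff_sum]
  simp only [coeff_C_mul, coeff_X]
  by_cases hm : ∃ i, Finsupp.single i 1 = m
  · obtain ⟨i, rfl⟩ := hm
    rw [Finset.sum_eq_single i]
    · simp
    · intro j _ hj
      rw [if_neg, mul_zero]
      intro h
      exact hj (Finsupp.single_left_injective one_ne_zero h)
    · simp
  · push Not at hm
    rw [Finset.sum_eq_zero fun i _ => by rw [if_neg (hm i), mul_zero]]
    by_contra hne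
    have h1 := hQ hne
    rw [Finsupp.weight_apply, Finsupp.sum_fintype _ _ (by simp)] at h1
    simp only [Pi.one_apply, smul_eq_mul, mul_one] at h1
    have h2 : ∃ i, m i ≠ 0 := by
      by_contra hcon
      push Not at hcon
      simp [hcon] at h1
    obtain ⟨i, hi⟩ := h2
    apply hm i
    ext j
    have h3 : ∀ j, m j ≤ ∑ i, m i := fun j =>
      Finset.single_le_sum (f := fun i => m i) (fun _ _ => Nat.zero_le _) (Finset.mem_univ j)
    by_cases hj : j = i
    · subst hj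
      have := h3 j
      simp
      omega
    · have h4 : m i + m j ≤ ∑ i, m i := by
        have h5 := Finset.sum_le_sum_of_subset (f := fun i => m i) (Finset.subset_univ {i, j})
        rwa [Finset.sum_pair (Ne.symm hj)] at h5
      rw [Finsupp.single_apply, if_neg (Ne.symm hj)]
      omega

theorem not_special_linear {K : Type} [Field K] [Algebra ℂ K] {n M : ℕ} (hM : 1 ≤ M)
    (y : Fin (n + 1) → K) (hy0 : y 0 ≠ 0)
    (hy : AlgebraicIndependent ℂ (fun i : Fin n => y i.succ / y 0))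
    (D : Finset (MvPolynomial (Fin (n + 1)) ℂ))
    (hD : ∀ P ∈ D, P.IsHomogeneous 1 ∧ Squarefree P)
    (hD' : ∀ P ∈ D, ∀ P' ∈ D, ∀ c : ℂ, P' = C c * P → P' = P)
    (hcard : 2 ^ n * (n + 1).factorial * M < D.card) (hT : MultipleAt M y D) :
    ¬ SpecialField K := by
  classical
  set κ : MvPolynomial (Fin (n + 1)) ℂ → (Fin (n + 1) → ℂ) := fun Q i =>
    coeff (Finsupp.single i 1) Q with hκ
  have hsum : ∀ Q ∈ D, Q = ∑ i, C (κ Q i) * X i := fun Q hQ => lin_eq_sum Q (hD Q hQ).1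
  have hev : ∀ Q ∈ D, Fintype.linearCombination ℂ y (κ Q) = aeval y Q := by
    intro Q hQ
    conv_rhs => rw [hsum Q hQ]
    rw [Fintype.linearCombination_apply, map_sum]
    refine Finset.sum_congr rfl fun i _ => ?_
    rw [map_mul, aeval_X, aeval_C, Algebra.smul_def]
  have hinj : Set.InjOn κ D := by
    intro Q hQ Q' hQ' h
    rw [hsum Q hQ, hsum Q' hQ', h]
  refine not_special_many M n hM y hy0 hy (D.image κ) ?_ ?_ ?_
  · intro a ha
    obtain ⟨Q, hQ, rfl⟩ := Finset.mem_image.1 ha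
    refine ⟨?_, ?_⟩
    · intro h0
      apply (hD Q hQ).2.ne_zero
      rw [hsum Q hQ, h0]
      simp
    · intro b hb hab
      obtain ⟨Q', hQ', rfl⟩ := Finset.mem_image.1 hb
      rw [LinearIndependent.pair_iff]
      intro α β h
      have h1 : C α * Q + C β * Q' = 0 := by
        rw [hsum Q hQ, hsum Q' hQ', Finset.mul_sum, Finset.mul_sum, ← Finset.sum_add_distrib]
        refine Finset.sum_eq_zero fun i _ => ?_
        have h2 := congrFun h i
        simp only [Pi.add_apply, Pi.smul_apply, smul_eq_mul, Pi.zero_apply] at h2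
        rw [← mul_assoc, ← mul_assoc, ← map_mul, ← map_mul, ← add_mul, ← map_add, h2, map_zero,
          zero_mul]
      have hβ : β = 0 := by
        by_contra hβ
        apply hab
        have h4 : Q' = C (-α / β) * Q := by
          have h5 : C β * Q' = - (C α * Q) := by linear_combination h1
          have h6 : Q' = C (β⁻¹) * (C β * Q') := by
            rw [← mul_assoc, ← map_mul, inv_mul_cancel₀ hβ, map_one, one_mul]
          rw [h6, h5, neg_div, map_neg, div_eq_mul_inv, map_mul]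
          ring
        rw [hD' Q hQ Q' hQ' _ h4]
      refine ⟨?_, hβ⟩
      rw [hβ, map_zero, zero_mul, add_zero] at h1
      have h7 := (mul_eq_zero.mp h1).resolve_right (hD Q hQ).2.ne_zero
      exact (map_eq_zero_iff C (C_injective _ _)).mp h7
  · rw [Finset.card_image_of_injOn hinj]
    exact hcard
  · intro O hO v hv a ha b hb hab A hA hAv
    obtain ⟨Q, hQ, rfl⟩ := Finset.mem_image.1 ha
    obtain ⟨Q', hQ', rfl⟩ := Finset.mem_image.1 hb
    rw [hev Q hQ, hev Q' hQ'] at hab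
    set A' := D.filter (fun R => κ R ∈ A) with hA'
    have h1 : A'.image κ = A := by
      ext c
      rw [Finset.mem_image]
      constructor
      · rintro ⟨R, hR, rfl⟩
        exact (Finset.mem_filter.1 hR).2
      · intro hc
        obtain ⟨R, hR, rfl⟩ := Finset.mem_image.1 (hA hc)
        exact ⟨R, Finset.mem_filter.2 ⟨hR, hc⟩, rfl⟩
    have h2 := hT O hO v hv Q hQ Q' hQ' hab A' (Finset.filter_subset _ _) (by
      intro R hR
      obtain ⟨hRD, hRA⟩ := Finset.mem_filter.1 hR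
      have h3 := hAv (κ R) hRA
      rwa [hev R hRD, hev Q' hQ'] at h3)
    rw [← h1]
    exact Finset.card_image_le.trans h2

theorem not_brody {n e M : ℕ} (hn : 1 ≤ n)
    (D : Finset (MvPolynomial (Fin (n + 1)) ℂ))
    (hD : ∀ P ∈ D, P.IsHomogeneous e ∧ Squarefree P)
    (hN : ∃ (d : ℕ) (Z : MvPolynomial (Fin (n + 1)) ℂ), Z ≠ 0 ∧ Z.IsHomogeneous d ∧
      ∀ f : Fin (n + 1) → ℂ → ℂ, (∀ k, Differentiable ℂ (f k)) →
      (∀ P ∈ D, ∀ P' ∈ D, ∀ (z : ℂ) (a : ℕ),
        analyticOrderAt (fun ζ => eval (fun k => f k ζ) P') z = a →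
        analyticOrderAt (fun ζ => eval (fun k => f k ζ) P) z = ((a + 1 : ℕ) : ℕ∞) →
        ∀ A ⊆ D, (∀ Q ∈ A, (a : ℕ∞) ≤ analyticOrderAt (fun ζ => eval (fun k => f k ζ) Q) z) →
          A.card ≤ M) →
      (∀ z, eval (fun k => f k z) Z = 0) ∨
        ∃ R : MvPolynomial (Fin (n + 1)) ℂ, R ≠ 0 ∧ R.IsHomogeneous e ∧
          ∀ z, eval (fun k => f k z) R = 0)
    {m : ℕ} (P : Ideal (MvPolynomial (Fin (m + 1)) ℂ)) [P.IsPrime] (hP : IsVariety P)
    (y : Fin (n + 1) → FunField P) (hy0 : y 0 ≠ 0)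
    (hy : AlgebraicIndependent ℂ (fun i : Fin n => y i.succ / y 0)) (hT : MultipleAt M y D) :
    ¬ BrodySpecial P := by
  classical
  rintro ⟨f, hf, -, hfP, hdense⟩
  obtain ⟨j₀, hj₀⟩ := hP.2.2
  obtain ⟨ψ, -⟩ := exists_pullback P j₀ hj₀ f hf hfP hdense
  obtain ⟨F, hF0, hF⟩ := curve_orders ψ hn y hy0 hy
  obtain ⟨d, Z, hZ0, hZh, hZ⟩ := hN
  have hev : ∀ (Q : MvPolynomial (Fin (n + 1)) ℂ) (z : ℂ),
      eval (fun k => (F k).1 z) Q = (aeval F Q).1 z := fun Q z => (ent_aeval F Q z).symm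
  have hzero : ∀ (d : ℕ) (Q : MvPolynomial (Fin (n + 1)) ℂ), Q.IsHomogeneous d → Q ≠ 0 →
      ¬ ∀ z, eval (fun k => (F k).1 z) Q = 0 := by
    intro d Q hQ hQ0 h
    apply hQ0
    refine hF0 d Q hQ (Ent.ext' fun z => ?_)
    rw [← hev, h]
    rfl
  have hord : ∀ Q ∈ D, ∀ z, analyticOrderAt (fun ζ => eval (fun k => (F k).1 ζ) Q) z =
      (eord z (aeval F Q) : ℕ∞) := by
    intro Q hQ z
    rw [eord_cast z _ (fun h => (hD Q hQ).2.ne_zero (hF0 e Q (hD Q hQ).1 h))]
    congr 1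
    funext ζ
    exact hev Q ζ
  rcases hZ (fun k => (F k).1) (fun k => (F k).2) (by
    intro Q hQ Q' hQ' z a ha ha' A hA hAa
    obtain ⟨O, hO, e', v, c, he', hv, hvQ⟩ := hF z
    rw [hord Q' hQ'] at ha
    rw [hord Q hQ] at ha'
    have h1 : eord z (aeval F Q') = a := by exact_mod_cast ha
    have h2 : eord z (aeval F Q) = a + 1 := by exact_mod_cast ha'
    have h3 := hvQ e Q' (hD Q' hQ').1 (hD Q' hQ').2.ne_zero
    have h4 := hvQ e Q (hD Q hQ).1 (hD Q hQ).2.ne_zero
    rw [h1] at h3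
    rw [h2] at h4
    push_cast at h4
    have h5 : e' * (v (aeval y Q) - v (aeval y Q')) = 1 := by linarith
    have h6 : e' = 1 := by
      have h7 : e' ∣ 1 := ⟨_, h5.symm⟩
      have h8 := Int.le_of_dvd (by norm_num) h7
      omega
    rw [h6] at h5
    refine hT O hO v hv Q hQ Q' hQ' (by linarith) A hA fun R hR => ?_
    have h9 := hAa R hR
    rw [hord R (hA hR)] at h9
    have h10 : a ≤ eord z (aeval F R) := by exact_mod_cast h9
    have h11 := hvQ e R (hD R (hA hR)).1 (hD R (hA hR)).2.ne_zero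
    rw [h6] at h11 h3
    have h12 : (a : ℤ) ≤ eord z (aeval F R) := by exact_mod_cast h10
    linarith) with h | ⟨R, hR0, hRh, hR⟩
  · exact hzero d Z hZh hZ0 h
  · exact hzero e R hRh hR0 hR

theorem MultipleAt.mono {K : Type} [Field K] [Algebra ℂ K] {n M M' : ℕ} (h : M ≤ M')
    {y : Fin (n + 1) → K} {D : Finset (MvPolynomial (Fin (n + 1)) ℂ)} (hT : MultipleAt M y D) :
    MultipleAt M' y D :=
  fun O hO v hv Q hQ Q' hQ' hQQ A hA hAv => (hT O hO v hv Q hQ Q' hQ' hQQ A hA hAv).trans h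

/-- the number of hypersurfaces needed -/
theorem main (n e M : ℕ) (hn : 1 ≤ n) : ∃ N : ℕ, ∀ (m : ℕ)
    (P : Ideal (MvPolynomial (Fin (m + 1)) ℂ)) [P.IsPrime], IsVariety P →
    ∀ y : Fin (n + 1) → FunField P, y 0 ≠ 0 →
    AlgebraicIndependent ℂ (fun i : Fin n => y i.succ / y 0) →
    ∀ D : Finset (MvPolynomial (Fin (n + 1)) ℂ), (∀ Q ∈ D, Q.IsHomogeneous e ∧ Squarefree Q) →
    (∀ Q ∈ D, ∀ Q' ∈ D, ∀ c : ℂ, Q' = C c * Q → Q' = Q) → N < D.card → MultipleAt M y D →
    ((e = 1 ∨ ∀ x : Fin (n + 1) → ℂ, x ≠ 0 → ∀ A ⊆ D, (∀ Q ∈ A, eval x Q = 0) → A.card ≤ M) →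
      ¬ SpecialField (FunField P)) ∧ ¬ BrodySpecial P := by
  obtain ⟨N₀, hN₀⟩ := curve_many n e M
  refine ⟨N₀ + 1 + 2 ^ n * (n + 1).factorial * (M + 1) + 2 * (n + 1) * (M + 1), ?_⟩
  intro m P _ hP y hy0 hy D hD hD' hcard hT
  refine ⟨?_, not_brody hn D hD (hN₀ D hD hD' (by omega)) P hP y hy0 hy hT⟩
  rintro (rfl | hpt)
  · exact not_special_linear (M := M + 1) (by omega) y hy0 hy D hD hD' (by omega)
      (hT.mono (Nat.le_succ M))
  · rcases Nat.eq_zero_or_pos e with rfl | he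
    · have := zero_case D hD hD'
      omega
    · exact not_special_forms (M := M + 1) hn he (by omega) y hy0 hy D hD (by omega)
        (fun x hx A hA hAx => (hpt x hx A hA hAx).trans (Nat.le_succ M))
        (hT.mono (Nat.le_succ M))

end Pool.Agent.Campana
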