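import Pool.Agent.Lib_MP_1209e6_mh.CoreG
import Pool.Agent.Lib_MP_1209e6_mh.Final

/-! The general theorem: any degree, any position. -/

set_option autoImplicit false

namespace Pool.Agent.Campana

open MvPolynomial Pool.Agent.SQ

lemma proportional_of_finrank {n : ℕ} (D : Finset (MvPolynomial (Fin (n + 1)) ℂ))
    (hD : ∀ Q ∈ D, Q ≠ 0) (hD' : ∀ Q ∈ D, ∀ Q' ∈ D, ∀ c : ℂ, Q' = C c * Q → Q' = Q)
    (hdim : Module.finrank ℂ (Submodule.span ℂ (D : Set (MvPolynomial (Fin (n + 1)) ℂ))) ≤ 1) :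
    D.card ≤ 1 := by
  rw [Finset.card_le_one]
  intro P hP P' hP'
  obtain ⟨⟨v, hv⟩, hvs⟩ := finrank_le_one_iff.1 hdim
  obtain ⟨c, hc⟩ := hvs ⟨P, Submodule.subset_span hP⟩
  obtain ⟨c', hc'⟩ := hvs ⟨P', Submodule.subset_span hP'⟩
  have h1 : c • v = P := congrArg Subtype.val hc
  have h2 : c' • v = P' := congrArg Subtype.val hc'
  have hc0 : c ≠ 0 := by
    rintro rfl
    exact hD P hP (by rw [← h1, zero_smul])
  refine (hD' P hP P' hP' (c' / c) ?_).symm
  rw [← h1, ← h2, ← smul_eq_C_mul, smul_smul, div_mul_cancel₀ _ hc0]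

theorem not_special_ind {n e q M : ℕ} (he : 1 ≤ e) (hM : 1 ≤ M) (hq : CountRel n e q) (k : ℕ) :
    ∀ {K : Type} [Field K] [Algebra ℂ K] (y : Fin (n + 1) → K),
    (∀ (k : ℕ) (Q : MvPolynomial (Fin (n + 1)) ℂ), Q.IsHomogeneous k → aeval y Q = 0 → Q = 0) →
    ∀ D : Finset (MvPolynomial (Fin (n + 1)) ℂ), (∀ Q ∈ D, Q.IsHomogeneous e ∧ Squarefree Q) →
    (∀ Q ∈ D, ∀ Q' ∈ D, ∀ c : ℂ, Q' = C c * Q → Q' = Q) →
    Module.finrank ℂ (Submodule.span ℂ (D : Set (MvPolynomial (Fin (n + 1)) ℂ))) ≤ k + 1 →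
    (q * ((n + 1) * (q + 2))) ^ k * M < D.card → MultipleAt M y D → ¬ SpecialField K := by
  induction k with
  | zero =>
    intro K _ _ y hnd D hD hD' hdim hcard hT
    exfalso
    have h1 := proportional_of_finrank D (fun Q hQ => (hD Q hQ).2.ne_zero) hD' hdim
    simp at hcard
    omega
  | succ k ih =>
    intro K _ _ y hnd D hD hD' hdim hcard hT
    classical
    set Qc := q * ((n + 1) * (q + 2)) with hQc
    have hQc1 : 1 ≤ Qc := Nat.mul_pos hq.1 (Nat.mul_pos (Nat.succ_pos n) (by omega))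
    have hMle : M ≤ Qc ^ (k + 1) * M := Nat.le_mul_of_pos_left _ (Nat.pow_pos hQc1)
    by_cases hW : ∀ W : Submodule ℂ (MvPolynomial (Fin (n + 1)) ℂ), (∃ P ∈ D, P ∉ W) →
        ∀ B ⊆ D, (∀ P ∈ B, P ∈ W) → B.card ≤ Qc ^ k * M
    · refine not_special_system (c := Qc ^ k * M) he (Nat.mul_pos (Nat.pow_pos hQc1) hM) hq y hnd D
        hD ?_ ?_ hW ?_
      · have h1 : 1 < D.card := by omega
        obtain ⟨P, hP, P', hP', hne⟩ := Finset.one_lt_card.1 h1
        exact ⟨P, hP, P', hP', fun z hz => hne (hD' P hP P' hP' z hz).symm⟩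
      · have h1 : Qc ^ k * M * q * ((n + 1) * (q + 2)) = Qc ^ (k + 1) * M := by
          rw [pow_succ, hQc]
          ring
        rw [h1]
        exact hcard
      · intro O hO v hv P hP P' hP' hmin heq
        have h1 := hT O hO v hv P hP P' hP' heq D (Finset.Subset.refl _) hmin
        omega
    · push Not at hW
      obtain ⟨W, ⟨P, hP, hPW⟩, B, hBD, hBW, hBcard⟩ := hW
      have hspan : Submodule.span ℂ (B : Set (MvPolynomial (Fin (n + 1)) ℂ)) <
          Submodule.span ℂ (D : Set (MvPolynomial (Fin (n + 1)) ℂ)) := by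
        refine lt_of_le_of_ne (Submodule.span_mono hBD) fun heq => hPW ?_
        have h1 : P ∈ Submodule.span ℂ (B : Set (MvPolynomial (Fin (n + 1)) ℂ)) := by
          rw [heq]
          exact Submodule.subset_span hP
        exact (Submodule.span_le.2 hBW) h1
      have hfin : FiniteDimensional ℂ
          (Submodule.span ℂ (D : Set (MvPolynomial (Fin (n + 1)) ℂ))) :=
        FiniteDimensional.span_finset ℂ D
      have h2 := Submodule.finrank_lt_finrank_of_lt hspan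
      refine ih y hnd B (fun Q hQ => hD Q (hBD hQ)) (fun Q hQ Q' hQ' => hD' Q (hBD hQ) Q' (hBD hQ'))
        (by omega) hBcard ?_
      intro O hO v hv Q hQ Q' hQ' heq A hA hAv
      exact hT O hO v hv Q (hBD hQ) Q' (hBD hQ') heq A (hA.trans hBD) hAv

/-- the number of hypersurfaces needed -/
theorem main_general (n e M : ℕ) (hn : 1 ≤ n) : ∃ N : ℕ, ∀ (m : ℕ)
    (P : Ideal (MvPolynomial (Fin (m + 1)) ℂ)) [P.IsPrime], IsVariety P →
    ∀ y : Fin (n + 1) → FunField P, y 0 ≠ 0 →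
    AlgebraicIndependent ℂ (fun i : Fin n => y i.succ / y 0) →
    ∀ D : Finset (MvPolynomial (Fin (n + 1)) ℂ), (∀ Q ∈ D, Q.IsHomogeneous e ∧ Squarefree Q) →
    (∀ Q ∈ D, ∀ Q' ∈ D, ∀ c : ℂ, Q' = C c * Q → Q' = Q) → N < D.card → MultipleAt M y D →
    ¬ SpecialField (FunField P) ∧ ¬ BrodySpecial P := by
  obtain ⟨N₀, hN₀⟩ := curve_many n e M
  obtain ⟨q, hq⟩ := count_rel n e
  set s := Module.finrank ℂ (homogeneousSubmodule (Fin (n + 1)) ℂ e) with hs
  refine ⟨N₀ + 1 + (q * ((n + 1) * (q + 2))) ^ s * (M + 1), ?_⟩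
  intro m P _ hP y hy0 hy D hD hD' hcard hT
  refine ⟨?_, not_brody hn D hD (hN₀ D hD hD' (by omega)) P hP y hy0 hy hT⟩
  rcases Nat.eq_zero_or_pos e with rfl | he
  · have := zero_case D hD hD'
    omega
  · refine not_special_ind (M := M + 1) he (by omega) hq s y (hom_eq_zero y hy0 hy) D hD hD' ?_
      (by omega) (hT.mono (Nat.le_succ M))
    have h1 : Submodule.span ℂ (D : Set (MvPolynomial (Fin (n + 1)) ℂ)) ≤
        homogeneousSubmodule (Fin (n + 1)) ℂ e :=
      Submodule.span_le.2 fun Q hQ => (hD Q hQ).1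
    have hfin := hom_finite (σ := Fin (n + 1)) e
    have h2 := Submodule.finrank_mono h1
    omega

end Pool.Agent.Campana
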