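import Mathlib

/-! Extension of a valuation with prescribed residually transcendental elements. -/

set_option autoImplicit false

namespace Pool.Agent.Campana

open MvPolynomial

theorem gauss {A₀ E ι : Type} [CommRing A₀] [Field E] [Algebra A₀ E] (t : ι → E)
    (ht : AlgebraicIndependent A₀ t) (q : Ideal A₀) [q.IsPrime] :
    ∃ V : ValuationSubring E, ∀ a : MvPolynomial ι A₀, V.valuation (aeval t a) ≤ 1 ∧
      (V.valuation (aeval t a) < 1 ↔ ∀ α, coeff α a ∈ q) := by
  classical
  let φ : MvPolynomial ι A₀ →+* MvPolynomial ι (A₀ ⧸ q) := MvPolynomial.map (Ideal.Quotient.mk q)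
  let P := RingHom.ker φ
  have hP : P.IsPrime := RingHom.ker_isPrime φ
  let L := Localization.AtPrime P
  have hu : ∀ s : P.primeCompl, IsUnit ((aeval t : MvPolynomial ι A₀ →ₐ[A₀] E).toRingHom s) := by
    intro s
    rw [isUnit_iff_ne_zero]
    intro h0
    have h1 : (s : MvPolynomial ι A₀) = 0 := ht (by
      rw [map_zero]
      exact h0)
    apply s.2
    rw [h1]
    exact P.zero_mem
  let f : L →+* E := IsLocalization.lift (M := P.primeCompl) hu
  obtain ⟨V, h, hloc⟩ := IsLocalRing.exists_factor_valuationRing f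
  have hf : ∀ a, f (algebraMap (MvPolynomial ι A₀) L a) = aeval t a := fun a =>
    IsLocalization.lift_eq hu a
  have hmem : ∀ a : MvPolynomial ι A₀, aeval t a ∈ V := by
    intro a
    have h1 := h (algebraMap (MvPolynomial ι A₀) L a)
    rw [hf] at h1
    exact h1
  have hP' : ∀ a, a ∈ P ↔ ∀ α, coeff α a ∈ q := by
    intro a
    rw [RingHom.mem_ker, MvPolynomial.ext_iff]
    refine forall_congr' fun α => ?_
    rw [coeff_map, coeff_zero, Ideal.Quotient.eq_zero_iff_mem]
  refine ⟨V, fun a => ⟨(V.valuation_le_one_iff _).2 (hmem a), ?_⟩⟩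
  rw [← hP', ← (V.valuation_lt_one_iff ⟨aeval t a, hmem a⟩), IsLocalRing.mem_maximalIdeal,
    mem_nonunits_iff]
  have key : IsUnit (⟨aeval t a, hmem a⟩ : V) ↔ IsUnit (algebraMap (MvPolynomial ι A₀) L a) := by
    have h2 : (f.codRestrict V.toSubring h) (algebraMap (MvPolynomial ι A₀) L a) =
        (⟨aeval t a, hmem a⟩ : V) := Subtype.ext (hf a)
    constructor
    · intro hV
      rw [← h2] at hV
      exact hloc.map_nonunit _ hV
    · intro hL
      rw [← h2]
      exact hL.map _
  rw [key, IsLocalization.AtPrime.isUnit_to_map_iff L P]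
  show ¬ a ∈ P.primeCompl ↔ a ∈ P
  exact not_not

/-- the same for one element -/
theorem gauss_poly {A₀ E : Type} [CommRing A₀] [Field E] [Algebra A₀ E] (s : E)
    (hs : Transcendental A₀ s) (q : Ideal A₀) [q.IsPrime] :
    ∃ V : ValuationSubring E, ∀ a : Polynomial A₀, V.valuation (Polynomial.aeval s a) ≤ 1 ∧
      (V.valuation (Polynomial.aeval s a) < 1 ↔ ∀ k, a.coeff k ∈ q) := by
  classical
  let φ : Polynomial A₀ →+* Polynomial (A₀ ⧸ q) := Polynomial.mapRingHom (Ideal.Quotient.mk q)
  let P := RingHom.ker φ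
  have hP : P.IsPrime := RingHom.ker_isPrime φ
  let L := Localization.AtPrime P
  have hu : ∀ a : P.primeCompl,
      IsUnit ((Polynomial.aeval s : Polynomial A₀ →ₐ[A₀] E).toRingHom a) := by
    intro a
    rw [isUnit_iff_ne_zero]
    intro h0
    have h1 : (a : Polynomial A₀) = 0 := transcendental_iff.1 hs _ h0
    apply a.2
    rw [h1]
    exact P.zero_mem
  let f : L →+* E := IsLocalization.lift (M := P.primeCompl) hu
  obtain ⟨V, h, hloc⟩ := IsLocalRing.exists_factor_valuationRing f
  have hf : ∀ a, f (algebraMap (Polynomial A₀) L a) = Polynomial.aeval s a := fun a =>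
    IsLocalization.lift_eq hu a
  have hmem : ∀ a : Polynomial A₀, Polynomial.aeval s a ∈ V := by
    intro a
    have h1 := h (algebraMap (Polynomial A₀) L a)
    rw [hf] at h1
    exact h1
  have hP' : ∀ a, a ∈ P ↔ ∀ k, a.coeff k ∈ q := by
    intro a
    rw [RingHom.mem_ker, Polynomial.ext_iff]
    refine forall_congr' fun k => ?_
    rw [Polynomial.coe_mapRingHom, Polynomial.coeff_map, Polynomial.coeff_zero,
      Ideal.Quotient.eq_zero_iff_mem]
  refine ⟨V, fun a => ⟨(V.valuation_le_one_iff _).2 (hmem a), ?_⟩⟩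
  rw [← hP', ← (V.valuation_lt_one_iff ⟨Polynomial.aeval s a, hmem a⟩),
    IsLocalRing.mem_maximalIdeal, mem_nonunits_iff]
  have key : IsUnit (⟨Polynomial.aeval s a, hmem a⟩ : V) ↔
      IsUnit (algebraMap (Polynomial A₀) L a) := by
    have h2 : (f.codRestrict V.toSubring h) (algebraMap (Polynomial A₀) L a) =
        (⟨Polynomial.aeval s a, hmem a⟩ : V) := Subtype.ext (hf a)
    constructor
    · intro hV
      rw [← h2] at hV
      exact hloc.map_nonunit _ hV
    · intro hL
      rw [← h2]
      exact hL.map _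
  rw [key, IsLocalization.AtPrime.isUnit_to_map_iff L P]
  show ¬ a ∈ P.primeCompl ↔ a ∈ P
  exact not_not

/-- the elements with value less than one -/
def vId {A L Γ : Type} [CommRing A] [Field L] [LinearOrderedCommGroupWithZero Γ]
    (ν : Valuation L Γ) (j : A →+* L) (hj : ∀ x, ν (j x) ≤ 1) : Ideal A where
  carrier := {x | ν (j x) < 1}
  add_mem' := by
    intro a b ha hb
    show ν (j (a + b)) < 1
    rw [map_add]
    exact ν.map_add_lt ha hb
  zero_mem' := by
    show ν (j 0) < 1
    rw [map_zero, map_zero]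
    exact zero_lt_one
  smul_mem' := by
    intro c a ha
    show ν (j (c • a)) < 1
    rw [smul_eq_mul, map_mul, map_mul]
    exact lt_of_le_of_lt (mul_le_of_le_one_left' (hj c)) ha

lemma mem_vId {A L Γ : Type} [CommRing A] [Field L] [LinearOrderedCommGroupWithZero Γ]
    (ν : Valuation L Γ) (j : A →+* L) (hj : ∀ x, ν (j x) ≤ 1) (x : A) :
    x ∈ vId ν j hj ↔ ν (j x) < 1 := Iff.rfl

lemma vId_prime {A L Γ : Type} [CommRing A] [Field L] [LinearOrderedCommGroupWithZero Γ]
    (ν : Valuation L Γ) (j : A →+* L) (hj : ∀ x, ν (j x) ≤ 1) : (vId ν j hj).IsPrime := by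
  rw [Ideal.isPrime_iff]
  refine ⟨?_, ?_⟩
  · rw [Ideal.ne_top_iff_one, mem_vId, map_one, map_one]
    exact lt_irrefl _
  · intro x y hxy
    rw [mem_vId, map_mul, map_mul] at hxy
    rw [mem_vId, mem_vId]
    by_contra hcon
    push Not at hcon
    have h1 := le_antisymm (hj x) hcon.1
    have h2 := le_antisymm (hj y) hcon.2
    rw [h1, h2, one_mul] at hxy
    exact lt_irrefl _ hxy

end Pool.Agent.Campana
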