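import Pool.Agent.Lib_MP_1209e6_mh.Indep
import Pool.Agent.Lib_MP_1209e6_mh.Wr
import Pool.Agent.Lib_MP_1209e6_mh.ElimV
import Pool.Agent.Lib_MP_b9fedf_sq.HomFac

/-! Orders of forms at a place, and the order of the canonical form of projective space. -/

set_option autoImplicit false

namespace Pool.Agent.Campana

open MvPolynomial

/-- Euler's relation and the chain rule in matrix form -/
lemma wrM_mulVec {K : Type} [Field K] [Algebra ℂ K] {n : ℕ} (x : Fin (n + 1) → K)
    (E : Fin n → Derivation ℂ K K) (Q : MvPolynomial (Fin (n + 1)) ℂ) (k : ℕ)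
    (hQ : Q.IsHomogeneous k) (r : Fin (n + 1)) :
    ∑ j, wrM x E r j * aeval x (pderiv j Q) =
      (Fin.cases ((k : K) * aeval x Q) (fun i => E i (aeval x Q)) r : K) := by
  refine Fin.cases ?_ (fun i => ?_) r
  · have h1 := congrArg (aeval x) hQ.sum_X_mul_pderiv
    rw [map_sum, map_nsmul, nsmul_eq_mul] at h1
    rw [Fin.cases_zero, ← h1]
    refine Finset.sum_congr rfl fun j _ => ?_
    rw [map_mul, aeval_X, wrM_zero]
  · rw [Fin.cases_succ, der_aeval]
    refine Finset.sum_congr rfl fun j _ => ?_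
    rw [wrM_succ, mul_comm]

lemma det_grad {K : Type} [Field K] [Algebra ℂ K] {n : ℕ} (x : Fin (n + 1) → K)
    (E : Fin n → Derivation ℂ K K) (Q : MvPolynomial (Fin (n + 1)) ℂ) (k : ℕ)
    (hQ : Q.IsHomogeneous k) (j : Fin (n + 1)) :
    (wrM x E).det * aeval x (pderiv j Q) = (wrM x E).adjugate j 0 * ((k : K) * aeval x Q) +
      ∑ i : Fin n, (wrM x E).adjugate j i.succ * E i (aeval x Q) := by
  have h1 := congrArg (fun A => A.mulVec (fun j => aeval x (pderiv j Q)) j)
    (Matrix.adjugate_mul (wrM x E))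
  simp only [Matrix.smul_mulVec, Matrix.one_mulVec, Pi.smul_apply, smul_eq_mul,
    ← Matrix.mulVec_mulVec] at h1
  rw [← h1]
  have h2 : ∀ r, (wrM x E).mulVec (fun j => aeval x (pderiv j Q)) r =
      (Fin.cases ((k : K) * aeval x Q) (fun i => E i (aeval x Q)) r : K) :=
    fun r => wrM_mulVec x E Q k hQ r
  show ∑ r, (wrM x E).adjugate j r * (wrM x E).mulVec (fun j => aeval x (pderiv j Q)) r = _
  rw [Fin.sum_univ_succ, h2 0, Fin.cases_zero]
  congr 1
  refine Finset.sum_congr rfl fun i _ => ?_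
  rw [h2 i.succ, Fin.cases_succ]

lemma adj_mem {K : Type} [Field K] [Algebra ℂ K] {O : ValuationSubring K} {n : ℕ}
    (x : Fin (n + 1) → K) (hx : ∀ j, x j ∈ O) (E : Fin n → Derivation ℂ K K)
    (hE : ∀ i, ∀ a ∈ O, E i a ∈ O) (j r : Fin (n + 1)) : (wrM x E).adjugate j r ∈ O := by
  classical
  rw [Matrix.adjugate_apply]
  apply F_det_mem
  intro a b
  by_cases ha : a = r
  · subst ha
    rw [Matrix.updateRow_self, Pi.single_apply]
    split_ifs
    · exact O.one_mem
    · exact O.zero_mem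
  · rw [Matrix.updateRow_ne ha]
    refine Fin.cases ?_ (fun i => ?_) a
    · exact hx b
    · exact hE i _ (hx b)

lemma ord_const {K : Type} [Field K] [Algebra ℂ K] {O : ValuationSubring K} (hO : IsPlace O)
    {v : K → ℤ} (hv : IsOrd O v) (c : ℂ) (hc : c ≠ 0) : v (algebraMap ℂ K c) = 0 := by
  have hc' : algebraMap ℂ K c ≠ 0 := (map_ne_zero _).2 hc
  have h1 := (hv.2.1 _ hc').1 (hO.1 c)
  have h2 := (hv.2.1 _ (inv_ne_zero hc')).1 (by rw [← map_inv₀]; exact hO.1 _)
  rw [F_ord_inv hv _ hc'] at h2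
  omega

lemma aeval_mem {K : Type} [Field K] [Algebra ℂ K] {O : ValuationSubring K} (hO : IsPlace O)
    {n : ℕ} (x : Fin (n + 1) → K) (hx : ∀ j, x j ∈ O) (Q : MvPolynomial (Fin (n + 1)) ℂ) :
    aeval x Q ∈ O := by
  induction Q using MvPolynomial.induction_on with
  | C a =>
    rw [aeval_C]
    exact hO.1 a
  | add p q hp hq =>
    rw [map_add]
    exact O.add_mem _ _ hp hq
  | mul_X p i hp =>
    rw [map_mul, aeval_X]
    exact O.mul_mem _ _ hp (hx i)

/-- some derivative of a form of positive degree is nonzero -/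
lemma exists_pderiv_ne {n k : ℕ} (Q : MvPolynomial (Fin (n + 1)) ℂ) (hQ : Q.IsHomogeneous (k + 1))
    (hQ0 : Q ≠ 0) : ∃ j, pderiv j Q ≠ 0 := by
  by_contra hcon
  push Not at hcon
  have h1 := hQ.sum_X_mul_pderiv
  rw [Finset.sum_eq_zero (fun i _ => by rw [hcon i, mul_zero])] at h1
  have h2 : ((k + 1 : ℕ) : MvPolynomial (Fin (n + 1)) ℂ) * Q = 0 := by
    rw [← nsmul_eq_mul]
    exact h1.symm
  rcases mul_eq_zero.1 h2 with h3 | h3
  · exact (Nat.cast_ne_zero.2 (Nat.succ_ne_zero k)) h3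
  · exact hQ0 h3

/-- the order of a form is bounded by its degree times the log discrepancy -/
theorem ord_form_le {K : Type} [Field K] [Algebra ℂ K] {O : ValuationSubring K}
    (hO : IsPlace O) {v : K → ℤ} (hv : IsOrd O v) {n : ℕ} (x : Fin (n + 1) → K)
    (hx : ∀ j, x j ∈ O)
    (hnd : ∀ (d : ℕ) (Q : MvPolynomial (Fin (n + 1)) ℂ), Q.IsHomogeneous d → aeval x Q = 0 → Q = 0)
    (E : Fin n → Derivation ℂ K K) (hE : ∀ i, ∀ a ∈ O, E i a ∈ O)
    (hdet : (wrM x E).det ≠ 0) (k : ℕ) : ∀ Q : MvPolynomial (Fin (n + 1)) ℂ, Q.IsHomogeneous k →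
      Q ≠ 0 → v (aeval x Q) ≤ k * (1 + v (wrM x E).det) := by
  obtain ⟨t, ht0, hvt⟩ := hv.2.2
  have htO : t ∈ O := by
    rw [hv.2.1 t ht0, hvt]
    norm_num
  have hβ : 0 ≤ v (wrM x E).det := by
    rw [← hv.2.1 _ hdet]
    exact wr_mem x hx E hE
  induction k with
  | zero =>
    intro Q hQ hQ0
    have h1 : Q = C (coeff 0 Q) := by
      rw [← totalDegree_zero_iff_isHomogeneous] at hQ
      exact totalDegree_eq_zero_iff_eq_C.1 hQ
    have h2 : coeff 0 Q ≠ 0 := by
      intro h0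
      rw [h0, map_zero] at h1
      exact hQ0 h1
    rw [h1, aeval_C, ord_const hO hv _ h2]
    simp
  | succ k ih =>
    intro Q hQ hQ0
    have hQx : aeval x Q ≠ 0 := fun h => hQ0 (hnd _ Q hQ h)
    by_cases hpos : v (aeval x Q) ≤ 0
    · refine hpos.trans ?_
      positivity
    push Not at hpos
    obtain ⟨s, hs⟩ : ∃ s : ℕ, v (aeval x Q) = (s + 1 : ℕ) :=
      ⟨(v (aeval x Q) - 1).toNat, by push_cast; omega⟩
    obtain ⟨j, hj⟩ := exists_pderiv_ne Q hQ hQ0
    have hQj : (pderiv j Q).IsHomogeneous k := hQ.pderiv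
    have hQjx : aeval x (pderiv j Q) ≠ 0 := fun h => hj (hnd _ _ hQj h)
    have h1 := ih _ hQj hj
    -- the value of Q is divisible by t ^ (s + 1)
    set q := aeval x Q / t ^ (s + 1) with hq
    have hqO : q ∈ O := by
      rw [hq, hv.2.1 _ (div_ne_zero hQx (pow_ne_zero _ ht0)), div_eq_mul_inv,
        hv.1 _ _ hQx (inv_ne_zero (pow_ne_zero _ ht0)), F_ord_inv hv _ (pow_ne_zero _ ht0),
        F_ord_pow hv t ht0, hvt, hs]
      omega
    have hQt : aeval x Q = t ^ (s + 1) * q := by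
      rw [hq]
      field_simp
    have hEQ : ∀ i, ∃ w ∈ O, E i (aeval x Q) = t ^ s * w := by
      intro i
      refine ⟨((s + 1 : ℕ) : K) * E i t * q + t * E i q, ?_, ?_⟩
      · refine O.add_mem _ _ (O.mul_mem _ _ (O.mul_mem _ _ ?_ (hE i t htO)) hqO)
          (O.mul_mem _ _ htO (hE i q hqO))
        exact natCast_mem O (s + 1)
      · rw [hQt, Derivation.leibniz, Derivation.leibniz_pow]
        simp only [smul_eq_mul, nsmul_eq_mul, Nat.add_sub_cancel]
        ring
    choose w hwO hw using hEQ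
    have h2 := det_grad x E Q (k + 1) hQ j
    have h3 : (wrM x E).det * aeval x (pderiv j Q) / t ^ s ∈ O := by
      have h4 : (wrM x E).det * aeval x (pderiv j Q) / t ^ s =
          (wrM x E).adjugate j 0 * (((k + 1 : ℕ) : K) * (t * q)) +
          ∑ i : Fin n, (wrM x E).adjugate j i.succ * w i := by
        rw [h2, hQt, ← hQt]
        simp only [hw]
        rw [hQt, div_eq_iff (pow_ne_zero _ ht0), add_mul, Finset.sum_mul]
        congr 1
        · ring
        · exact Finset.sum_congr rfl fun i _ => by ring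
      rw [h4]
      refine O.add_mem _ _ (O.mul_mem _ _ (adj_mem x hx E hE _ _) (O.mul_mem _ _
        (natCast_mem O (k + 1)) (O.mul_mem _ _ htO hqO))) (sum_mem fun i _ =>
          O.mul_mem _ _ (adj_mem x hx E hE _ _) (hwO i))
    rw [hv.2.1 _ (div_ne_zero (mul_ne_zero hdet hQjx) (pow_ne_zero _ ht0)), div_eq_mul_inv,
      hv.1 _ _ (mul_ne_zero hdet hQjx) (inv_ne_zero (pow_ne_zero _ ht0)), hv.1 _ _ hdet hQjx,
      F_ord_inv hv _ (pow_ne_zero _ ht0), F_ord_pow hv t ht0, hvt] at h3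
    rw [hs]
    push_cast
    nlinarith

end Pool.Agent.Campana
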