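import Pool.Agent.Lib_MP_1209e6_ag.Defs
import Pool.Agent.Lib_MP_1209e6_ag.Der
import Pool.Agent.Lib_MP_1209e6_ag.Place

/-! Linear changes of homogeneous coordinates and algebraic independence. -/

set_option autoImplicit false

namespace Pool.Agent.Campana

open MvPolynomial

lemma der_aeval {K : Type} [Field K] [Algebra ℂ K] {p : ℕ} (x : Fin p → K)
    (D : Derivation ℂ K K) (q : MvPolynomial (Fin p) ℂ) :
    D (aeval x q) = ∑ j, aeval x (pderiv j q) * D (x j) := by
  induction q using MvPolynomial.induction_on with
  | C a =>
    simp only [aeval_C, Derivation.map_algebraMap, pderiv_C, map_zero, zero_mul,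
      Finset.sum_const_zero]
  | add p q hp hq =>
    simp only [map_add, hp, hq, add_mul, Finset.sum_add_distrib]
  | mul_X f i hp =>
    rw [map_mul, aeval_X, Derivation.leibniz, hp]
    simp only [smul_eq_mul, pderiv_mul, map_add, map_mul, aeval_X, add_mul,
      Finset.sum_add_distrib]
    have h1 : ∀ j, aeval x (pderiv j (X i : MvPolynomial (Fin p) ℂ)) = if j = i then (1 : K) else 0 := by
      intro j
      by_cases h : j = i
      · subst h
        simp
      · rw [if_neg h, pderiv_X_of_ne (fun h' => h h'.symm), map_zero]
    simp only [h1]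
    have h2 : ∑ j, aeval x f * (if j = i then (1 : K) else 0) * D (x j) = aeval x f * D (x i) := by
      rw [Finset.sum_eq_single i]
      · simp
      · intro j _ hj
        simp [hj]
      · simp
    rw [h2, Finset.mul_sum, add_comm]
    congr 1
    refine Finset.sum_congr rfl fun j _ => ?_
    ring

/-- dual derivations give algebraic independence -/
theorem algIndep_of_der {K : Type} [Field K] [Algebra ℂ K] {p : ℕ} (x : Fin p → K)
    (D : Fin p → Derivation ℂ K K) (h : ∀ i j, i ≠ j → D i (x j) = 0)
    (h' : ∀ i, D i (x i) ≠ 0) : AlgebraicIndependent ℂ x := by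
  rw [algebraicIndependent_iff]
  have key : ∀ (N : ℕ) (q : MvPolynomial (Fin p) ℂ), (∀ m ∈ q.support, m.degree < N) →
      aeval x q = 0 → q = 0 := by
    intro N
    induction N with
    | zero =>
      intro q hq _
      rw [← support_eq_empty]
      by_contra hne
      obtain ⟨m, hm⟩ := Finset.nonempty_iff_ne_empty.2 hne
      exact absurd (hq m hm) (Nat.not_lt_zero _)
    | succ N ih =>
      intro q hq hx
      have hpd : ∀ i, pderiv i q = 0 := by
        intro i
        apply ih
        · intro m hm
          rw [mem_support_iff, coeff_pderiv] at hm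
          have h1 : m + Finsupp.single i 1 ∈ q.support := by
            rw [mem_support_iff]
            exact fun h0 => hm (by rw [h0, zero_mul])
          have h2 := hq _ h1
          rw [map_add, Finsupp.degree_single] at h2
          omega
        · have h1 := der_aeval x (D i) q
          rw [hx, map_zero, Finset.sum_eq_single i] at h1
          · exact (mul_eq_zero.1 h1.symm).resolve_right (h' i)
          · intro j _ hj
            rw [h i j (Ne.symm hj), mul_zero]
          · simp
      have hC : q = C (coeff 0 q) := by
        ext m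
        rw [coeff_C]
        by_cases hm : 0 = m
        · rw [if_pos hm, hm]
        · rw [if_neg hm]
          obtain ⟨i, hi⟩ : ∃ i, m i ≠ 0 := by
            by_contra hcon
            push Not at hcon
            exact hm (Finsupp.ext fun i => (hcon i).symm)
          have h1 := coeff_pderiv (i := i) q (m - Finsupp.single i 1)
          rw [hpd i, coeff_zero] at h1
          have h2 : m - Finsupp.single i 1 + Finsupp.single i 1 = m := by
            apply tsub_add_cancel_of_le
            rw [Finsupp.single_le_iff]
            omega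
          rw [h2] at h1
          rcases mul_eq_zero.1 h1.symm with h3 | h3
          · exact h3
          · exfalso
            exact Nat.cast_add_one_ne_zero _ h3
      rw [hC] at hx ⊢
      rw [aeval_C, map_eq_zero] at hx
      rw [hx, map_zero]
  intro q hq
  refine key (q.totalDegree + 1) q ?_ hq
  intro m hm
  have := le_totalDegree hm
  rw [Finsupp.degree_eq_sum] 
  rw [Finsupp.sum_fintype _ _ (fun _ => rfl)] at this
  omega

/-- Homogeneous form of the dual derivations: every `ℂ`-linear map from the linear forms to `K` is
induced, up to a multiple of the evaluation, by a derivation. -/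
theorem exists_der_lin {K : Type} [Field K] [Algebra ℂ K] {n : ℕ} (y : Fin (n + 1) → K)
    (hy0 : y 0 ≠ 0) (hy : AlgebraicIndependent ℂ (fun i : Fin n => y i.succ / y 0))
    (S : (Fin (n + 1) → ℂ) →ₗ[ℂ] K) :
    ∃ (D : Derivation ℂ K K) (c : K), ∀ a : Fin (n + 1) → ℂ,
      D (Fintype.linearCombination ℂ y a) = S a + c * Fintype.linearCombination ℂ y a := by
  classical
  obtain ⟨D, hD⟩ := exists_derivation (fun i : Fin n => y i.succ / y 0) hy
    (fun i => S (Pi.single i.succ 1) / y 0 - S (Pi.single 0 1) * y i.succ / y 0 ^ 2)
  refine ⟨D, (D (y 0) - S (Pi.single 0 1)) / y 0, ?_⟩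
  have key : ∀ i, D (y i) = S (Pi.single i 1) + (D (y 0) - S (Pi.single 0 1)) / y 0 * y i := by
    intro i
    refine Fin.cases ?_ (fun i => ?_) i
    · field_simp
      ring
    · have h1 : y i.succ = y 0 * (y i.succ / y 0) := by field_simp
      have h2 : D (y i.succ) = y 0 * D (y i.succ / y 0) + (y i.succ / y 0) * D (y 0) := by
        conv_lhs => rw [h1]
        rw [Derivation.leibniz, smul_eq_mul, smul_eq_mul]
      rw [h2, hD i]
      field_simp
      ring
  intro a
  have h1 : S a = ∑ i, a i • S (Pi.single i 1) := by
    conv_lhs => rw [pi_eq_sum_univ a]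
    rw [map_sum]
    refine Finset.sum_congr rfl fun i _ => ?_
    rw [map_smul]
    congr 2
    ext j
    by_cases h : i = j
    · subst h
      simp
    · simp [h]
  rw [Fintype.linearCombination_apply, map_sum, h1, Finset.mul_sum, ← Finset.sum_add_distrib]
  refine Finset.sum_congr rfl fun i _ => ?_
  rw [Derivation.map_smul, key i, smul_add, mul_smul_comm]

lemma lin_ne_zero {K : Type} [Field K] [Algebra ℂ K] {n : ℕ} (y : Fin (n + 1) → K)
    (hy0 : y 0 ≠ 0) (hy : AlgebraicIndependent ℂ (fun i : Fin n => y i.succ / y 0))
    (a : Fin (n + 1) → ℂ) (ha : a ≠ 0) : Fintype.linearCombination ℂ y a ≠ 0 := by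
  intro h0
  obtain ⟨i, hi⟩ := Function.ne_iff.1 ha
  obtain ⟨D, c, hD⟩ := exists_der_lin y hy0 hy
    ((Algebra.linearMap ℂ K).comp (LinearMap.proj i))
  have h1 := hD a
  rw [h0, map_zero, mul_zero, add_zero] at h1
  have h2 : algebraMap ℂ K (a i) = 0 := h1.symm
  exact hi ((map_eq_zero _).1 h2)

/-- linearly independent linear forms in `y` are again homogeneous coordinates with
algebraically independent ratios -/
theorem algIndep_lin {K : Type} [Field K] [Algebra ℂ K] {n k : ℕ} (y : Fin (n + 1) → K)
    (hy0 : y 0 ≠ 0) (hy : AlgebraicIndependent ℂ (fun i : Fin n => y i.succ / y 0))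
    (w : Fin (k + 1) → Fin (n + 1) → ℂ) (hw : LinearIndependent ℂ w) :
    AlgebraicIndependent ℂ (fun i : Fin k => Fintype.linearCombination ℂ y (w i.succ) /
      Fintype.linearCombination ℂ y (w 0)) := by
  classical
  have hex : ∀ i : Fin k, ∃ (D : Derivation ℂ K K) (c : K), ∀ j : Fin (k + 1),
      D (Fintype.linearCombination ℂ y (w j)) =
        (if j = i.succ then 1 else 0) + c * Fintype.linearCombination ℂ y (w j) := by
    intro i
    obtain ⟨g, hg⟩ := LinearMap.exists_leftInverse_of_injective (Fintype.linearCombination ℂ w)
      (LinearMap.ker_eq_bot.2 (linearIndependent_iff_injective_fintypeLinearCombination.1 hw))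
    obtain ⟨D, c, hD⟩ := exists_der_lin y hy0 hy
      ((Algebra.linearMap ℂ K).comp ((LinearMap.proj i.succ).comp g))
    refine ⟨D, c, fun j => ?_⟩
    rw [hD]
    congr 1
    have h1 : g (w j) = Pi.single j 1 := by
      have h2 := congrArg (fun T => T (Pi.single j (1 : ℂ))) hg
      simp only [LinearMap.comp_apply, LinearMap.id_apply] at h2
      rw [← h2]
      congr 1
      rw [Fintype.linearCombination_apply, Finset.sum_eq_single j]
      · simp
      · intro l _ hl
        simp [hl]
      · simp
    rw [LinearMap.comp_apply, LinearMap.comp_apply, h1, LinearMap.proj_apply,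
      Algebra.linearMap_apply]
    by_cases hj : j = i.succ
    · rw [hj, if_pos rfl, Pi.single_eq_same, map_one]
    · rw [if_neg hj, Pi.single_eq_of_ne (Ne.symm hj), map_zero]
  choose D c hD using hex
  have hw0 : Fintype.linearCombination ℂ y (w 0) ≠ 0 := lin_ne_zero y hy0 hy _ (hw.ne_zero 0)
  have key : ∀ i j : Fin k, D i (Fintype.linearCombination ℂ y (w j.succ) /
      Fintype.linearCombination ℂ y (w 0)) =
      (if j = i then 1 else 0) / Fintype.linearCombination ℂ y (w 0) := by
    intro i j
    have h1 := hD i j.succ
    have h2 := hD i 0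
    rw [if_neg (Fin.succ_ne_zero i).symm, zero_add] at h2
    rw [Derivation.leibniz_div, h1, h2]
    simp only [Fin.succ_inj, smul_eq_mul]
    field_simp
    ring
  refine algIndep_of_der _ D ?_ ?_
  · intro i j hij
    rw [key, if_neg (Ne.symm hij), zero_div]
  · intro i
    rw [key, if_pos rfl]
    exact div_ne_zero one_ne_zero hw0

end Pool.Agent.Campana
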