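import Pool.Agent.Lib_MP_1209e6_mh.Dg

/-! The algebraic part of the bound for the order of a squarefree member. -/

set_option autoImplicit false

namespace Pool.Agent.Campana

open MvPolynomial

/-- an element with an equation whose leading coefficient is a unit is integral -/
lemma val_le_of_root {A L Γ : Type} [CommRing A] [Field L] [LinearOrderedCommGroupWithZero Γ]
    (ν : Valuation L Γ) (j : A →+* L) (hj : ∀ x, ν (j x) ≤ 1) (z : L) (F : Polynomial A)
    (hF : F.eval₂ j z = 0) (hl : ν (j F.leadingCoeff) = 1) : ν z ≤ 1 := by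
  by_contra hcon
  push Not at hcon
  rw [Polynomial.eval₂_eq_sum_range, Finset.sum_range_succ] at hF
  have h1 : ν (j (F.coeff F.natDegree) * z ^ F.natDegree) = ν z ^ F.natDegree := by
    rw [map_mul, map_pow]
    have h2 : ν (j (F.coeff F.natDegree)) = 1 := hl
    rw [h2, one_mul]
  have h3 : ν (∑ i ∈ Finset.range F.natDegree, j (F.coeff i) * z ^ i) < ν z ^ F.natDegree := by
    apply ν.map_sum_lt
    · exact pow_ne_zero _ (lt_trans zero_lt_one hcon).ne'
    · intro i hi
      rw [map_mul, map_pow]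
      exact lt_of_le_of_lt (mul_le_of_le_one_left' (hj _))
        (pow_lt_pow_right₀ hcon (Finset.mem_range.1 hi))
  have h4 : j (F.coeff F.natDegree) * z ^ F.natDegree =
      - ∑ i ∈ Finset.range F.natDegree, j (F.coeff i) * z ^ i := by
    linear_combination hF
  rw [h4, Valuation.map_neg] at h1
  rw [h1] at h3
  exact lt_irrefl _ h3

lemma evR_injective {n r d : ℕ} (e : ℕ) (w : Fin (d + 1) → MvPolynomial (Fin (n + 1)) ℂ)
    (τ : Fin r → Fin (n + 1))
    (hind : AlgebraicIndependent ℂ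
      (Sum.elim (fun i => (X (τ i) : MvPolynomial (Fin (n + 1)) ℂ) ^ e) w)) :
    Function.Injective (evR e w τ) := by
  have h1 : ∀ p : MvPolynomial (Fin r ⊕ Fin (d + 1)) ℂ,
      evR e w τ (sumAlgEquiv ℂ (Fin r) (Fin (d + 1)) p) =
      aeval (Sum.elim (fun i => (X (τ i) : MvPolynomial (Fin (n + 1)) ℂ) ^ e) w) p := by
    intro p
    have h2 : (evR e w τ).comp (sumAlgEquiv ℂ (Fin r) (Fin (d + 1))).toAlgHom.toRingHom =
        ((aeval (Sum.elim (fun i => (X (τ i) : MvPolynomial (Fin (n + 1)) ℂ) ^ e) w) :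
          MvPolynomial (Fin r ⊕ Fin (d + 1)) ℂ →ₐ[ℂ] MvPolynomial (Fin (n + 1)) ℂ) :
          MvPolynomial (Fin r ⊕ Fin (d + 1)) ℂ →+* MvPolynomial (Fin (n + 1)) ℂ) := by
      apply MvPolynomial.ringHom_ext
      · intro a
        show evR e w τ (sumAlgEquiv ℂ (Fin r) (Fin (d + 1)) (C a)) = aeval _ (C a)
        rw [sumAlgEquiv_C_inl, evR_C, aeval_C, aeval_C]
      · intro i
        show evR e w τ (sumAlgEquiv ℂ (Fin r) (Fin (d + 1)) (X i)) = aeval _ (X i)
        rw [aeval_X]
        rcases i with i | l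
        · rw [sumAlgEquiv_X_inl, evR_X]
          rfl
        · rw [sumAlgEquiv_X_inr, evR_C, aeval_X]
          rfl
    exact congrArg (fun f => f p) h2
  rw [injective_iff_map_eq_zero]
  intro a ha
  obtain ⟨p, rfl⟩ := (sumAlgEquiv ℂ (Fin r) (Fin (d + 1))).surjective a
  rw [h1] at ha
  rw [algebraicIndependent_iff.1 hind p ha, map_zero]

/-- over the forms `X_τ ^ e`, `w` every polynomial is algebraic -/
lemma exists_relation {n r d : ℕ} {e : ℕ} (he : 1 ≤ e)
    (w : Fin (d + 1) → MvPolynomial (Fin (n + 1)) ℂ) (τ : Fin r → Fin (n + 1))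
    (F : Fin (n + 1) → Polynomial (MvPolynomial (Fin r) (MvPolynomial (Fin (d + 1)) ℂ)))
    (hF : ∀ j, (F j).eval₂ (evR e w τ) (X j ^ e) = 0) (hF0 : ∀ j, F j ≠ 0)
    (g : MvPolynomial (Fin (n + 1)) ℂ) :
    ∃ p : Polynomial (MvPolynomial (Fin r) (MvPolynomial (Fin (d + 1)) ℂ)), p ≠ 0 ∧
      p.eval₂ (evR e w τ) g = 0 := by
  let _ : Algebra (MvPolynomial (Fin r) (MvPolynomial (Fin (d + 1)) ℂ))
    (MvPolynomial (Fin (n + 1)) ℂ) := (evR e w τ).toAlgebra
  have hX : ∀ j : Fin (n + 1), IsAlgebraic (MvPolynomial (Fin r) (MvPolynomial (Fin (d + 1)) ℂ))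
      (X j : MvPolynomial (Fin (n + 1)) ℂ) := by
    intro j
    have h1 : IsAlgebraic (MvPolynomial (Fin r) (MvPolynomial (Fin (d + 1)) ℂ))
      ((X j : MvPolynomial (Fin (n + 1)) ℂ) ^ e) := ⟨F j, hF0 j, hF j⟩
    exact h1.of_pow (by omega)
  have h2 : IsAlgebraic (MvPolynomial (Fin r) (MvPolynomial (Fin (d + 1)) ℂ)) g := by
    induction g using MvPolynomial.induction_on with
    | C a =>
      have h3 : (C a : MvPolynomial (Fin (n + 1)) ℂ) = evR e w τ (C (C a)) := by
        rw [evR_C, aeval_C]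
        rfl
      rw [h3]
      exact isAlgebraic_algebraMap (C (C a))
    | add p q hp hq => exact hp.add hq
    | mul_X p i hp => exact hp.mul (hX i)
  obtain ⟨p, hp0, hp⟩ := h2
  exact ⟨p, hp0, hp⟩

theorem key_alg {n e r d : ℕ} (he : 1 ≤ e) (w : Fin (d + 1) → MvPolynomial (Fin (n + 1)) ℂ)
    (τ : Fin r → Fin (n + 1)) (hinj : Function.Injective (evR e w τ))
    {L : Type} [Field L] (φ : MvPolynomial (Fin (n + 1)) ℂ →+* L) (V : ValuationSubring L)
    (hφ : Function.Injective φ) (π : MvPolynomial (Fin (d + 1)) ℂ) (hπ : Irreducible π)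
    (h1 : ∀ a, V.valuation (φ (evR e w τ a)) ≤ 1 ∧
      (V.valuation (φ (evR e w τ a)) < 1 → C π ∣ a))
    (h2 : V.valuation (φ (aeval w π)) < 1)
    (F : Fin (n + 1) → Polynomial (MvPolynomial (Fin r) (MvPolynomial (Fin (d + 1)) ℂ)))
    (hF : ∀ j, (F j).eval₂ (evR e w τ) (X j ^ e) = 0)
    (hF0 : ∀ j, ¬ C π ∣ (F j).leadingCoeff)
    (P : MvPolynomial (Fin (n + 1)) ℂ) (hP : Squarefree P)
    (h3 : V.valuation (φ P) ≤ V.valuation (φ (aeval w π)) ^ 2) : False := by
  classical
  have hF00 : ∀ j, F j ≠ 0 := by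
    intro j h0
    apply hF0 j
    rw [h0, Polynomial.leadingCoeff_zero]
    exact dvd_zero _
  -- integrality
  have hX : ∀ j, V.valuation (φ (X j)) ≤ 1 := by
    intro j
    have h4 : V.valuation (φ (X j) ^ e) ≤ 1 := by
      refine val_le_of_root V.valuation (φ.comp (evR e w τ)) (fun a => (h1 a).1) _ (F j) ?_ ?_
      · rw [← map_pow, ← Polynomial.hom_eval₂, hF j, map_zero]
      · exact le_antisymm (h1 _).1 (not_lt.1 fun h5 => hF0 j ((h1 _).2 h5))
    rw [map_pow] at h4
    exact (pow_le_one_iff (by omega)).1 h4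
  have hφ1 : ∀ g, V.valuation (φ g) ≤ 1 := by
    intro g
    induction g using MvPolynomial.induction_on with
    | C a =>
      have h5 := (h1 (C (C a))).1
      have h6 : (C a : MvPolynomial (Fin (n + 1)) ℂ) = evR e w τ (C (C a)) := by
        rw [evR_C, aeval_C]
        rfl
      rwa [← h6] at h5
    | add p q hp hq =>
      rw [map_add]
      exact V.valuation.map_add_le hp hq
    | mul_X p i hp =>
      rw [map_mul, map_mul]
      exact mul_le_one' hp (hX i)
  let J : Ideal (MvPolynomial (Fin (n + 1)) ℂ) := vId V.valuation φ hφ1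
  have hJ : J.IsPrime := vId_prime _ _ _
  -- an irreducible factor of the pull back
  have hpi0 : aeval w π ≠ 0 := by
    intro h0
    have h5 : evR e w τ (C π) = 0 := by rw [evR_C, h0]
    have h6 := (map_eq_zero_iff _ hinj).1 h5
    exact hπ.ne_zero (C_injective _ _ (by rw [h6, map_zero]))
  obtain ⟨H, hHf, hHJ⟩ : ∃ H ∈ UniqueFactorizationMonoid.factors (aeval w π), H ∈ J := by
    rw [← hJ.multiset_prod_mem_iff_exists_mem]
    obtain ⟨u, hu⟩ := (UniqueFactorizationMonoid.factors_prod hpi0).symm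
    rw [← hu]
    exact J.mul_mem_right _ h2
  have hHirr : Irreducible H := UniqueFactorizationMonoid.irreducible_of_factor _ hHf
  have hHdvd : H ∣ aeval w π := UniqueFactorizationMonoid.dvd_of_mem_factors hHf
  have hHprime : Prime H := hHirr.prime
  have hI : (Ideal.span {H} : Ideal (MvPolynomial (Fin (n + 1)) ℂ)).IsPrime :=
    (Ideal.span_singleton_prime hHirr.ne_zero).2 hHprime
  have hIJ : (Ideal.span {H} : Ideal (MvPolynomial (Fin (n + 1)) ℂ)) ≤ J := by
    rw [Ideal.span_singleton_le_iff_mem]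
    exact hHJ
  have hJcomap : ∀ a, a ∈ J.comap (evR e w τ) → C π ∣ a := fun a ha => (h1 a).2 ha
  -- the centre of the valuation is the divisor of `H`
  have hcentre : ∀ g, g ∈ J → H ∣ g := by
    intro g hg
    by_contra hnd
    obtain ⟨p, hp0, hp⟩ := exists_relation he w τ F hF hF00 g
    let _ : NormalizedGCDMonoid (MvPolynomial (Fin r) (MvPolynomial (Fin (d + 1)) ℂ)) :=
      Nonempty.some inferInstance
    have hp1 : p.primPart.eval₂ (evR e w τ) g = 0 := by
      rw [p.eq_C_content_mul_primPart, Polynomial.eval₂_mul, Polynomial.eval₂_C, mul_eq_zero] at hp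
      rcases hp with h5 | h5
      · exfalso
        have h6 := (map_eq_zero_iff _ hinj).1 h5
        rw [Polynomial.content_eq_zero_iff] at h6
        exact hp0 h6
      · exact h5
    have hlt := Ideal.comap_lt_comap_of_root_mem_sdiff (f := evR e w τ) hIJ (r := g)
      ⟨hg, fun h5 => hnd (Ideal.mem_span_singleton.1 h5)⟩ (p := p.primPart) (by
        intro h0
        have h5 : ∀ k, C π ∣ p.primPart.coeff k := by
          intro k
          have h6 := congrArg (fun f => Polynomial.coeff f k) h0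
          simp only [Polynomial.coeff_map, Polynomial.coeff_zero] at h6
          rw [Ideal.Quotient.eq_zero_iff_mem] at h6
          exact hJcomap _ (Ideal.comap_mono hIJ h6)
        have h7 : Polynomial.C (C π) ∣ p.primPart := by
          rw [Polynomial.C_dvd_iff_dvd_coeff]
          exact h5
        have h8 := (p.isPrimitive_primPart) _ h7
        have h9 := h8.map (MvPolynomial.constantCoeff)
        rw [constantCoeff_C] at h9
        exact hπ.not_isUnit h9) (by
        rw [hp1]
        exact Ideal.zero_mem _)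
    apply hlt.not_ge
    intro a ha
    obtain ⟨b, hb⟩ := hJcomap a ha
    rw [Ideal.mem_comap, hb, map_mul, evR_C]
    exact Ideal.mul_mem_right _ _ (Ideal.mem_span_singleton.2 hHdvd)
  -- conclusion
  have hHne : V.valuation (φ H) ≠ 0 := by
    rw [Valuation.ne_zero_iff]
    exact (map_ne_zero_iff φ hφ).2 hHirr.ne_zero
  have hHlt : V.valuation (φ H) < 1 := hHJ
  have hle : V.valuation (φ (aeval w π)) ≤ V.valuation (φ H) := by
    obtain ⟨g, hg⟩ := hHdvd
    rw [hg, map_mul, map_mul]
    exact mul_le_of_le_one_right' (hφ1 g)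
  have hge : V.valuation (φ H) ≤ V.valuation (φ P) := by
    by_cases hd : H ∣ P
    · obtain ⟨P₁, hP₁⟩ := hd
      have h5 : ¬ H ∣ P₁ := by
        rintro ⟨P₂, hP₂⟩
        exact hHirr.not_isUnit (hP H ⟨P₂, by rw [hP₁, hP₂]; ring⟩)
      have h6 : V.valuation (φ P₁) = 1 :=
        le_antisymm (hφ1 _) (not_lt.1 fun h7 => h5 (hcentre _ h7))
      rw [hP₁, map_mul, map_mul, h6, mul_one]
    · have h6 : V.valuation (φ P) = 1 :=
        le_antisymm (hφ1 _) (not_lt.1 fun h7 => hd (hcentre _ h7))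
      rw [h6]
      exact hHlt.le
  have h5 : V.valuation (φ H) ≤ V.valuation (φ H) ^ 2 :=
    hge.trans (h3.trans (pow_le_pow_left₀ zero_le hle 2))
  have h6 : V.valuation (φ H) ^ 2 < V.valuation (φ H) := by
    rw [pow_two]
    exact mul_lt_of_lt_one_right (zero_lt_iff.2 hHne) hHlt
  exact absurd (lt_of_le_of_lt h5 h6) (lt_irrefl _)

end Pool.Agent.Campana
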