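import Pool.Agent.Lib_MP_1209e6_mh.KeyA
import Pool.Agent.Lib_MP_1209e6_mh.Core

/-! The bound for the order of a squarefree member at a place of log discrepancy one. -/

set_option autoImplicit false

namespace Pool.Agent.Campana

open MvPolynomial

/-- the values of the selected forms are homogeneous coordinates -/
lemma hnd_w {K : Type} [Field K] [Algebra ℂ K] {n e d : ℕ}
    (w : Fin (d + 1) → MvPolynomial (Fin (n + 1)) ℂ) (hw : ∀ l, (w l).IsHomogeneous e)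
    (hwi : AlgebraicIndependent ℂ w) (y : Fin (n + 1) → K)
    (hnd : ∀ (k : ℕ) (Q : MvPolynomial (Fin (n + 1)) ℂ), Q.IsHomogeneous k → aeval y Q = 0 → Q = 0)
    (k : ℕ) (Q : MvPolynomial (Fin (d + 1)) ℂ) (hQ : Q.IsHomogeneous k)
    (h : aeval (fun l => aeval y (w l)) Q = 0) : Q = 0 := by
  have h1 : aeval y (aeval w Q) = 0 := by
    rw [comp_aeval_apply]
    exact h
  have h2 := hnd (e * k) (aeval w Q) (hQ.aeval w hw) h1
  exact algebraicIndependent_iff.1 hwi Q h2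

lemma hnd_x {K : Type} [Field K] [Algebra ℂ K] {d : ℕ} (ω x : Fin (d + 1) → K) (h : K)
    (hx : ∀ l, ω l = h * x l)
    (hnd : ∀ (k : ℕ) (Q : MvPolynomial (Fin (d + 1)) ℂ), Q.IsHomogeneous k → aeval ω Q = 0 → Q = 0)
    (k : ℕ) (Q : MvPolynomial (Fin (d + 1)) ℂ) (hQ : Q.IsHomogeneous k)
    (h0 : aeval x Q = 0) : Q = 0 := by
  refine hnd k Q hQ ?_
  have h1 : ω = fun l => h * x l := funext hx
  rw [h1, aeval_mul_hom _ _ _ _ hQ, h0, mul_zero]

/-- the normalized relation -/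
lemma rel_eval {K : Type} [Field K] [Algebra ℂ K] {n d : ℕ}
    (w : Fin (d + 1) → MvPolynomial (Fin (n + 1)) ℂ) (y : Fin (n + 1) → K)
    (h : K) (hh : h ≠ 0) (x : Fin (d + 1) → K) (hx : ∀ l, aeval y (w l) = h * x l)
    (P : MvPolynomial (Fin (n + 1)) ℂ) (q' : ℕ) (a : ℕ → MvPolynomial (Fin (d + 1)) ℂ)
    (ha : ∀ i, i ≤ q' → (a i).IsHomogeneous (q' - i))
    (hrel : ∑ i ∈ Finset.range (q' + 1), aeval w (a i) * P ^ i = 0) :
    ∑ i ∈ Finset.range (q' + 1), aeval x (a i) * (aeval y P / h) ^ i = 0 := by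
  have h1 := congrArg (aeval y) hrel
  rw [map_sum, map_zero] at h1
  have h2 : h ^ q' * ∑ i ∈ Finset.range (q' + 1), aeval x (a i) * (aeval y P / h) ^ i = 0 := by
    rw [← h1, Finset.mul_sum]
    refine Finset.sum_congr rfl fun i hi => ?_
    have hi' : i ≤ q' := Nat.lt_succ_iff.1 (Finset.mem_range.1 hi)
    rw [map_mul, map_pow, comp_aeval_apply]
    have h3 : (fun l => aeval y (w l)) = fun l => h * x l := funext hx
    rw [h3, aeval_mul_hom _ _ _ _ (ha i hi')]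
    have h4 : h ^ q' = h ^ (q' - i) * h ^ i := by
      rw [← pow_add, Nat.sub_add_cancel hi']
    rw [h4, div_pow]
    field_simp
  exact (mul_eq_zero.1 h2).resolve_left (pow_ne_zero _ hh)

/-- the constant term of a relation is at least as divisible as the element -/
lemma trail_ord {K : Type} [Field K] [Algebra ℂ K] {O : ValuationSubring K}
    (hO : IsPlace O) {v : K → ℤ} (hv : IsOrd O v) {d : ℕ} (x : Fin (d + 1) → K)
    (hx : ∀ l, x l ∈ O) (p : K) (hp0 : p ≠ 0) (hp : 0 ≤ v p) (q' : ℕ)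
    (a : ℕ → MvPolynomial (Fin (d + 1)) ℂ)
    (hrel : ∑ i ∈ Finset.range (q' + 1), aeval x (a i) * p ^ i = 0)
    (h0 : aeval x (a 0) ≠ 0) : v p ≤ v (aeval x (a 0)) := by
  have hpO : p ∈ O := (hv.2.1 p hp0).2 hp
  rw [Finset.sum_range_succ'] at hrel
  have h1 : aeval x (a 0) / p = - ∑ i ∈ Finset.range q', aeval x (a (i + 1)) * p ^ i := by
    rw [div_eq_iff hp0, neg_mul, Finset.sum_mul]
    have h2 : ∑ i ∈ Finset.range q', aeval x (a (i + 1)) * p ^ i * p =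
        ∑ i ∈ Finset.range q', aeval x (a (i + 1)) * p ^ (i + 1) :=
      Finset.sum_congr rfl fun i _ => by ring
    rw [h2]
    rw [pow_zero, mul_one] at hrel
    linear_combination hrel
  have h2 : aeval x (a 0) / p ∈ O := by
    rw [h1]
    exact neg_mem (sum_mem fun i _ => O.mul_mem _ _ (aeval_mem hO x hx _)
      (pow_mem hpO i))
  rw [hv.2.1 _ (div_ne_zero h0 hp0), ord_div hv _ _ h0 hp0] at h2
  omega

lemma spec_C {r d : ℕ} (ξ : Fin r → ℂ) (π : MvPolynomial (Fin (d + 1)) ℂ) :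
    spec ξ (C π) = π := by
  rw [spec, eval₂Hom_C, RingHom.id_apply]

theorem key_order {K : Type} [Field K] [Algebra ℂ K] {O : ValuationSubring K}
    (hO : IsPlace O) {v : K → ℤ} (hv : IsOrd O v) {n e q r d : ℕ} (he : 1 ≤ e)
    (hq : CountRel n e q) (h : r + (d + 1) = n + 1)
    (w : Fin (d + 1) → MvPolynomial (Fin (n + 1)) ℂ) (hw : ∀ l, (w l).IsHomogeneous e)
    (τ : Fin r → Fin (n + 1))
    (hind : AlgebraicIndependent ℂ
      (Sum.elim (fun i => (X (τ i) : MvPolynomial (Fin (n + 1)) ℂ) ^ e) w))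
    (y : Fin (n + 1) → K)
    (hnd : ∀ (k : ℕ) (Q : MvPolynomial (Fin (n + 1)) ℂ), Q.IsHomogeneous k → aeval y Q = 0 → Q = 0)
    (i₀ : Fin (d + 1)) (x : Fin (d + 1) → K) (hx : ∀ l, x l ∈ O)
    (hxy : ∀ l, aeval y (w l) = aeval y (w i₀) * x l) (hω : aeval y (w i₀) ≠ 0)
    (E : Fin d → Derivation ℂ K K) (hE : ∀ i, ∀ a ∈ O, E i a ∈ O)
    (hdet : (wrM x E).det ≠ 0) (hv0 : v (wrM x E).det = 0)
    (F : Fin (n + 1) → Polynomial (MvPolynomial (Fin r) (MvPolynomial (Fin (d + 1)) ℂ)))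
    (ξ : Fin (n + 1) → Fin r → ℂ)
    (hF : ∀ j, (F j).eval₂ (evR e w τ) (X j ^ e) = 0)
    (hG : ∀ j, aeval x (spec (ξ j) (F j).leadingCoeff) ≠ 0 ∧
      v (aeval x (spec (ξ j) (F j).leadingCoeff)) = 0)
    (P : MvPolynomial (Fin (n + 1)) ℂ) (hP : P.IsHomogeneous e) (hsq : Squarefree P)
    (hPa : IsAlgebraic (Algebra.adjoin ℂ (Set.range w)) P) :
    v (aeval y P) ≤ v (aeval y (w i₀)) + 1 := by
  classical
  by_contra hcon
  push Not at hcon
  have hP0 : P ≠ 0 := hsq.ne_zero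
  have hPy : aeval y P ≠ 0 := fun h0 => hP0 (hnd e P hP h0)
  have hwi : AlgebraicIndependent ℂ w := (AlgebraicIndependent.sumElim_iff.1 hind).1
  have hndx := hnd_x (fun l => aeval y (w l)) x (aeval y (w i₀)) hxy
    (hnd_w w hw hwi y hnd)
  obtain ⟨q', a, hq', ha, ha0, hrel⟩ := rel_trail hq h w hw τ hind P hP hP0 hPa
  have hrel' := rel_eval w y _ hω x hxy P q' a ha hrel
  set p := aeval y P / aeval y (w i₀) with hp
  have hp0 : p ≠ 0 := div_ne_zero hPy hω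
  have hvp : v p = v (aeval y P) - v (aeval y (w i₀)) := ord_div hv _ _ hPy hω
  have ha0x : aeval x (a 0) ≠ 0 := fun h0 => ha0 (hndx _ _ (ha 0 (Nat.zero_le _)) h0)
  have h1 := trail_ord hO hv x hx p hp0 (by omega) q' a hrel' ha0x
  obtain ⟨δ, π, hπ, hπd, hπv, -, hπdvd⟩ := vanish_irreducible hO hv x hx hndx E hE hdet hv0 _ (a 0)
    (ha 0 (Nat.zero_le _)) ha0 (by omega)
  have hπx : aeval x π ≠ 0 := fun h0 => hπ.ne_zero (hndx _ _ hπd h0)
  obtain ⟨L, _, φ, V, hφ, g1, g2, g3⟩ := double_gauss hO he w hw τ hind y hnd i₀ x hx hxy hω π δ hπd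
    hπx ((val_lt_iff hv hπx).2 (by omega)) (by
      intro k g hg hgv
      by_cases hg0 : g = 0
      · rw [hg0]
        exact dvd_zero _
      · exact hπdvd k g hg hg0 ((val_lt_iff hv fun h0 => hg0 (hndx _ _ hg h0)).1 hgv))
  have hinj := evR_injective e w τ hind
  refine key_alg he w τ hinj φ V hφ π hπ g1 g2 F hF ?_ P hsq (g3 P hP ⟨q', a, ha0, hrel⟩ ?_)
  · rintro j ⟨c, hc⟩
    have h2 := (hG j).1
    have h3 := (hG j).2
    rw [hc, map_mul, spec_C, map_mul] at h2 h3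
    have h4 : aeval x (spec (ξ j) c) ≠ 0 := right_ne_zero_of_mul h2
    rw [hv.1 _ _ hπx h4, hπv] at h3
    have h5 := (hv.2.1 _ h4).1 (aeval_mem hO x hx _)
    omega
  · have h2 : aeval y (w i₀) * aeval x π ^ 2 ≠ 0 := mul_ne_zero hω (pow_ne_zero _ hπx)
    rw [val_le_iff hv (div_ne_zero hPy h2), ord_div hv _ _ hPy h2,
      hv.1 _ _ hω (pow_ne_zero _ hπx), F_ord_pow hv _ hπx, hπv]
    push_cast
    omega

end Pool.Agent.Campana
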