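import Pool.Agent.Lib_MP_1209e6_mh.FinalG
import Pool.Agent.Lib_MP_1209e6_yb.YFinal
import Pool.Agent.Lib_MP_1209e6_yb.SqfBot

/-!
# Varieties which are ramified over many hypersurface sections of a variety

Let `Y = V(q)` be an irreducible projective variety and let `D` be a set of more than `N(Y, e, M)`
hypersurface sections of `Y` of degrees between `1` and `e`. A projective variety `X` with a dominant
rational map to `Y` is neither special nor Brody-special if at most `M` members of `D` pass through
each point of `Y` and the map is ramified over `D` (at each place which meets a member of `D`, some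
member has multiplicity at least two), or if `Y = ℙⁿ`, all members have degree `e`, in any position,
and the map is multiple over `D`.

The definitions (function fields, places, special function fields, Brody-special varieties) are in
`Pool.Agent.Lib_MP_1209e6_ag.Defs`, `MultipleAt` is in `Pool.Agent.Lib_MP_1209e6_mh.Statement`,
`RamifiedPl` is in `Pool.Agent.Lib_MP_b9fedf_lo.DefsRp` and `RedOn` is in
`Pool.Agent.Lib_MP_b9fedf_qy.DefsR`.

Sketch of the proof that `X` is not special in the first case. Choose coordinates `w_0, …, w_k` of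
`ℙⁿ`, `k = dim Y`, which are algebraically independent on `Y`. The form `∑ ± w_0 dw_1 ∧ … ∧ dw_k`
generates a rank one sheaf of `k`-forms with at least `k + 1` algebraically independent sections, the
quotients of the forms `w_i w_0 ^ r` by the product of the members of `D`: at a place the relative
order of a member is at most a constant times the log discrepancy `1 + β` (`y_rel`), and if `β = 0`
then it is at most one (`y_key`: the centre of the place is a divisor of `Y`, where the member of `D`
is reduced), hence zero. `X` is not Brody-special by the second main theorem with truncation level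
one (`Pool.Agent.Lib_MP_b9fedf_lo`).
-/

set_option autoImplicit false

open Pool.Agent.Campana Pool.Agent.LO Pool.Agent.QY Pool.Agent.YB

namespace Pool.Agent.Results.MP_1209e6_ag.ManyHypersurfaces

/-- The function field of the projective variety with homogeneous prime ideal `P`: the field
generated by the quotients `x_i / x_j` in the fraction field of the coordinate ring. -/
noncomputable abbrev functionField {n : ℕ} (P : Ideal (MvPolynomial (Fin (n + 1)) ℂ)) [P.IsPrime] :
    IntermediateField ℂ (FractionRing (MvPolynomial (Fin (n + 1)) ℂ ⧸ P)) :=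
  IntermediateField.adjoin ℂ
    (Set.range fun ij : Fin (n + 1) × Fin (n + 1) => coord P ij.1 / coord P ij.2)

/-- For all `n`, `e`, `M` and every irreducible projective variety `Y = V(q)` in `ℙⁿ` there is `N`
such that for every set `D` of more than `N` forms of degrees between `1` and `e`, pairwise
non-proportional on `Y`, whose sections of `Y` have no multiple components, and every projective
variety `X = V(P)` with a dominant rational map `(y_0 : … : y_n)` to `Y`, `X` is neither special nor
Brody-special if either at most `M` members of `D` vanish at each point of `Y` and at each place of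
the function field the relative orders of the members are all zero or not all at most one, or
`Y = ℙⁿ`, the members of `D` have degree `e` and the map is multiple over `D` (at each place of the
function field: if two members of `D` have orders `a` and `a + 1`, then at most `M` members of `D` have
order at least `a`). -/
theorem result (n e M : ℕ) (q : Ideal (MvPolynomial (Fin (n + 1)) ℂ)) (hq : q.IsPrime)
    (hqh : HomI q) : ∃ N : ℕ,
    ∀ D : Finset (MvPolynomial (Fin (n + 1)) ℂ),
    (∀ Q ∈ D, 1 ≤ Q.totalDegree ∧ Q.totalDegree ≤ e ∧ Q.IsHomogeneous Q.totalDegree ∧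
      RedOn q Q) →
    (∀ Q ∈ D, ∀ Q' ∈ D, ∀ c : ℂ, Q' - MvPolynomial.C c * Q ∈ q → Q' = Q) → N < D.card →
    ∀ (m : ℕ) (P : Ideal (MvPolynomial (Fin (m + 1)) ℂ)) [P.IsPrime], IsVariety P →
    ∀ y : Fin (n + 1) → functionField P,
      (∀ (d : ℕ) (Q : MvPolynomial (Fin (n + 1)) ℂ), Q.IsHomogeneous d →
        (MvPolynomial.aeval y Q = 0 ↔ Q ∈ q)) →
      ((∀ x : Fin (n + 1) → ℂ, x ≠ 0 → (∀ g ∈ q, MvPolynomial.eval x g = 0) → ∀ A ⊆ D,
          (∀ Q ∈ A, MvPolynomial.eval x Q = 0) → A.card ≤ M) ∧ RamifiedPl y D) ∨
      (q = ⊥ ∧ (∀ Q ∈ D, Q.totalDegree = e) ∧ MultipleAt M y D) →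
      ¬ SpecialField (functionField P) ∧ ¬ BrodySpecial P := by
  obtain ⟨N₁, hN₁⟩ := ramified_special_y n e M q hq hqh
  rcases Nat.eq_zero_or_pos n with rfl | hn
  · -- the point
    refine ⟨max N₁ e, ?_⟩
    intro D hD hD' hcard m P _ hP y hy hT
    rcases hT with ⟨hpt, hT⟩ | ⟨rfl, -, -⟩
    · exact hN₁ D hD hD' hpt (lt_of_le_of_lt (le_max_left _ _) hcard) m P hP y hy hT
    · exfalso
      have h1 := tr_two_of_card hq hqh D (fun Q hQ => ⟨(hD Q hQ).1, (hD Q hQ).2.1,
        (hD Q hQ).2.2.1, (hD Q hQ).2.2.2.1⟩) hD' (lt_of_le_of_lt (le_max_right _ _) hcard)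
      have h2 := tr_le hq h1
      omega
  obtain ⟨N₂, hN₂⟩ := main_general n e M hn
  refine ⟨max N₁ N₂, ?_⟩
  intro D hD hD' hcard m P _ hP y hy hT
  rcases hT with ⟨hpt, hT⟩ | ⟨rfl, hDe, hT⟩
  · exact hN₁ D hD hD' hpt (lt_of_le_of_lt (le_max_left _ _) hcard) m P hP y hy hT
  · have hnd : ∀ (d : ℕ) (Q : MvPolynomial (Fin (n + 1)) ℂ), Q.IsHomogeneous d →
        MvPolynomial.aeval y Q = 0 → Q = 0 := fun d Q hQ h0 => (hy d Q hQ).1 h0
    have hy0 : y 0 ≠ 0 := by
      intro h0
      have h1 := hnd 1 (MvPolynomial.X 0) (MvPolynomial.isHomogeneous_X ℂ 0)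
        (by rw [MvPolynomial.aeval_X]; exact h0)
      exact MvPolynomial.X_ne_zero 0 h1
    refine hN₂ m P hP y hy0 (algInd_of_hom y hy0 hnd) D (fun Q hQ => ⟨?_,
      squarefree_of_redOn_bot Q (hD Q hQ).2.2.2⟩) ?_ (lt_of_le_of_lt (le_max_right _ _) hcard) hT
    · have h1 := (hD Q hQ).2.2.1
      rw [hDe Q hQ] at h1
      exact h1
    · intro Q hQ Q' hQ' c hc
      exact hD' Q hQ Q' hQ' c (by rw [hc, sub_self]; exact Ideal.zero_mem _)

end Pool.Agent.Results.MP_1209e6_ag.ManyHypersurfaces
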