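import Mathlib
import Pool.Agent.Lib_MP_1209e6_mh.Count

/-! Relations between the members of a linear system and algebraically independent forms. -/

set_option autoImplicit false

namespace Pool.Agent.Campana

open MvPolynomial

/-- if a relation holds for algebraically independent `t` then it holds for all algebraic
specializations of `t` -/
theorem relation_specialize {S : Type} [CommRing S] [IsDomain S] [Algebra ℂ S] {r b : ℕ}
    (w : Fin b → S) (t : Fin r → S) (ht : AlgebraicIndependent ℂ (Sum.elim t w))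
    (p : S) (hp : IsAlgebraic (Algebra.adjoin ℂ (Set.range w)) p)
    (F : Polynomial (MvPolynomial (Fin r) (MvPolynomial (Fin b) ℂ)))
    (hF : F.eval₂ (eval₂Hom ((aeval w : MvPolynomial (Fin b) ℂ →ₐ[ℂ] S) :
      MvPolynomial (Fin b) ℂ →+* S) t) p = 0)
    (s : Fin r → S) (hs : ∀ i, IsAlgebraic (Algebra.adjoin ℂ (Set.range w)) (s i)) :
    F.eval₂ (eval₂Hom ((aeval w : MvPolynomial (Fin b) ℂ →ₐ[ℂ] S) :
      MvPolynomial (Fin b) ℂ →+* S) s) p = 0 := by
  classical
  have h1 := (AlgebraicIndependent.sumElim_iff.1 ht).2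
  have h2 := h1.subalgebraAlgebraicClosure
  let B := Subalgebra.algebraicClosure (Algebra.adjoin ℂ (Set.range w)) S
  let θ₀ : MvPolynomial (Fin b) ℂ →ₐ[ℂ] Algebra.adjoin ℂ (Set.range w) :=
    aeval fun l => ⟨w l, Algebra.subset_adjoin ⟨l, rfl⟩⟩
  have hθ₀ : ∀ a, ((θ₀ a : Algebra.adjoin ℂ (Set.range w)) : S) = aeval w a := by
    intro a
    have h3 : (Algebra.adjoin ℂ (Set.range w)).val.comp θ₀ = aeval w := by
      apply MvPolynomial.algHom_ext
      intro l
      simp only [AlgHom.comp_apply, θ₀, aeval_X, Subalgebra.coe_val]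
    exact congrArg (fun f => f a) h3
  let θ : MvPolynomial (Fin b) ℂ →+* B :=
    (algebraMap (Algebra.adjoin ℂ (Set.range w)) B).comp (θ₀ : MvPolynomial (Fin b) ℂ →+* _)
  have hθ : ∀ a, ((θ a : B) : S) = aeval w a := fun a => hθ₀ a
  let pB : B := ⟨p, hp⟩
  let Φ : MvPolynomial (Fin r) B := F.eval₂ (MvPolynomial.map θ) (C pB)
  have key : ∀ u : Fin r → S, aeval u Φ =
      F.eval₂ (eval₂Hom ((aeval w : MvPolynomial (Fin b) ℂ →ₐ[ℂ] S) :
      MvPolynomial (Fin b) ℂ →+* S) u) p := by
    intro u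
    have h3 := Polynomial.hom_eval₂ F (MvPolynomial.map θ)
      ((aeval u : MvPolynomial (Fin r) B →ₐ[B] S) : MvPolynomial (Fin r) B →+* S) (C pB)
    have h4 : ((aeval u : MvPolynomial (Fin r) B →ₐ[B] S) : MvPolynomial (Fin r) B →+* S).comp
        (MvPolynomial.map θ) = eval₂Hom ((aeval w : MvPolynomial (Fin b) ℂ →ₐ[ℂ] S) :
      MvPolynomial (Fin b) ℂ →+* S) u := by
      apply MvPolynomial.ringHom_ext
      · intro a
        rw [RingHom.comp_apply, MvPolynomial.map_C, eval₂Hom_C]
        show aeval u (C (θ a)) = aeval w a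
        rw [aeval_C]
        exact hθ a
      · intro i
        rw [RingHom.comp_apply, MvPolynomial.map_X, eval₂Hom_X']
        show aeval u (X i) = u i
        rw [aeval_X]
    rw [h4] at h3
    have h5 : ((aeval u : MvPolynomial (Fin r) B →ₐ[B] S) : MvPolynomial (Fin r) B →+* S)
        (C pB) = p := by
      show aeval u (C pB) = p
      rw [aeval_C]
      rfl
    rw [h5] at h3
    exact h3
  have hΦ : Φ = 0 := by
    apply h2
    rw [map_zero, key, hF]
  let sB : Fin r → B := fun i => ⟨s i, hs i⟩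
  rw [← key, hΦ, map_zero]

/-- identification of the variables -/
noncomputable def kap {n r d : ℕ} (h : r + (d + 1) = n + 1) : MvPolynomial (Fin (n + 1)) ℂ ≃ₐ[ℂ]
    MvPolynomial (Fin r) (MvPolynomial (Fin (d + 1)) ℂ) :=
  (renameEquiv ℂ ((finCongr h).symm.trans finSumFinEquiv.symm)).trans
    (sumAlgEquiv ℂ (Fin r) (Fin (d + 1)))

/-- the substitution `t_i = ξ_i T_0` -/
noncomputable def spec {r d : ℕ} (ξ : Fin r → ℂ) :
    MvPolynomial (Fin r) (MvPolynomial (Fin (d + 1)) ℂ) →+* MvPolynomial (Fin (d + 1)) ℂ :=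
  eval₂Hom (RingHom.id _) fun i => C (ξ i) * X 0

lemma kap_X {n r d : ℕ} (h : r + (d + 1) = n + 1) (k : Fin (n + 1)) :
    kap h (X k) = Sum.elim (fun i => X i) (fun l => C (X l))
      (finSumFinEquiv.symm ((finCongr h).symm k)) := by
  rw [kap, AlgEquiv.trans_apply, renameEquiv_apply, rename_X]
  show sumAlgEquiv ℂ (Fin r) (Fin (d + 1)) (X (finSumFinEquiv.symm ((finCongr h).symm k))) = _
  rcases finSumFinEquiv.symm ((finCongr h).symm k) with i | l
  · rw [sumAlgEquiv_X_inl, Sum.elim_inl]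
  · rw [sumAlgEquiv_X_inr, Sum.elim_inr]

lemma kap_C {n r d : ℕ} (h : r + (d + 1) = n + 1) (a : ℂ) : kap h (C a) = C (C a) :=
  (kap h).commutes a

/-- the substitution preserves forms -/
lemma spec_hom {n r d : ℕ} (h : r + (d + 1) = n + 1) (ξ : Fin r → ℂ) {k : ℕ}
    (p : MvPolynomial (Fin (n + 1)) ℂ) (hp : p.IsHomogeneous k) :
    (spec ξ (kap h p)).IsHomogeneous k := by
  have h1 : spec ξ (kap h p) = aeval (fun k => spec ξ (kap h (X k))) p := by
    have h2 : (spec ξ).comp (kap h).toAlgHom.toRingHom =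
        ((aeval (fun k => spec ξ (kap h (X k))) : MvPolynomial (Fin (n + 1)) ℂ →ₐ[ℂ] _) :
          MvPolynomial (Fin (n + 1)) ℂ →+* MvPolynomial (Fin (d + 1)) ℂ) := by
      apply MvPolynomial.ringHom_ext
      · intro a
        show spec ξ (kap h (C a)) = aeval _ (C a)
        rw [kap_C, aeval_C, spec, eval₂Hom_C]
        rfl
      · intro k
        show spec ξ (kap h (X k)) = aeval _ (X k)
        rw [aeval_X]
    exact congrArg (fun f => f p) h2
  rw [h1]
  have h3 := hp.aeval (fun k => spec ξ (kap h (X k))) (n := 1) (by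
    intro k
    rw [kap_X]
    rcases finSumFinEquiv.symm ((finCongr h).symm k) with i | l
    · rw [Sum.elim_inl, spec, eval₂Hom_X']
      exact (isHomogeneous_X ℂ 0).C_mul _
    · rw [Sum.elim_inr, spec, eval₂Hom_C]
      exact isHomogeneous_X ℂ l)
  rwa [one_mul] at h3

/-- some substitution is nonzero -/
lemma exists_spec_ne {n r d : ℕ} (h : r + (d + 1) = n + 1) (p : MvPolynomial (Fin (n + 1)) ℂ)
    (hp : p ≠ 0) : ∃ ξ : Fin r → ℂ, spec ξ (kap h p) ≠ 0 := by
  set ε : Fin (n + 1) ≃ Fin r ⊕ Fin (d + 1) := (finCongr h).symm.trans finSumFinEquiv.symm with hε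
  set k₀ := ε.symm (Sum.inr 0) with hk₀
  obtain ⟨η, hη⟩ : ∃ η, eval η (X k₀ * p) ≠ 0 := by
    by_contra hcon
    push Not at hcon
    exact mul_ne_zero (X_ne_zero k₀) hp (MvPolynomial.funext fun y => by rw [hcon y, map_zero])
  rw [map_mul, eval_X] at hη
  have h0 : η k₀ ≠ 0 := left_ne_zero_of_mul hη
  have h1 : eval η p ≠ 0 := right_ne_zero_of_mul hη
  refine ⟨fun i => η (ε.symm (Sum.inl i)) / η k₀, fun hcon => h1 ?_⟩
  have h2 : (eval fun l : Fin (d + 1) => η (ε.symm (Sum.inr l)))
      (spec (fun i => η (ε.symm (Sum.inl i)) / η k₀) (kap h p)) = eval η p := by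
    have h3 : ((eval fun l : Fin (d + 1) => η (ε.symm (Sum.inr l))).comp
        (spec (fun i => η (ε.symm (Sum.inl i)) / η k₀))).comp
        (kap h).toAlgHom.toRingHom = eval η := by
      apply MvPolynomial.ringHom_ext
      · intro a
        show (eval fun l : Fin (d + 1) => η (ε.symm (Sum.inr l))) (spec _ (kap h (C a))) = _
        rw [kap_C, spec, eval₂Hom_C, RingHom.id_apply, eval_C, eval_C]
      · intro k
        show (eval fun l : Fin (d + 1) => η (ε.symm (Sum.inr l))) (spec _ (kap h (X k))) = _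
        rw [kap_X, eval_X]
        have h4 : ε.symm (ε k) = k := ε.symm_apply_apply k
        have h5 : finSumFinEquiv.symm ((finCongr h).symm k) = ε k := rfl
        rw [h5]
        rcases hk : ε k with i | l
        · rw [Sum.elim_inl, spec, eval₂Hom_X', map_mul, eval_C, eval_X, ← hk₀, div_mul_cancel₀ _ h0,
            ← hk, h4]
        · rw [Sum.elim_inr, spec, eval₂Hom_C, RingHom.id_apply, eval_X, ← hk, h4]
    exact congrArg (fun f => f p) h3
  rw [← h2, hcon, map_zero]

end Pool.Agent.Campana
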